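import Pool.Agent.Helper7.MK.Defs

/-!
# Project TD (MP_5ecade_al): definitions

`BN p P U N`: the group `K` has a split BN-pair with the abelian `p`-group `P` in the torus, such
that `C_U(P) = 1`. Everything about the Hecke algebra of `(K, U)` is expressed by structure
constants `c : N → N → N → R`: `e_a * e_b = ∑ c a b r • e_r`.
-/

set_option autoImplicit false

open scoped commutatorElement

namespace Pool.Agent.Helper81.TD

open Pool.Agent.Helper42.INC Pool.Agent.Helper7.MK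

section group

variable {K : Type} [Group K]

/-- the torus: the elements of `N` which centralize `P` -/
def TT (P N : Subgroup K) : Subgroup K := N ⊓ Subgroup.centralizer (P : Set K)

/-- the double coset `U n U` -/
def DC (U : Subgroup K) (n x : K) : Prop := ∃ u ∈ U, ∃ u' ∈ U, x = u * n * u'

/-- the simple elements: `m ∉ T`, `m² ∈ T` and `m B n ⊆ B m n B ∪ B n B` for all `n ∈ N`, where
`B = U T` -/
def IsSim (P U N : Subgroup K) (m : K) : Prop :=
  m ∈ N ∧ m ∉ TT P N ∧ m * m ∈ TT P N ∧ ∀ n ∈ N, ∀ u ∈ U, ∃ t ∈ TT P N,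
    DC U (m * n * t) (m * u * n) ∨ DC U (n * t) (m * u * n)

/-- `K` has a split BN-pair with the `p`-group `P` in the torus -/
structure BN (p : ℕ) (P U N : Subgroup K) : Prop where
  pgroup : IsPGroup p P
  comm : ∀ a ∈ P, ∀ b ∈ P, a * b = b * a
  le : P ≤ N
  norm : ∀ n ∈ N, ∀ x ∈ P, n * x * n⁻¹ ∈ P
  normU : ∀ n ∈ N, (∀ u ∈ U, n * u * n⁻¹ ∈ U) ↔ n ∈ TT P N
  fix : ∀ u ∈ U, (∀ x ∈ P, x * u = u * x) → u = 1
  cover : ∀ g, ∃ n ∈ N, DC U n g
  gen : ∀ n ∈ N, n ∈ Subgroup.closure ({m | IsSim P U N m} ∪ (TT P N : Set K))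
  quad : ∀ x ∈ N, (∃ k : ℕ, x ^ p ^ k = 1) → (∀ y ∈ P, ⁅⁅y, x⁆, x⁆ = 1) → x ∈ P
  aut : ∀ α : MulAut K, (∀ x, α x ∈ P ↔ x ∈ P) → ∃ n ∈ N, ∀ x, n⁻¹ * α x * n ∈ U ↔ x ∈ U

end group

/-! ### structure constants -/

section sc

variable {N : Type} [Group N] [Fintype N] [DecidableEq N] {R : Type} [CommRing R]

/-- associativity -/
def Asc (c : N → N → N → R) : Prop :=
  ∀ a b d r, ∑ s, c a b s * c s d r = ∑ s, c b d s * c a s r

/-- `e_t * e_b = e_{t b}` and `e_b * e_t = e_{b t}` for `t ∈ T` (in particular `e_1` is the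
unit) -/
def TTr (T : Subgroup N) (c : N → N → N → R) : Prop :=
  ∀ t ∈ T, ∀ b r, c t b r = (if r = t * b then 1 else 0) ∧ c b t r = (if r = b * t then 1 else 0)

/-- invariance under a set of automorphisms -/
def Inv (A : Set (MulAut N)) (c : N → N → N → R) : Prop :=
  ∀ α ∈ A, ∀ a b r, c (α a) (α b) (α r) = c a b r

/-- a separability element `∑ S a b • e_a ⊗ e_b` -/
structure Sep (A : Set (MulAut N)) (c : N → N → N → R) (S : N → N → R) : Prop where
  comm : ∀ a x y, ∑ s, S s y * c a s x = ∑ s, S x s * c s a y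
  one : ∀ r, ∑ a, ∑ b, S a b * c a b r = if r = 1 then 1 else 0
  inv : ∀ α ∈ A, ∀ a b, S (α a) (α b) = S a b

/-- an isomorphism from the algebra with structure constants `c` to the one with structure
constants `d`, equivariant under `A` and compatible with the multiplications with `T` -/
structure Iso (T : Subgroup N) (A : Set (MulAut N)) (c d : N → N → N → R) (X Y : N → N → R) :
    Prop where
  mul : ∀ a b r, ∑ s, c a b s * X s r = ∑ i, ∑ j, X a i * X b j * d i j r
  left : ∀ a b, ∑ s, X a s * Y s b = if a = b then 1 else 0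
  right : ∀ a b, ∑ s, Y a s * X s b = if a = b then 1 else 0
  tor : ∀ t ∈ T, ∀ a r, X (t * a) (t * r) = X a r ∧ X (a * t) (r * t) = X a r
  one : ∀ r, X 1 r = if r = 1 then 1 else 0
  inv : ∀ α ∈ A, ∀ a r, X (α a) (α r) = X a r

/-- the structure constants of the group algebra -/
def gc (a b r : N) : R := if r = a * b then 1 else 0

/-- A Hecke datum: the group `N` with the normal subgroup `T`, the set of simple elements `Sim`,
the function `q` (lengths) and the structure constants `c` (real numbers). -/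
structure HD (T : Subgroup N) (Sim : Set N) (q : N → ℕ) (c : N → N → N → ℝ) : Prop where
  normal : T.Normal
  sim_ne : ∀ m ∈ Sim, m ∉ T
  sim_sq : ∀ m ∈ Sim, m * m ∈ T
  sim_mul : ∀ m ∈ Sim, ∀ t ∈ T, t * m ∈ Sim ∧ m * t ∈ Sim
  q_pos : ∀ n, 0 < q n
  q_mul : ∀ t ∈ T, ∀ n, q (t * n) = q n ∧ q (n * t) = q n
  q_inv : ∀ n, q n⁻¹ = q n
  q_sim : ∀ m ∈ Sim, 1 < q m
  dich : ∀ m ∈ Sim, ∀ n, q (m * n) = q m * q n ∨ q n = q m * q (m * n)
  gen : ∀ n, n ∉ T → ∃ m ∈ Sim, q n = q m * q (m * n)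
  asc : Asc c
  ttr : TTr T c
  up : ∀ m ∈ Sim, ∀ n r, q (m * n) = q m * q n → c m n r = if r = m * n then 1 else 0
  sq_one : ∀ m ∈ Sim, c m m⁻¹ 1 = q m
  sq_supp : ∀ m ∈ Sim, ∀ r, r ≠ 1 → c m m⁻¹ r ≠ 0 → m⁻¹ * r ∈ T
  anti : ∀ a b r, c a b r = c b⁻¹ a⁻¹ r⁻¹
  sym : ∀ a b r, q r * c a b r = q b * c r⁻¹ a b⁻¹

/-- the automorphisms of a Hecke datum -/
def AutHD (Sim : Set N) (q : N → ℕ) (c : N → N → N → ℝ) : Set (MulAut N) :=
  {α | (∀ m, α m ∈ Sim ↔ m ∈ Sim) ∧ (∀ n, q (α n) = q n) ∧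
    ∀ a b r, c (α a) (α b) (α r) = c a b r}

end sc

/-! ### the Hecke algebra of a pair of groups -/

section hecke

variable {K : Type} [Group K]

/-- the structure constants of the Hecke algebra of `(K, U)` with respect to the basis
`T_n = |U|⁻¹ ∑_{g ∈ U n U} g`, `n ∈ N` -/
noncomputable def hc (U N : Subgroup K) (a b r : N) : ℝ :=
  (Nat.card {x : K // DC U a x ∧ DC U b (x⁻¹ * r)} : ℝ) / Nat.card U

/-- the index of `U ∩ n U n⁻¹` in `U`: the number of left cosets of `U` in `U n U` -/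
noncomputable def hq (U N : Subgroup K) (n : N) : ℕ := Nat.card {x : K // DC U n x} / Nat.card U

/-- the basis of the Hecke algebra: `T_n` as a function on `K` -/
noncomputable def tf (U : Subgroup K) (n g : K) : ℂ := by
  classical
  exact if DC U n g then (Nat.card U : ℂ)⁻¹ else 0

/-- the extension of a matrix representation to functions -/
noncomputable def ext {d : ℕ} (D : K →* Matrix (Fin d) (Fin d) ℂ) (f : K → ℂ) :
    Matrix (Fin d) (Fin d) ℂ := ∑ᶠ g, f g • D g

/-- automorphisms of `K` which stabilize `U` and `N`, as automorphisms of `N` -/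
def AutUN (U N : Subgroup K) : Set (MulAut N) :=
  {β | ∃ α : MulAut K, (∀ x, α x ∈ U ↔ x ∈ U) ∧ ∀ n : N, ((β n : N) : K) = α n}

end hecke

end Pool.Agent.Helper81.TD
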