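import Pool.Agent.Helper81.TD.Basic

/-!
# Project TD, G1-G3: the subgroup `N` contains a Sylow normalizer of `K`
-/

set_option autoImplicit false

open scoped commutatorElement

namespace Pool.Agent.Helper81.TD

variable {K : Type} [Group K] {p : ℕ} {P U N : Subgroup K}

/-- abelian `p`-subgroups of `N` which are normalized by `P` are contained in `P` -/
theorem BN.ab_le (h : BN p P U N) {A : Set K} (hN : ∀ a ∈ A, a ∈ N)
    (hp : ∀ a ∈ A, ∃ k : ℕ, a ^ p ^ k = 1) (hP : ∀ y ∈ P, ∀ a ∈ A, y * a * y⁻¹ ∈ A)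
    (hc : ∀ a ∈ A, ∀ b ∈ A, a * b = b * a) {a : K} (ha : a ∈ A) : a ∈ P := by
  refine h.quad a (hN a ha) (hp a ha) fun y hy => ?_
  have h1 := hc _ (hP y hy a ha) _ ha
  rw [commutatorElement_def, commutatorElement_def]
  calc y * a * y⁻¹ * a⁻¹ * a * (y * a * y⁻¹ * a⁻¹)⁻¹ * a⁻¹
      = y * a * y⁻¹ * a * (y * a * y⁻¹)⁻¹ * a⁻¹ := by group
    _ = a * (y * a * y⁻¹) * (y * a * y⁻¹)⁻¹ * a⁻¹ := by rw [h1]
    _ = 1 := by group

theorem BN.exists_pow (h : BN p P U N) {x : K} (hx : x ∈ P) : ∃ k : ℕ, x ^ p ^ k = 1 := by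
  obtain ⟨k, hk⟩ := h.pgroup ⟨x, hx⟩
  exact ⟨k, congrArg Subtype.val hk⟩

/-- if `α` maps `P` into `N` and `P` normalizes `α(P)` then `α` maps `P` into `P` -/
theorem BN.map_le (h : BN p P U N) (α : MulAut K) (h1 : ∀ x ∈ P, α x ∈ N)
    (h2 : ∀ y ∈ P, ∀ x ∈ P, ∃ z ∈ P, y * α x * y⁻¹ = α z) {x : K} (hx : x ∈ P) : α x ∈ P := by
  refine h.ab_le (A := {a | ∃ z ∈ P, a = α z}) ?_ ?_ ?_ ?_ ⟨x, hx, rfl⟩
  · rintro a ⟨z, hz, rfl⟩
    exact h1 z hz
  · rintro a ⟨z, hz, rfl⟩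
    obtain ⟨k, hk⟩ := h.exists_pow hz
    exact ⟨k, by rw [← map_pow, hk, map_one]⟩
  · rintro y hy a ⟨z, hz, rfl⟩
    exact h2 y hy z hz
  · rintro a ⟨z, hz, rfl⟩ b ⟨w, hw, rfl⟩
    rw [← map_mul, h.comm z hz w hw, map_mul]

theorem map_iff {α : MulAut K} {P : Subgroup K} (h1 : ∀ x ∈ P, α x ∈ P)
    (h2 : ∀ x ∈ P, α⁻¹ x ∈ P) (x : K) : α x ∈ P ↔ x ∈ P := by
  refine ⟨fun h => ?_, h1 x⟩
  have := h2 _ h
  rwa [MulAut.inv_apply_self] at this

theorem inv_stab {α : MulAut K} {N : Subgroup K} (h : ∀ x, α x ∈ N ↔ x ∈ N) (x : K) :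
    α⁻¹ x ∈ N ↔ x ∈ N := by
  rw [← h (α⁻¹ x), MulAut.apply_inv_self]

/-- G1: automorphisms which stabilize `N` stabilize `P` -/
theorem BN.alpha_P (h : BN p P U N) {α : MulAut K} (hα : ∀ x, α x ∈ N ↔ x ∈ N) (x : K) :
    α x ∈ P ↔ x ∈ P := by
  have key : ∀ β : MulAut K, (∀ x, β x ∈ N ↔ x ∈ N) → ∀ x ∈ P, β x ∈ P := by
    intro β hβ x hx
    refine h.map_le β (fun z hz => (hβ z).mpr (h.le hz)) (fun y hy z hz => ?_) hx
    have hy' : β⁻¹ y ∈ N := (inv_stab hβ y).mpr (h.le hy)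
    refine ⟨β⁻¹ y * z * (β⁻¹ y)⁻¹, h.norm _ hy' z hz, ?_⟩
    rw [map_mul, map_mul, map_inv, MulAut.apply_inv_self]
  exact map_iff (key α hα) (key α⁻¹ (inv_stab hα)) x

/-- G1: an automorphism which stabilizes `N` is the product of an inner automorphism, from `N`, and
of an automorphism which stabilizes `U` and `N` -/
theorem BN.decomp (h : BN p P U N) {α : MulAut K} (hα : ∀ x, α x ∈ N ↔ x ∈ N) :
    ∃ n ∈ N, ∃ β : MulAut K, (∀ x, β x ∈ U ↔ x ∈ U) ∧ (∀ x, β x ∈ N ↔ x ∈ N) ∧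
      α = MulAut.conj n * β := by
  obtain ⟨n, hn, h1⟩ := h.aut α (h.alpha_P hα)
  refine ⟨n, hn, MulAut.conj n⁻¹ * α, fun x => ?_, fun x => ?_, ?_⟩
  · rw [MulAut.mul_apply, MulAut.conj_apply, inv_inv]
    exact h1 x
  · rw [MulAut.mul_apply, MulAut.conj_apply, inv_inv, ← hα x]
    constructor
    · intro h2
      have := N.mul_mem (N.mul_mem hn h2) (N.inv_mem hn)
      convert this using 1
      group
    · intro h2
      exact N.mul_mem (N.mul_mem (N.inv_mem hn) h2) hn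
  · rw [← mul_assoc, ← map_mul, mul_inv_cancel, map_one, one_mul]

/-- G2: the normalizer of `P` is `N` -/
theorem BN.normalizer_le [Finite K] [Fact p.Prime] (h : BN p P U N) {g : K}
    (hg : ∀ x ∈ P, g⁻¹ * x * g ∈ P) (hg' : ∀ x ∈ P, g * x * g⁻¹ ∈ P) : g ∈ N := by
  obtain ⟨n, hn, u, hu, u', hu', e⟩ := h.cover g
  -- the action of `P`
  have key : ∀ x ∈ P, ∀ v ∈ U, n⁻¹ * v⁻¹ * g ∈ U → n⁻¹ * x * n = g⁻¹ * x * g := by
    intro x hx v hv hv'
    have h1 : n * ((n⁻¹ * x * n) * (g⁻¹ * x * g)⁻¹) ∈ N :=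
      N.mul_mem hn (h.le (P.mul_mem (h.norm' hn hx) (P.inv_mem (hg x hx))))
    have h2 : DC U n (n * ((n⁻¹ * x * n) * (g⁻¹ * x * g)⁻¹)) := by
      refine ⟨(x * v * x⁻¹)⁻¹ * v, U.mul_mem (U.inv_mem (h.normP hx hv)) hv,
        (n⁻¹ * v⁻¹ * g) * ((g⁻¹ * x * g) * (n⁻¹ * v⁻¹ * g) * (g⁻¹ * x * g)⁻¹)⁻¹,
        U.mul_mem hv' (U.inv_mem (h.normP (hg x hx) hv')), ?_⟩
      group
    have h3 := h.uniq hn h1 h2
    have h4 : n⁻¹ * x * n * (g⁻¹ * x * g)⁻¹ = 1 := by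
      have : n * 1 = n * (n⁻¹ * x * n * (g⁻¹ * x * g)⁻¹) := by rw [mul_one]; exact h3
      exact (mul_left_cancel this).symm
    exact mul_inv_eq_one.mp h4
  have key2 : ∀ x ∈ P, ∀ v ∈ U, n⁻¹ * v⁻¹ * g ∈ U → n⁻¹ * (x * v * x⁻¹)⁻¹ * g =
      (g⁻¹ * x * g) * (n⁻¹ * v⁻¹ * g) * (g⁻¹ * x * g)⁻¹ := by
    intro x hx v hv hv'
    rw [← key x hx v hv hv']
    have e1 : (n⁻¹ * x * n)⁻¹ = (g⁻¹ * x * g)⁻¹ := by rw [key x hx v hv hv']
    calc n⁻¹ * (x * v * x⁻¹)⁻¹ * g = n⁻¹ * x * v⁻¹ * g * (g⁻¹ * x * g)⁻¹ := by group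
      _ = n⁻¹ * x * v⁻¹ * g * (n⁻¹ * x * n)⁻¹ := by rw [e1]
      _ = _ := by group
  let W : Subgroup K := U ⊓ U.comap (MulAut.conj n⁻¹).toMonoidHom
  have hW : ∀ w, w ∈ W ↔ w ∈ U ∧ n⁻¹ * w * n ∈ U := by
    intro w
    rw [Subgroup.mem_inf, Subgroup.mem_comap]
    have : (MulAut.conj n⁻¹).toMonoidHom w = n⁻¹ * w * n := by
      change MulAut.conj n⁻¹ w = _
      rw [MulAut.conj_apply, inv_inv]
    rw [this]
  have hWc : Nat.card W ≡ 1 [MOD p] := by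
    refine h.sub_mod W (fun x hx w hw => ?_) fun w hw => h.fix w ((hW w).mp hw).1
    rw [hW] at hw ⊢
    refine ⟨h.normP hx hw.1, ?_⟩
    have := h.normP (h.norm' hn hx) hw.2
    convert this using 1
    group
  let S : Set K := {v | v ∈ U ∧ n⁻¹ * v⁻¹ * g ∈ U}
  have hu1 : n⁻¹ * u⁻¹ * g ∈ U := by
    rw [e]
    convert hu' using 1
    group
  have hSc : Nat.card S = Nat.card W := by
    refine Nat.card_congr ⟨fun v => ⟨u⁻¹ * v.1, (hW _).mpr ⟨U.mul_mem (U.inv_mem hu) v.2.1, ?_⟩⟩,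
      fun w => ⟨u * w.1, U.mul_mem hu ((hW _).mp w.2).1, ?_⟩, fun v => ?_, fun w => ?_⟩
    · have := U.mul_mem hu1 (U.inv_mem v.2.2)
      convert this using 1
      group
    · have := U.mul_mem (U.inv_mem ((hW _).mp w.2).2) hu1
      convert this using 1
      group
    · exact Subtype.ext (mul_inv_cancel_left _ _)
    · exact Subtype.ext (inv_mul_cancel_left _ _)
  obtain ⟨v, ⟨hv, hv'⟩, hvc⟩ := exists_fix h.pgroup S (fun x hx v hv => ⟨h.normP hx hv.1, by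
      rw [key2 x hx v hv.1 hv.2]
      exact h.normP (hg x hx) hv.2⟩) (by
    rw [hSc]
    exact not_dvd_of_modEq_one hWc)
  have hv1 := h.fix v hv hvc
  subst hv1
  have h5 : n⁻¹ * (1 : K)⁻¹ * g = 1 := by
    refine h.fix _ hv' fun y hy => ?_
    have h6 := key2 (g * y * g⁻¹) (hg' y hy) 1 hv hv'
    have h7 : g⁻¹ * (g * y * g⁻¹) * g = y := by group
    rw [h7] at h6
    have h8 : (g * y * g⁻¹) * 1 * (g * y * g⁻¹)⁻¹ = 1 := by group
    rw [h8] at h6
    exact (eq_mul_inv_iff_mul_eq.mp h6).symm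
  have : g = n := by
    have h9 : g = n * (n⁻¹ * (1 : K)⁻¹ * g) := by group
    rw [h9, h5, mul_one]
  rw [this]
  exact hn

/-- if `α(P) ≤ P` then `α` stabilizes `N` -/
theorem BN.alpha_N [Finite K] [Fact p.Prime] (h : BN p P U N) {α : MulAut K}
    (hα : ∀ x, α x ∈ P ↔ x ∈ P) (x : K) : α x ∈ N ↔ x ∈ N := by
  have key : ∀ β : MulAut K, (∀ x, β x ∈ P ↔ x ∈ P) → ∀ n ∈ N, β n ∈ N := by
    intro β hβ n hn
    refine h.normalizer_le (fun y hy => ?_) fun y hy => ?_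
    · have h1 : β⁻¹ y ∈ P := (inv_stab hβ y).mpr hy
      have h2 := (hβ _).mpr (h.norm' hn h1)
      rwa [map_mul, map_mul, map_inv, MulAut.apply_inv_self] at h2
    · have h1 : β⁻¹ y ∈ P := (inv_stab hβ y).mpr hy
      have h2 := (hβ _).mpr (h.norm n hn _ h1)
      rwa [map_mul, map_mul, map_inv, MulAut.apply_inv_self] at h2
  exact map_iff (key α hα) (key α⁻¹ (inv_stab hα)) x

/-- the image of `P` under an automorphism which maps `P` into `P` -/
theorem stab_of_le [Finite K] {P : Subgroup K} {α : MulAut K} (h : ∀ x ∈ P, α x ∈ P) (x : K) :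
    α x ∈ P ↔ x ∈ P := by
  refine ⟨fun hx => ?_, h x⟩
  have h1 : P.map α.toMonoidHom ≤ P := by
    rintro _ ⟨y, hy, rfl⟩
    exact h y hy
  have h2 : P.map α.toMonoidHom = P := by
    apply Subgroup.eq_of_le_of_card_ge h1
    exact (Subgroup.card_map_of_injective α.injective).ge
  rw [← h2] at hx
  obtain ⟨y, hy, e⟩ := hx
  rwa [← α.injective e]

/-- G3: a Sylow `p`-subgroup `Q` of `K` which contains `P` is contained in `N` -/
theorem BN.sylow_le [Finite K] [Fact p.Prime] (h : BN p P U N) (Q : Subgroup K)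
    (hQ : IsPGroup p Q) (hPQ : P ≤ Q) : Q ≤ N := by
  by_contra hne
  have hlt : N.subgroupOf Q < ⊤ := by
    rw [lt_top_iff_ne_top]
    intro e
    exact hne (Subgroup.subgroupOf_eq_top.mp e)
  have hnil : Group.IsNilpotent Q := hQ.isNilpotent
  have hnc := Group.normalizerCondition_of_isNilpotent (G := Q) _ hlt
  obtain ⟨g, hg, hgN⟩ := Set.exists_of_ssubset hnc
  have hgN' : (g : K) ∉ N := fun h => hgN (Subgroup.mem_subgroupOf.mpr h)
  apply hgN'
  have hg1 : ∀ x ∈ Q, x ∈ N → (g : K) * x * (g : K)⁻¹ ∈ N := by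
    intro x hx hxN
    have := (Subgroup.mem_normalizer_iff.mp hg ⟨x, hx⟩).mp (Subgroup.mem_subgroupOf.mpr hxN)
    exact Subgroup.mem_subgroupOf.mp this
  have hg2 : ∀ x ∈ Q, x ∈ N → (g : K)⁻¹ * x * (g : K) ∈ N := by
    intro x hx hxN
    have h3 := (Subgroup.mem_normalizer_iff.mp (inv_mem hg) ⟨x, hx⟩).mp
      (Subgroup.mem_subgroupOf.mpr hxN)
    have h4 := Subgroup.mem_subgroupOf.mp h3
    simpa using h4
  have h5 : ∀ x ∈ P, MulAut.conj (g : K) x ∈ P := by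
    intro x hx
    refine h.map_le (MulAut.conj (g : K)) (fun z hz => ?_) (fun y hy z hz => ?_) hx
    · rw [MulAut.conj_apply]
      exact hg1 z (hPQ hz) (h.le hz)
    · refine ⟨((g : K)⁻¹ * y * g) * z * ((g : K)⁻¹ * y * g)⁻¹,
        h.norm _ (hg2 y (hPQ hy) (h.le hy)) z hz, ?_⟩
      rw [MulAut.conj_apply, MulAut.conj_apply]
      group
  have h6 := stab_of_le h5
  refine h.normalizer_le (fun x hx => ?_) fun x hx => by
    have := h5 x hx
    rwa [MulAut.conj_apply] at this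
  have h7 := (inv_stab h6 x).mpr hx
  rwa [← map_inv, MulAut.conj_apply, inv_inv] at h7

/-- G3: an automorphism which stabilizes a Sylow `p`-subgroup of `K` containing `P` stabilizes
`P` -/
theorem BN.stab_P [Finite K] [Fact p.Prime] (h : BN p P U N) (Q : Subgroup K)
    (hQ : IsPGroup p Q) (hPQ : P ≤ Q) {α : MulAut K} (hα : ∀ x, α x ∈ Q ↔ x ∈ Q) (x : K) :
    α x ∈ P ↔ x ∈ P := by
  have hQN := h.sylow_le Q hQ hPQ
  refine stab_of_le (fun x hx => ?_) x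
  refine h.map_le α (fun z hz => hQN ((hα z).mpr (hPQ hz))) (fun y hy z hz => ?_) hx
  have hy' : α⁻¹ y ∈ N := hQN ((inv_stab hα y).mpr (hPQ hy))
  refine ⟨α⁻¹ y * z * (α⁻¹ y)⁻¹, h.norm _ hy' z hz, ?_⟩
  rw [map_mul, map_mul, map_inv, MulAut.apply_inv_self]

theorem BN.stab_N [Finite K] [Fact p.Prime] (h : BN p P U N) (Q : Subgroup K)
    (hQ : IsPGroup p Q) (hPQ : P ≤ Q) {α : MulAut K} (hα : ∀ x, α x ∈ Q ↔ x ∈ Q) (x : K) :
    α x ∈ N ↔ x ∈ N :=
  h.alpha_N (h.stab_P Q hQ hPQ hα) x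

/-- G3: `N` contains the normalizer of `Q` -/
theorem BN.normalizer_sylow_le [Finite K] [Fact p.Prime] (h : BN p P U N) (Q : Subgroup K)
    (hQ : IsPGroup p Q) (hPQ : P ≤ Q) : Subgroup.normalizer (Q : Set K) ≤ N := by
  intro g hg
  have h1 : ∀ x, MulAut.conj g x ∈ Q ↔ x ∈ Q := by
    intro x
    rw [MulAut.conj_apply]
    exact (Subgroup.mem_normalizer_iff.mp hg x).symm
  have h2 := h.stab_P Q hQ hPQ h1
  refine h.normalizer_le (fun x hx => ?_) fun x hx => ?_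
  · have h7 := (inv_stab h2 x).mpr hx
    rwa [← map_inv, MulAut.conj_apply, inv_inv] at h7
  · have h7 := (h2 x).mpr hx
    rwa [MulAut.conj_apply] at h7

/-- G4: `N ≠ K` -/
theorem BN.ne_top [Finite K] [Fact p.Prime] (h : BN p P U N)
    (hz : ¬ p ∣ Nat.card (Subgroup.center K)) (hp : p ∣ Nat.card K) (S : Type) [Group S]
    (hS : IsSimpleGroup S) (hS' : ¬ ∀ a b : S, a * b = b * a)
    (e : Nonempty ((K ⧸ Subgroup.center K) ≃* S)) : N ≠ ⊤ := by
  intro hT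
  have hN : ∀ x, x ∈ N := fun x => by rw [hT]; exact Subgroup.mem_top x
  have hnor : P.Normal := ⟨fun x hx g => h.norm g (hN g) x hx⟩
  obtain ⟨e⟩ := e
  set π : K →* S := e.toMonoidHom.comp (QuotientGroup.mk' (Subgroup.center K)) with hπ
  have hsur : Function.Surjective π := by
    rw [hπ]
    exact e.surjective.comp (QuotientGroup.mk'_surjective _)
  have hker : ∀ x, π x = 1 → x ∈ Subgroup.center K := by
    intro x hx
    have h1 : e (QuotientGroup.mk' (Subgroup.center K) x) = 1 := hx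
    rw [e.map_eq_one_iff] at h1
    exact (QuotientGroup.eq_one_iff x).1 h1
  have hnor' : (P.map π).Normal := hnor.map π hsur
  have hPZ : P ≤ Subgroup.center K := by
    rcases hS.eq_bot_or_eq_top_of_normal _ hnor' with h1 | h1
    · intro x hx
      apply hker
      have h2 : π x ∈ P.map π := Subgroup.mem_map_of_mem π hx
      rw [h1] at h2
      exact Subgroup.mem_bot.1 h2
    · exfalso
      apply hS'
      intro a b
      have ha : a ∈ P.map π := by rw [h1]; exact Subgroup.mem_top a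
      have hb : b ∈ P.map π := by rw [h1]; exact Subgroup.mem_top b
      obtain ⟨x, hx, rfl⟩ := ha
      obtain ⟨y, hy, rfl⟩ := hb
      rw [← map_mul, ← map_mul, h.comm x hx y hy]
  have hP1 : P = ⊥ := by
    obtain ⟨n, hn⟩ := IsPGroup.iff_card.1 h.pgroup
    rcases Nat.eq_zero_or_pos n with h0 | h0
    · rw [h0, pow_zero] at hn
      exact Subgroup.eq_bot_of_card_eq P hn
    · exfalso
      apply hz
      have h1 : p ∣ Nat.card P := by
        rw [hn]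
        exact dvd_pow_self p h0.ne'
      exact h1.trans (Subgroup.card_dvd_of_le hPZ)
  obtain ⟨x, hx⟩ := exists_prime_orderOf_dvd_card' p hp
  have hxP : x ∈ P := by
    refine h.quad x (hN x) ⟨1, by rw [pow_one, ← hx, pow_orderOf_eq_one]⟩ fun y hy => ?_
    rw [hP1, Subgroup.mem_bot] at hy
    subst hy
    simp
  rw [hP1, Subgroup.mem_bot] at hxP
  subst hxP
  rw [orderOf_one] at hx
  exact (Fact.out (p := p.Prime)).one_lt.ne hx

end Pool.Agent.Helper81.TD
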