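import Pool.Agent.Helper81.TD.EMat

/-!
# Project TD, E6: matched characters, conclusion
-/

set_option autoImplicit false

open scoped Kronecker

namespace Pool.Agent.Helper81.TD

open Matrix

open Pool.Agent.Helper42.INC Pool.Agent.Helper7.MK Pool.Agent.Helper57.PL.Rep

set_option linter.unusedSectionVars false

variable {K : Type} [Group K] [Fintype K] {p : ℕ} [Fact p.Prime] {P U N : Subgroup K}
  [Fintype N] [DecidableEq N] {X Y : N → N → ℂ} {d : ℕ}
  {D : K →* Matrix (Fin d) (Fin d) ℂ}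

/-- the data of a product -/
def Imp.mul (I J : Imp U N D) : Imp U N D where
  n := I.n * resN I.β I.βN J.n
  β := I.β * J.β
  S := I.S * J.S
  S' := J.S' * I.S'
  βU x := by rw [MulAut.mul_apply, I.βU, J.βU]
  βN x := by rw [MulAut.mul_apply, I.βN, J.βN]
  SS' := by
    calc I.S * J.S * (J.S' * I.S') = I.S * (J.S * J.S') * I.S' := by
          simp only [Matrix.mul_assoc]
      _ = 1 := by rw [J.SS', Matrix.mul_one, I.SS']
  S'S := by
    calc J.S' * I.S' * (I.S * J.S) = J.S' * (I.S' * I.S) * J.S := by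
          simp only [Matrix.mul_assoc]
      _ = 1 := by rw [I.S'S, Matrix.mul_one, J.S'S]
  SD k := by
    rw [Matrix.mul_assoc, J.SD, ← Matrix.mul_assoc, I.SD, Matrix.mul_assoc]
    rfl

theorem Imp.mul_aut (I J : Imp U N D) : (I.mul J).aut = I.aut * J.aut := by
  ext x
  rw [MulAut.mul_apply, Imp.aut_apply, Imp.aut_apply, Imp.aut_apply]
  change (I.n : K) * I.β J.n * I.β (J.β x) * ((I.n : K) * I.β J.n)⁻¹ =
    I.n * I.β (J.n * J.β x * (J.n : K)⁻¹) * (I.n : K)⁻¹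
  rw [map_mul, map_mul, map_inv]
  group

theorem Imp.mul_L (I J : Imp U N D) : (I.mul J).L = I.L * J.L := by
  unfold Imp.L
  change D ((I.n * resN I.β I.βN J.n : N) : K) * (I.S * J.S) = _
  rw [Subgroup.coe_mul, map_mul, resN_coe]
  calc D I.n * D (I.β J.n) * (I.S * J.S) = D I.n * (D (I.β J.n) * I.S) * J.S := by
        simp only [Matrix.mul_assoc]
    _ = D I.n * (I.S * D J.n) * J.S := by rw [I.SD]
    _ = _ := by simp only [Matrix.mul_assoc]

theorem Imp.mul_Q (R : Rho U X D) (h : BN p P U N)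
    (hX : Iso ((TT P N).subgroupOf N) (AutUN U N) gc (fun a b r => (hc U N a b r : ℂ)) X Y)
    (I J : Imp U N D) : (I.mul J).Q R = I.Q R * J.Q R := by
  unfold Imp.Q
  change R.ρ (I.n * resN I.β I.βN J.n) * (R.B * (I.S * J.S) * R.A) = _
  rw [map_mul, R.cmp (I.Se hX)]
  calc R.ρ I.n * R.ρ (resN I.β I.βN J.n) * (R.B * I.S * R.A * (R.B * J.S * R.A))
      = R.ρ I.n * (R.ρ (resN I.β I.βN J.n) * (R.B * I.S * R.A)) * (R.B * J.S * R.A) := by
        simp only [Matrix.mul_assoc]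
    _ = R.ρ I.n * (R.B * I.S * R.A * R.ρ J.n) * (R.B * J.S * R.A) := by rw [I.Sm_rho R h hX]
    _ = _ := by simp only [Matrix.mul_assoc]

theorem Imp.mul_Q' (R : Rho U X D) (h : BN p P U N)
    (hX : Iso ((TT P N).subgroupOf N) (AutUN U N) gc (fun a b r => (hc U N a b r : ℂ)) X Y)
    (I J : Imp U N D) : (I.mul J).Q' R = J.Q' R * I.Q' R := by
  calc (I.mul J).Q' R = J.Q' R * (I.Q' R * I.Q R) * J.Q R * (I.mul J).Q' R := by
        rw [I.Q'Q R hX, Matrix.mul_one, J.Q'Q R hX, Matrix.one_mul]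
    _ = J.Q' R * I.Q' R * ((I.mul J).Q R * (I.mul J).Q' R) := by
        rw [Imp.mul_Q R h hX]
        simp only [Matrix.mul_assoc]
    _ = _ := by rw [(I.mul J).QQ' R hX, Matrix.mul_one]

theorem Imp.mul_Z (R : Rho U X D) (h : BN p P U N)
    (hX : Iso ((TT P N).subgroupOf N) (AutUN U N) gc (fun a b r => (hc U N a b r : ℂ)) X Y)
    (I J : Imp U N D) : (I.mul J).Z R = I.Z R * J.Z R := by
  unfold Imp.Z
  rw [Imp.mul_L, Imp.mul_Q' R h hX, Matrix.transpose_mul, Matrix.mul_kronecker_mul]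

/-- the data of an inner automorphism -/
def Imp.inn (t : N) : Imp U N D where
  n := t
  β := 1
  S := 1
  S' := 1
  βU _ := Iff.rfl
  βN _ := Iff.rfl
  SS' := Matrix.mul_one _
  S'S := Matrix.mul_one _
  SD k := by
    rw [Matrix.one_mul, Matrix.mul_one]
    rfl

theorem Imp.inn_aut (t : N) : (Imp.inn t : Imp U N D).aut = MulAut.conj (t : K) := mul_one _

theorem Imp.inn_Z (R : Rho U X D) (t : N) :
    (Imp.inn t : Imp U N D).Z R = D t ⊗ₖ (R.ρ t⁻¹)ᵀ := by
  unfold Imp.Z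
  congr 1
  · change D t * 1 = D t
    rw [Matrix.mul_one]
  · change (R.B * 1 * R.A * R.ρ t⁻¹)ᵀ = _
    rw [Matrix.mul_one, R.BA, Matrix.one_mul]

/-- two data with the same automorphism -/
theorem Imp.uniq_Z (R : Rho U X D) (h : BN p P U N)
    (hX : Iso ((TT P N).subgroupOf N) (AutUN U N) gc (fun a b r => (hc U N a b r : ℂ)) X Y)
    (hD : (fun g => (D g).trace) ∈ Irr K) (I J : Imp U N D) (he : I.aut = J.aut) :
    I.Z R = J.Z R := by
  -- `t = J.n⁻¹ I.n`
  have hβ : ∀ x, J.β x = ((J.n : K)⁻¹ * I.n) * I.β x * ((J.n : K)⁻¹ * I.n)⁻¹ := by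
    intro x
    have h1 := DFunLike.congr_fun he x
    rw [I.aut_apply, J.aut_apply] at h1
    calc J.β x = (J.n : K)⁻¹ * (J.n * J.β x * (J.n : K)⁻¹) * J.n := by group
      _ = (J.n : K)⁻¹ * (I.n * I.β x * (I.n : K)⁻¹) * J.n := by rw [h1]
      _ = _ := by group
  have htT : (J.n : K)⁻¹ * I.n ∈ TT P N := by
    rw [← h.normU _ (N.mul_mem (N.inv_mem J.n.2) I.n.2)]
    intro u hu
    have h1 : I.β⁻¹ u ∈ U := (inv_stab I.βU u).mpr hu
    have h2 := hβ (I.β⁻¹ u)
    rw [MulAut.apply_inv_self] at h2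
    rw [← h2]
    exact (J.βU _).mpr h1
  set t : K := (J.n : K)⁻¹ * I.n with ht
  -- the scalar
  have hcomm : ∀ k, J.S' * (D t * I.S) * D k = D k * (J.S' * (D t * I.S)) := by
    intro k
    have h1 : D t * I.S * D k = D (J.β k) * (D t * I.S) := by
      rw [Matrix.mul_assoc, I.SD, ← Matrix.mul_assoc, ← Matrix.mul_assoc, ← map_mul, ← map_mul,
        hβ k]
      congr 2
      group
    have h2 : J.S' * D (J.β k) = D k * J.S' := by
      calc J.S' * D (J.β k) = J.S' * D (J.β k) * (J.S * J.S') := by rw [J.SS', Matrix.mul_one]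
        _ = J.S' * (D (J.β k) * J.S) * J.S' := by simp only [Matrix.mul_assoc]
        _ = (J.S' * J.S) * D k * J.S' := by
            rw [← J.SD]
            simp only [Matrix.mul_assoc]
        _ = _ := by rw [J.S'S, Matrix.one_mul]
    rw [Matrix.mul_assoc, h1, ← Matrix.mul_assoc, h2, Matrix.mul_assoc]
  obtain ⟨c, hc'⟩ := gl_comm D hD _ hcomm
  have h3 : D t * I.S = c • J.S := by
    calc D t * I.S = (J.S * J.S') * (D t * I.S) := by rw [J.SS', Matrix.one_mul]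
      _ = J.S * (J.S' * (D t * I.S)) := Matrix.mul_assoc _ _ _
      _ = c • J.S := by rw [hc', Matrix.mul_smul, Matrix.mul_one]
  have hc0 : c ≠ 0 := by
    rintro rfl
    rw [zero_smul] at h3
    have h4 : (1 : Matrix (Fin d) (Fin d) ℂ) = 0 := by
      calc (1 : Matrix (Fin d) (Fin d) ℂ) = D t⁻¹ * (D t * I.S) * I.S' := by
            rw [← Matrix.mul_assoc, ← map_mul, inv_mul_cancel, map_one, Matrix.one_mul, I.SS']
        _ = 0 := by rw [h3, Matrix.mul_zero, Matrix.zero_mul]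
    obtain ⟨m, hm0, hm⟩ := irr_one hD
    change (D 1).trace = m at hm
    rw [map_one, h4, Matrix.trace_zero] at hm
    have h5 : m = 0 := by exact_mod_cast hm.symm
    exact hm0.ne' h5
  have hIn : (I.n : K) = J.n * t := by
    rw [ht]
    group
  have hInN : I.n = J.n * ⟨t, htT.1⟩ := Subtype.ext hIn
  have hL : I.L = c • J.L := by
    unfold Imp.L
    rw [hIn, map_mul, Matrix.mul_assoc, h3, Matrix.mul_smul]
  have hQ : I.Q R = c • J.Q R := by
    unfold Imp.Q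
    have h6 : R.ρ ⟨t, htT.1⟩ * (R.B * I.S * R.A) = c • (R.B * J.S * R.A) := by
      rw [R.eq, h.M_t D hX (t := ⟨t, htT.1⟩) (Subgroup.mem_subgroupOf.mpr htT)]
      have h7 : R.B * (D t * ee U D) * R.A = R.B * D t * R.A := by
        rw [Matrix.mul_assoc, Matrix.mul_assoc, R.eA, ← Matrix.mul_assoc]
      change R.B * (D t * ee U D) * R.A * _ = _
      rw [h7, ← R.cmp (h.e_t D htT), h3, Matrix.mul_smul, Matrix.smul_mul]
    rw [hInN, map_mul, Matrix.mul_assoc, h6, Matrix.mul_smul]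
  have hQ' : I.Q' R = c⁻¹ • J.Q' R := by
    calc I.Q' R = (J.Q' R * J.Q R) * I.Q' R := by rw [J.Q'Q R hX, Matrix.one_mul]
      _ = c⁻¹ • (J.Q' R * ((c • J.Q R) * I.Q' R)) := by
          rw [Matrix.smul_mul, Matrix.mul_smul, smul_smul, inv_mul_cancel₀ hc0, one_smul,
            Matrix.mul_assoc]
      _ = c⁻¹ • J.Q' R := by rw [← hQ, I.QQ' R hX, Matrix.mul_one]
  unfold Imp.Z
  rw [hL, hQ', Matrix.transpose_smul, Matrix.smul_kronecker, Matrix.kronecker_smul, smul_smul,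
    mul_inv_cancel₀ hc0, one_smul]

/-- E6: matched characters -/
theorem psi_matched (h : BN p P U N)
    (hX : Iso ((TT P N).subgroupOf N) (AutUN U N) gc (fun a b r => (hc U N a b r : ℂ)) X Y)
    {θ : K → ℂ} (hθ : θ ∈ Irr K) : MatchedAut N θ (psi U X θ) := by
  obtain ⟨d, D, -, rfl⟩ := gl_mat hθ
  obtain ⟨R⟩ := h.exists_rho hX D
  obtain ⟨RR, hRR⟩ := Pool.Agent.Helper57.AN.hom_of_rel
    (A := AutTh N (fun g => (D g).trace)) (M := Matrix (Fin d × Fin R.m) (Fin d × Fin R.m) ℂ)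
    (fun α Z => ∃ I : Imp U N D, I.aut = α.1 ∧ I.Z R = Z)
    ⟨Imp.inn 1, by rw [Imp.inn_aut, Subgroup.coe_one, map_one]; rfl, by
      rw [Imp.inn_Z, Subgroup.coe_one, map_one, inv_one, map_one, Matrix.transpose_one,
        Matrix.one_kronecker_one]⟩
    (by
      rintro a b x y ⟨I, hI, rfl⟩ ⟨J, hJ, rfl⟩
      exact ⟨I.mul J, by rw [Imp.mul_aut, hI, hJ]; rfl, Imp.mul_Z R h hX I J⟩)
    (by
      rintro a x y ⟨I, hI, rfl⟩ ⟨J, hJ, rfl⟩
      exact Imp.uniq_Z R h hX hθ I J (hI.trans hJ.symm))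
    (by
      rintro ⟨α, hαN, hαθ⟩
      obtain ⟨n, hn, β, hβU, hβN, rfl⟩ := h.decomp hαN
      obtain ⟨P0, Q0, hPQ, hQP, hP, -⟩ := gl_conj D (D.comp β.toMonoidHom) (by
        intro g
        change (D g).trace = (D (β g)).trace
        have h1 := hαθ g
        rw [MulAut.mul_apply, MulAut.conj_apply] at h1
        exact h1.symm.trans (Irr.isClass hθ n (β g)))
      exact ⟨_, ⟨⟨n, hn⟩, β, P0, Q0, hβU, hβN, hPQ, hQP, hP⟩, rfl, rfl⟩)
  let D' : K × N →* Matrix (Fin d × Fin R.m) (Fin d × Fin R.m) ℂ :=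
    { toFun := fun x => D x.1 ⊗ₖ (R.ρ x.2⁻¹)ᵀ
      map_one' := by
        change D 1 ⊗ₖ (R.ρ (1 : N)⁻¹)ᵀ = 1
        rw [map_one, inv_one, map_one, Matrix.transpose_one, Matrix.one_kronecker_one]
      map_mul' := fun x y => by
        change D (x.1 * y.1) ⊗ₖ (R.ρ (x.2 * y.2)⁻¹)ᵀ = _
        rw [map_mul, _root_.mul_inv_rev, map_mul, Matrix.transpose_mul, Matrix.mul_kronecker_mul] }
  have hD' : ∀ k t, D' (k, t) = D k ⊗ₖ (R.ρ t⁻¹)ᵀ := fun k t => rfl
  refine matched_of_index D' RR (fun k t => ?_) (fun α k t t' ht => ?_) (fun α t ht => ?_)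
  · rw [hD', Matrix.trace_kronecker, Matrix.trace_transpose, R.trace h]
  · obtain ⟨I, hI, hZ⟩ := hRR α
    rw [← hZ, hD', hD']
    unfold Imp.Z
    rw [← Matrix.mul_kronecker_mul, ← Matrix.mul_kronecker_mul, I.LD, hI,
      ← Matrix.transpose_mul, ← Matrix.transpose_mul,
      I.rho_Q' R h hX t⁻¹ t'⁻¹ (by
        rw [Subgroup.coe_inv, Subgroup.coe_inv, ht, hI, map_inv])]
  · obtain ⟨I, hI, hZ⟩ := hRR α
    rw [← hZ, hD', ← Imp.inn_Z R t]
    exact Imp.uniq_Z R h hX hθ _ _ (by rw [hI, ht, Imp.inn_aut])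

end Pool.Agent.Helper81.TD
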