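import Pool.Agent.Helper81.TD.Alg

/-!
# Project TD, D: separability of the group algebra and of the Hecke algebra
-/

set_option autoImplicit false

namespace Pool.Agent.Helper81.TD

theorem sep_group {N : Type} [Group N] [Fintype N] [DecidableEq N] (A : Set (MulAut N)) :
    Sep A (gc : N → N → N → ℂ) (fun a b => if b = a⁻¹ then (Fintype.card N : ℂ)⁻¹ else 0) where
  comm a x y := by
    unfold gc
    rw [Finset.sum_eq_single y⁻¹, Finset.sum_eq_single x⁻¹]
    · rw [inv_inv, if_pos rfl, if_pos rfl]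
      have e : x = a * y⁻¹ ↔ y = x⁻¹ * a := by
        rw [eq_mul_inv_iff_mul_eq, eq_inv_mul_iff_mul_eq]
      simp only [e]
    · intro b _ hb
      rw [if_neg hb, zero_mul]
    · intro h1
      exact absurd (Finset.mem_univ _) h1
    · intro b _ hb
      rw [if_neg, zero_mul]
      intro h1
      apply hb
      rw [h1, inv_inv]
    · intro h1
      exact absurd (Finset.mem_univ _) h1
  one r := by
    have h1 : ∀ a : N, ∑ b, (if b = a⁻¹ then (Fintype.card N : ℂ)⁻¹ else 0) * gc a b r =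
        (Fintype.card N : ℂ)⁻¹ * if r = 1 then 1 else 0 := by
      intro a
      rw [Finset.sum_eq_single a⁻¹]
      · rw [if_pos rfl]
        unfold gc
        rw [mul_inv_cancel]
      · intro b _ hb
        rw [if_neg hb, zero_mul]
      · intro h1
        exact absurd (Finset.mem_univ _) h1
    rw [Finset.sum_congr rfl fun a _ => h1 a, Finset.sum_const, Finset.card_univ, nsmul_eq_mul,
      ← mul_assoc, mul_inv_cancel₀, one_mul]
    exact Nat.cast_ne_zero.mpr Fintype.card_ne_zero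
  inv α _ a b := by
    have e : α b = (α a)⁻¹ ↔ b = a⁻¹ := by
      rw [← map_inv, α.injective.eq_iff]
    simp only [e]

section

variable {N : Type} [Group N] [Fintype N] [DecidableEq N] {T : Subgroup N} {Sim : Set N}
  {q : N → ℕ} {c : N → N → N → ℝ}

/-- the Hecke algebra -/
abbrev HD.A (h : HD T Sim q c) : Type := HA c (scu_of h.asc h.ttr)

/-- the inner product -/
def HD.ip (h : HD T Sim q c) (x y : h.A) : ℝ := ∑ n, x n * y n * q n

theorem HD.qn (h : HD T Sim q c) (n : N) : (0 : ℝ) < q n := Nat.cast_pos.mpr (h.q_pos n)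

theorem HD.ip_e (h : HD T Sim q c) (a : N) (x y : h.A) :
    h.ip (HA.e a * x) y = h.ip x (HA.e a⁻¹ * y) := by
  unfold HD.ip
  simp only [HA.e_mul_apply, Finset.sum_mul, Finset.mul_sum]
  rw [Finset.sum_comm]
  refine Finset.sum_congr rfl fun b _ => Finset.sum_congr rfl fun r _ => ?_
  have h1 := h.sym a b r
  rw [h.anti r⁻¹ a b⁻¹, inv_inv, inv_inv] at h1
  calc x b * c a b r * y r * q r = x b * y r * (q r * c a b r) := by ring
    _ = x b * y r * (q b * c a⁻¹ r b) := by rw [h1]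
    _ = _ := by ring

theorem HD.ip_sum (h : HD T Sim q c) {ι : Type} (s : Finset ι) (k : ι → ℝ) (x : h.A)
    (y : ι → h.A) : h.ip x (∑ i ∈ s, k i • y i) = ∑ i ∈ s, k i * h.ip x (y i) := by
  unfold HD.ip
  simp only [HA.sum_apply, HA.smul_apply, Finset.sum_mul, Finset.mul_sum]
  rw [Finset.sum_comm]
  exact Finset.sum_congr rfl fun i _ => Finset.sum_congr rfl fun n _ => by ring

theorem HD.ip_self (h : HD T Sim q c) (x : h.A) : 0 ≤ h.ip x x := by
  refine Finset.sum_nonneg fun n _ => ?_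
  exact mul_nonneg (mul_self_nonneg _) (h.qn n).le

theorem HD.ip_pos (h : HD T Sim q c) {x : h.A} (hx : x ≠ 0) : 0 < h.ip x x := by
  obtain ⟨r, hr⟩ : ∃ r, x r ≠ 0 := by
    by_contra h1
    push Not at h1
    exact hx (HA.ext fun r => by rw [h1 r]; rfl)
  refine Finset.sum_pos' (fun n _ => mul_nonneg (mul_self_nonneg _) (h.qn n).le)
    ⟨r, Finset.mem_univ _, mul_pos (mul_self_pos.mpr hr) (h.qn r)⟩

/-- the central element `∑ q(n)⁻¹ e_n e_{n⁻¹}` -/
noncomputable def HD.z (h : HD T Sim q c) : h.A := ∑ n, (q n : ℝ)⁻¹ • (HA.e n * HA.e n⁻¹)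

theorem HD.sym' (h : HD T Sim q c) (a n x : N) :
    (q n : ℝ)⁻¹ * c a n x = (q x : ℝ)⁻¹ * c x⁻¹ a n⁻¹ := by
  have h1 := h.sym a n x
  have h2 := (h.qn n).ne'
  have h3 := (h.qn x).ne'
  field_simp
  linarith

theorem HD.z_comm (h : HD T Sim q c) (a : N) : HA.e a * h.z = h.z * HA.e a := by
  have e1 : HA.e a * h.z = ∑ x, ∑ n, ((q n : ℝ)⁻¹ * c a n x) • (HA.e x * HA.e n⁻¹ : h.A) := by
    unfold HD.z
    rw [Finset.mul_sum, Finset.sum_comm]
    refine Finset.sum_congr rfl fun n _ => ?_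
    rw [mul_smul_comm, ← mul_assoc, HA.e_mul', Finset.sum_mul, Finset.smul_sum]
    refine Finset.sum_congr rfl fun x _ => ?_
    rw [smul_mul_assoc, smul_smul]
  have e2 : h.z * HA.e a = ∑ x, ∑ n, ((q x : ℝ)⁻¹ * c x⁻¹ a n⁻¹) • (HA.e x * HA.e n⁻¹ : h.A) := by
    unfold HD.z
    rw [Finset.sum_mul]
    refine Finset.sum_congr rfl fun x _ => ?_
    rw [smul_mul_assoc, mul_assoc, HA.e_mul', Finset.mul_sum, Finset.smul_sum,
      ← Equiv.sum_comp (Equiv.inv N)]
    refine Finset.sum_congr rfl fun n _ => ?_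
    change (q x : ℝ)⁻¹ • (HA.e x * c x⁻¹ a n⁻¹ • HA.e n⁻¹ : h.A) = _
    rw [mul_smul_comm, smul_smul]
  rw [e1, e2]
  exact Finset.sum_congr rfl fun x _ => Finset.sum_congr rfl fun n _ => by rw [h.sym']

theorem HD.z_inj (h : HD T Sim q c) {x : h.A} (hx : h.z * x = 0) : x = 0 := by
  by_contra hne
  have h1 : h.ip x (h.z * x) = ∑ n, (q n : ℝ)⁻¹ * h.ip (HA.e n⁻¹ * x) (HA.e n⁻¹ * x) := by
    unfold HD.z
    rw [Finset.sum_mul]
    simp only [smul_mul_assoc]
    rw [h.ip_sum]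
    refine Finset.sum_congr rfl fun n _ => ?_
    rw [mul_assoc, h.ip_e n⁻¹, inv_inv]
  have h2 : h.ip x (h.z * x) = 0 := by
    rw [hx]
    unfold HD.ip
    exact Finset.sum_eq_zero fun n _ => by rw [HA.zero_apply]; ring
  rw [h2] at h1
  have h3 : 0 < ∑ n, (q n : ℝ)⁻¹ * h.ip (HA.e n⁻¹ * x) (HA.e n⁻¹ * x) := by
    refine Finset.sum_pos' (fun n _ => mul_nonneg (inv_nonneg.mpr (h.qn n).le) (h.ip_self _))
      ⟨1, Finset.mem_univ _, mul_pos (inv_pos.mpr (h.qn 1)) ?_⟩
    rw [inv_one, HA.e_one, one_mul]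
    exact h.ip_pos hne
  exact h3.ne h1

theorem HD.exists_w (h : HD T Sim q c) : ∃ w : h.A, h.z * w = 1 := by
  have : FiniteDimensional ℝ h.A := inferInstanceAs (FiniteDimensional ℝ (N → ℝ))
  have hinj : Function.Injective (LinearMap.mulLeft ℝ h.z) := by
    rw [injective_iff_map_eq_zero]
    intro x hx
    exact h.z_inj hx
  obtain ⟨w, hw⟩ := (LinearMap.injective_iff_surjective.mp hinj) 1
  exact ⟨w, hw⟩

theorem HD.w_comm (h : HD T Sim q c) {w : h.A} (hw : h.z * w = 1) (x : h.A) : x * w = w * x := by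
  have hz : ∀ x : h.A, x * h.z = h.z * x := fun x => HA.central h.z_comm x
  have h1 : w * h.z = 1 := by rw [hz, hw]
  calc x * w = (w * h.z) * x * w := by rw [h1, one_mul]
    _ = w * (x * (h.z * w)) := by rw [mul_assoc w, ← hz, mul_assoc, mul_assoc]
    _ = w * x := by rw [hw, mul_one]

theorem HD.z_apply (h : HD T Sim q c) (r : N) : h.z r = ∑ n, (q n : ℝ)⁻¹ * c n n⁻¹ r := by
  unfold HD.z
  rw [HA.sum_apply]
  exact Finset.sum_congr rfl fun n _ => by rw [HA.smul_apply, HA.e_mul]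

theorem HD.z_alpha (h : HD T Sim q c) {α : MulAut N} (hα : α ∈ AutHD Sim q c) (r : N) :
    h.z (α r) = h.z r := by
  rw [h.z_apply, h.z_apply, ← Equiv.sum_comp α.toEquiv]
  refine Finset.sum_congr rfl fun n _ => ?_
  change (q (α n) : ℝ)⁻¹ * c (α n) (α n)⁻¹ (α r) = _
  rw [← map_inv, hα.2.1, hα.2.2]

theorem HD.w_alpha (h : HD T Sim q c) {α : MulAut N} (hα : α ∈ AutHD Sim q c) {w : h.A}
    (hw : h.z * w = 1) (s : N) : w (α s) = w s := by
  let w' : h.A := fun s => w (α s)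
  have h1 : h.z * w' = 1 := by
    ext r
    have h2 : (h.z * w) (α r) = (h.z * w') r := by
      rw [HA.mul_apply, HA.mul_apply, ← Equiv.sum_comp α.toEquiv]
      refine Finset.sum_congr rfl fun a _ => ?_
      rw [← Equiv.sum_comp α.toEquiv]
      refine Finset.sum_congr rfl fun b _ => ?_
      change h.z (α a) * w (α b) * c (α a) (α b) (α r) = h.z a * w (α b) * c a b r
      rw [h.z_alpha hα, hα.2.2]
    rw [← h2, hw, HA.one_apply, HA.one_apply]
    have e : α r = 1 ↔ r = 1 :=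
      ⟨fun h3 => α.injective (by rw [h3, map_one]), fun h3 => by rw [h3, map_one]⟩
    simp only [e]
  have h3 : w' - w = 0 := h.z_inj (by rw [mul_sub, h1, hw, sub_self])
  have h4 : w' = w := sub_eq_zero.mp h3
  exact congrFun h4 s

theorem HD.sepR (h : HD T Sim q c) : ∃ S : N → N → ℝ, Sep (AutHD Sim q c) c S := by
  obtain ⟨w, hw⟩ := h.exists_w
  refine ⟨fun a b => (q a : ℝ)⁻¹ * (HA.e a⁻¹ * w : h.A) b, fun a x y => ?_, fun r => ?_,
    fun α hα a b => ?_⟩
  · have h1 : ∑ s, (q x : ℝ)⁻¹ * (HA.e x⁻¹ * w : h.A) s * c s a y =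
        (q x : ℝ)⁻¹ * (HA.e x⁻¹ * w * HA.e a : h.A) y := by
      rw [HA.mul_e_apply, Finset.mul_sum]
      exact Finset.sum_congr rfl fun s _ => by ring
    have h2 : (HA.e x⁻¹ * w * HA.e a : h.A) = ∑ s, c x⁻¹ a s • (HA.e s * w) := by
      rw [mul_assoc, ← h.w_comm hw, ← mul_assoc, HA.e_mul', Finset.sum_mul]
      exact Finset.sum_congr rfl fun s _ => smul_mul_assoc _ _ _
    have h3 : (HA.e x⁻¹ * w * HA.e a : h.A) y = ∑ s, c x⁻¹ a s⁻¹ * (HA.e s⁻¹ * w : h.A) y := by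
      rw [h2, HA.sum_apply, ← Equiv.sum_comp (Equiv.inv N)]
      exact Finset.sum_congr rfl fun s _ => rfl
    rw [h1, h3, Finset.mul_sum]
    refine Finset.sum_congr rfl fun s _ => ?_
    rw [← mul_assoc, ← h.sym']
    ring
  · have h1 : ∀ a, ∑ b, (q a : ℝ)⁻¹ * (HA.e a⁻¹ * w : h.A) b * c a b r =
        ((q a : ℝ)⁻¹ • (HA.e a * HA.e a⁻¹) * w : h.A) r := by
      intro a
      rw [smul_mul_assoc, HA.smul_apply, mul_assoc (HA.e a), HA.e_mul_apply, Finset.mul_sum]
      exact Finset.sum_congr rfl fun s _ => by ring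
    rw [Finset.sum_congr rfl fun a _ => h1 a, ← HA.sum_apply, ← Finset.sum_mul]
    change (h.z * w) r = _
    rw [hw]
    rfl
  · rw [hα.2.1, HA.e_mul_apply, HA.e_mul_apply, ← Equiv.sum_comp α.toEquiv]
    congr 1
    refine Finset.sum_congr rfl fun s _ => ?_
    change w (α s) * c (α a)⁻¹ (α s) (α b) = _
    rw [← map_inv, hα.2.2, h.w_alpha hα hw]

theorem exists_sep (h : HD T Sim q c) :
    ∃ S : N → N → ℂ, Sep (AutHD Sim q c) (fun a b r => (c a b r : ℂ)) S := by
  obtain ⟨S, hS⟩ := h.sepR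
  refine ⟨fun a b => (S a b : ℂ), fun a x y => ?_, fun r => ?_, fun α hα a b => ?_⟩
  · have := hS.comm a x y
    exact_mod_cast congrArg (fun t : ℝ => (t : ℂ)) this
  · have := hS.one r
    have h2 := congrArg (fun t : ℝ => (t : ℂ)) this
    push_cast at h2
    rw [h2]
    split_ifs <;> simp
  · exact congrArg (fun t : ℝ => (t : ℂ)) (hS.inv α hα a b)

end

end Pool.Agent.Helper81.TD
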