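import Pool.Agent.Helper81.TD.Datum
import Pool.Agent.Helper81.TD.Sep
import Pool.Agent.Helper24.TD.Gen

/-!
# Project TD: the isomorphism between the group algebra of `N` and the Hecke algebra
-/

set_option autoImplicit false

open Polynomial

namespace Pool.Agent.Helper81.TD

variable {K : Type} [Group K] [Finite K] {p : ℕ} [Fact p.Prime] {P U N : Subgroup K}
  [Fintype N] [DecidableEq N]

theorem exists_iso_of (h : BN p P U N)
    (hrigid : ∀ (T : Subgroup N) (A : Set (MulAut N)) (Γ : N → N → N → ℂ[X]), Asc Γ → TTr T Γ →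
      Inv A Γ → ∀ S₀ S₁ : N → N → ℂ, Sep A (fun a b r => (Γ a b r).eval 0) S₀ →
      Sep A (fun a b r => (Γ a b r).eval 1) S₁ → ∃ X Y : N → N → ℂ,
        Iso T A (fun a b r => (Γ a b r).eval 0) (fun a b r => (Γ a b r).eval 1) X Y) :
    ∃ X Y : N → N → ℂ,
      Iso ((TT P N).subgroupOf N) (AutUN U N) gc (fun a b r => (hc U N a b r : ℂ)) X Y := by
  have hd := hd_of_bn h
  obtain ⟨Γ, h1, h2, h3, h4, h5⟩ := Pool.Agent.Helper24.TD.exists_gen hd
  obtain ⟨S₁, hS₁⟩ := exists_sep hd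
  have e0 : (fun a b r => (Γ a b r).eval 0) = (gc : N → N → N → ℂ) :=
    funext fun a => funext fun b => funext fun r => h4 a b r
  have e1 : (fun a b r => (Γ a b r).eval 1) = (fun a b r => (hc U N a b r : ℂ)) :=
    funext fun a => funext fun b => funext fun r => h5 a b r
  obtain ⟨X, Y, hX⟩ := hrigid _ _ Γ h1 h2 h3 _ S₁ (by
    rw [e0]
    exact sep_group _) (by
    rw [e1]
    exact hS₁)
  rw [e0, e1] at hX
  exact ⟨X, Y, hX.mul, hX.left, hX.right, hX.tor, hX.one, fun α hα => hX.inv α (aut_hd h hα)⟩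

end Pool.Agent.Helper81.TD
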