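import Pool.Agent.Helper81.TD.EMain
import Pool.Agent.Helper81.TD.EMat2
import Pool.Agent.Helper81.TD.IsoBN
import Pool.Agent.Helper41.TDC.Rigid
import Pool.Agent.Helper24.TD.Psi
import Pool.Agent.Helper68.TS.PsiDeg

/-!
# Project TD: groups with a split BN-pair at `p` are good
-/

set_option autoImplicit false

namespace Pool.Agent.Helper81.TD

open Pool.Agent.Helper42.INC Pool.Agent.Helper7.MK

/-- the bijection -/
theorem main_F {K : Type} [Group K] [Finite K] {p : ℕ} [Fact p.Prime] (P U N : Subgroup K)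
    (h : BN p P U N) :
    ∃ F : IrrP p K ≃ IrrP p N,
      (∀ α : MulAut K, (∀ x, α x ∈ N ↔ x ∈ N) → ∀ θ θ' : IrrP p K,
        (∀ x, θ'.1 x = θ.1 (α x)) → ∀ t t' : N, (t' : K) = α t → (F θ').1 t = (F θ).1 t') ∧
      (∀ θ, (deg (F θ).1 : ZMod p) ^ 2 = (deg θ.1 : ZMod p) ^ 2) ∧
      ∀ θ, MatchedAut N θ.1 (F θ).1 := by
  classical
  have := Fintype.ofFinite K
  have := Fintype.ofFinite N
  obtain ⟨X, Y, hX⟩ := exists_iso_of h (fun T A Γ h1 h2 h3 S₀ S₁ h4 h5 =>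
    Pool.Agent.Helper41.TDC.rigid T A Γ h1 h2 h3 S₀ S₁ h4 h5)
  exact main_F_of h hX (fun θ θ' h1 h2 h3 h4 => Pool.Agent.Helper24.TD.psi_inj h hX h1 h2 h3 h4)
    (fun ψ hψ => Pool.Agent.Helper24.TD.psi_surj h hX hψ) (fun θ hθ => psi_deg h hX hθ)
    (fun θ hθ _ => psi_matched h hX hθ)

/-- groups with a split BN-pair at `p` are good -/
theorem good_of_bn {p : ℕ} [Fact p.Prime] (K : Type) [Group K] [Finite K]
    (hz : ¬ p ∣ Nat.card (Subgroup.center K)) (hp : p ∣ Nat.card K) (S : Type) [Group S]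
    (hS : IsSimpleGroup S) (hS' : ¬ ∀ a b : S, a * b = b * a)
    (e : Nonempty ((K ⧸ Subgroup.center K) ≃* S)) {P U N : Subgroup K} (hB : BN p P U N) :
    Good p K :=
  good_of_main K hz hp S hS hS' e hB fun P U N h => main_F P U N h

end Pool.Agent.Helper81.TD
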