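import Pool.Agent.Helper81.TD.Defs

/-!
# Project TD: the algebra with structure constants `c`
-/

set_option autoImplicit false

namespace Pool.Agent.Helper81.TD

section alg

variable {N : Type} [Group N] [Fintype N] [DecidableEq N] {R : Type} [CommRing R]

omit [Group N] in
theorem sum_ite_r (f : N → R) (r : N) : ∑ j, (if r = j then f j else 0) = f r := by simp

/-- associative structure constants with unit `e_1` -/
structure SCU (c : N → N → N → R) : Prop where
  asc : Asc c
  one : ∀ b r, c 1 b r = (if r = b then 1 else 0) ∧ c b 1 r = (if r = b then 1 else 0)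

omit [Fintype N] in
theorem one_of_ttr {T : Subgroup N} {c : N → N → N → R} (h : TTr T c) (b r : N) :
    c 1 b r = (if r = b then 1 else 0) ∧ c b 1 r = (if r = b then 1 else 0) := by
  have := h 1 T.one_mem b r
  rwa [one_mul, mul_one] at this

theorem scu_of {T : Subgroup N} {c : N → N → N → R} (h : Asc c) (h' : TTr T c) : SCU c :=
  ⟨h, one_of_ttr h'⟩

/-- the algebra with structure constants `c` -/
def HA (c : N → N → N → R) (_ : SCU c) : Type := N → R

variable {c : N → N → N → R} {h : SCU c}

instance : AddCommGroup (HA c h) := inferInstanceAs (AddCommGroup (N → R))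

instance : Module R (HA c h) := inferInstanceAs (Module R (N → R))

instance : Mul (HA c h) := ⟨fun x y r => ∑ a, ∑ b, x a * y b * c a b r⟩

instance : One (HA c h) := ⟨fun r => if r = 1 then 1 else 0⟩

@[ext] theorem HA.ext {x y : HA c h} (h1 : ∀ r, x r = y r) : x = y := funext h1

theorem HA.add_apply (x y : HA c h) (r : N) : (x + y) r = x r + y r := rfl

theorem HA.sub_apply (x y : HA c h) (r : N) : (x - y) r = x r - y r := rfl

theorem HA.smul_apply (k : R) (x : HA c h) (r : N) : (k • x) r = k * x r := rfl

theorem HA.zero_apply (r : N) : (0 : HA c h) r = 0 := rfl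

theorem HA.mul_apply (x y : HA c h) (r : N) : (x * y) r = ∑ a, ∑ b, x a * y b * c a b r := rfl

theorem HA.one_apply (r : N) : (1 : HA c h) r = if r = 1 then 1 else 0 := rfl

theorem HA.sum_apply {ι : Type} (s : Finset ι) (f : ι → HA c h) (r : N) :
    (∑ i ∈ s, f i) r = ∑ i ∈ s, f i r := by
  classical
  induction s using Finset.induction_on with
  | empty => simp [HA.zero_apply]
  | insert a s ha ih => rw [Finset.sum_insert ha, Finset.sum_insert ha, HA.add_apply, ih]

theorem HA.mul_assoc' (x y z : HA c h) : x * y * z = x * (y * z) := by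
  ext r
  simp only [HA.mul_apply]
  have e1 : ∀ s d : N, (∑ a, ∑ b, x a * y b * c a b s) * z d * c s d r =
      ∑ a, ∑ b, x a * y b * z d * (c a b s * c s d r) := by
    intro s d
    rw [Finset.sum_mul, Finset.sum_mul]
    refine Finset.sum_congr rfl fun a _ => ?_
    rw [Finset.sum_mul, Finset.sum_mul]
    exact Finset.sum_congr rfl fun b _ => by ring
  have e2 : ∀ a s : N, x a * (∑ b, ∑ d, y b * z d * c b d s) * c a s r =
      ∑ b, ∑ d, x a * y b * z d * (c b d s * c a s r) := by
    intro a s
    rw [Finset.mul_sum, Finset.sum_mul]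
    refine Finset.sum_congr rfl fun b _ => ?_
    rw [Finset.mul_sum, Finset.sum_mul]
    exact Finset.sum_congr rfl fun d _ => by ring
  simp only [e1, e2]
  have e3 : ∑ s : N, ∑ d : N, ∑ a : N, ∑ b : N, x a * y b * z d * (c a b s * c s d r) =
      ∑ a : N, ∑ b : N, ∑ d : N, x a * y b * z d * ∑ s : N, c a b s * c s d r := by
    rw [Finset.sum_comm]
    simp only [Finset.mul_sum]
    rw [Finset.sum_congr rfl fun d _ => Finset.sum_comm]
    rw [Finset.sum_comm]
    refine Finset.sum_congr rfl fun a _ => ?_
    rw [Finset.sum_congr rfl fun d _ => Finset.sum_comm]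
    rw [Finset.sum_comm]
  have e4 : ∑ a : N, ∑ s : N, ∑ b : N, ∑ d : N, x a * y b * z d * (c b d s * c a s r) =
      ∑ a : N, ∑ b : N, ∑ d : N, x a * y b * z d * ∑ s : N, c b d s * c a s r := by
    refine Finset.sum_congr rfl fun a _ => ?_
    simp only [Finset.mul_sum]
    rw [Finset.sum_comm]
    refine Finset.sum_congr rfl fun b _ => ?_
    rw [Finset.sum_comm]
  rw [e3, e4]
  refine Finset.sum_congr rfl fun a _ => Finset.sum_congr rfl fun b _ =>
    Finset.sum_congr rfl fun d _ => ?_
  rw [h.asc a b d r]

instance : Ring (HA c h) :=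
  { (inferInstance : AddCommGroup (HA c h)) with
    mul := (· * ·)
    one := 1
    mul_assoc := HA.mul_assoc'
    left_distrib := fun x y z => by
      ext r
      simp only [HA.mul_apply, HA.add_apply, ← Finset.sum_add_distrib]
      exact Finset.sum_congr rfl fun a _ => Finset.sum_congr rfl fun b _ => by ring
    right_distrib := fun x y z => by
      ext r
      simp only [HA.mul_apply, HA.add_apply, ← Finset.sum_add_distrib]
      exact Finset.sum_congr rfl fun a _ => Finset.sum_congr rfl fun b _ => by ring
    zero_mul := fun x => by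
      ext r
      simp [HA.mul_apply, HA.zero_apply]
    mul_zero := fun x => by
      ext r
      simp [HA.mul_apply, HA.zero_apply]
    one_mul := fun x => by
      ext r
      rw [HA.mul_apply, Finset.sum_eq_single (1 : N)]
      · simp only [HA.one_apply, if_true, one_mul, (h.one _ _).1, mul_ite, mul_one, mul_zero]
        exact sum_ite_r (fun j => x j) r
      · intro a _ ha
        simp [HA.one_apply, ha]
      · intro h1
        exact absurd (Finset.mem_univ _) h1
    mul_one := fun x => by
      ext r
      rw [HA.mul_apply]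
      have e : ∀ a : N, ∑ b, x a * (1 : HA c h) b * c a b r = x a * (if r = a then 1 else 0) := by
        intro a
        rw [Finset.sum_eq_single (1 : N)]
        · simp only [HA.one_apply, if_true, mul_one, (h.one _ _).2]
        · intro b _ hb
          simp [HA.one_apply, hb]
        · intro h1
          exact absurd (Finset.mem_univ _) h1
      rw [Finset.sum_congr rfl fun a _ => e a]
      simp only [mul_ite, mul_one, mul_zero]
      exact sum_ite_r (fun j => x j) r }

instance : Algebra R (HA c h) := Algebra.ofModule
  (fun k x y => by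
    ext r
    simp only [HA.mul_apply, HA.smul_apply, Finset.mul_sum]
    exact Finset.sum_congr rfl fun a _ => Finset.sum_congr rfl fun b _ => by ring)
  (fun k x y => by
    ext r
    simp only [HA.mul_apply, HA.smul_apply, Finset.mul_sum]
    exact Finset.sum_congr rfl fun a _ => Finset.sum_congr rfl fun b _ => by ring)

/-- the basis -/
def HA.e (a : N) : HA c h := fun r => if r = a then 1 else 0

theorem HA.e_apply (a r : N) : (HA.e a : HA c h) r = if r = a then 1 else 0 := rfl

theorem HA.e_one : (HA.e 1 : HA c h) = 1 := rfl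

theorem HA.e_mul (a b r : N) : (HA.e a * HA.e b : HA c h) r = c a b r := by
  rw [HA.mul_apply, Finset.sum_eq_single a, Finset.sum_eq_single b]
  · simp [HA.e_apply]
  · intro b' _ hb
    simp [HA.e_apply, hb]
  · intro h1
    exact absurd (Finset.mem_univ _) h1
  · intro a' _ ha
    simp [HA.e_apply, ha]
  · intro h1
    exact absurd (Finset.mem_univ _) h1

theorem HA.eq_sum (x : HA c h) : x = ∑ a, x a • (HA.e a : HA c h) := by
  ext r
  rw [HA.sum_apply]
  simp only [HA.smul_apply, HA.e_apply, mul_ite, mul_one, mul_zero]
  exact (sum_ite_r (fun j => x j) r).symm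

theorem HA.e_mul' (a b : N) : (HA.e a : HA c h) * HA.e b = ∑ r, c a b r • (HA.e r : HA c h) := by
  rw [HA.eq_sum ((HA.e a : HA c h) * HA.e b)]
  exact Finset.sum_congr rfl fun r _ => by rw [HA.e_mul]

theorem HA.e_mul_apply (a : N) (x : HA c h) (r : N) :
    (HA.e a * x : HA c h) r = ∑ b, x b * c a b r := by
  rw [HA.mul_apply, Finset.sum_eq_single a]
  · simp [HA.e_apply]
  · intro a' _ ha
    simp [HA.e_apply, ha]
  · intro h1
    exact absurd (Finset.mem_univ _) h1

theorem HA.mul_e_apply (a : N) (x : HA c h) (r : N) :
    (x * HA.e a : HA c h) r = ∑ b, x b * c b a r := by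
  rw [HA.mul_apply]
  refine Finset.sum_congr rfl fun b _ => ?_
  rw [Finset.sum_eq_single a]
  · simp [HA.e_apply]
  · intro a' _ ha
    simp [HA.e_apply, ha]
  · intro h1
    exact absurd (Finset.mem_univ _) h1

/-- linear maps which agree on the basis agree -/
theorem HA.central {z : HA c h} (hz : ∀ a, HA.e a * z = z * HA.e a) (x : HA c h) :
    x * z = z * x := by
  rw [HA.eq_sum x, Finset.sum_mul, Finset.mul_sum]
  refine Finset.sum_congr rfl fun a _ => ?_
  rw [smul_mul_assoc, mul_smul_comm, hz]

end alg

end Pool.Agent.Helper81.TD
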