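import Pool.Agent.Helper81.TD.Count

/-!
# Project TD, A4: associativity of the structure constants, and `ext_mul`
-/

set_option autoImplicit false

namespace Pool.Agent.Helper81.TD

section

set_option linter.unusedSectionVars false

variable {K : Type} [Group K] [Fintype K]

/-- convolution -/
def conv {R : Type} [CommRing R] (f g : K → R) (z : K) : R := ∑ x, f x * g (x⁻¹ * z)

theorem conv_assoc {R : Type} [CommRing R] (f g k : K → R) (z : K) :
    conv (conv f g) k z = conv f (conv g k) z := by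
  unfold conv
  simp only [Finset.sum_mul, Finset.mul_sum]
  rw [Finset.sum_comm]
  refine Finset.sum_congr rfl fun x _ => ?_
  rw [← Equiv.sum_comp (Equiv.mulLeft x)]
  refine Finset.sum_congr rfl fun y _ => ?_
  change f x * g (x⁻¹ * (x * y)) * k ((x * y)⁻¹ * z) = _
  rw [inv_mul_cancel_left, mul_inv_rev, mul_assoc, mul_assoc]

variable {p : ℕ} [Fact p.Prime] {P U N : Subgroup K}

/-- the function `T_n` with values in a field -/
noncomputable def tR (R : Type) [Field R] (U : Subgroup K) (n g : K) : R := by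
  classical
  exact if DC U n g then (Nat.card U : R)⁻¹ else 0

theorem tR_pos {R : Type} [Field R] {n g : K} (h : DC U n g) : tR R U n g = (Nat.card U : R)⁻¹ := by
  unfold tR
  rw [if_pos h]

theorem tR_neg {R : Type} [Field R] {n g : K} (h : ¬ DC U n g) : tR R U n g = 0 := by
  unfold tR
  rw [if_neg h]

theorem conv_tR_aux {R : Type} [Field R] (a b g : K) :
    conv (tR R U a) (tR R U b) g = (nn U a b g : R) * ((Nat.card U : R)⁻¹ * (Nat.card U : R)⁻¹) := by
  classical
  unfold conv
  have h1 : ∀ x : K, tR R U a x * tR R U b (x⁻¹ * g) =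
      if DC U a x ∧ DC U b (x⁻¹ * g) then (Nat.card U : R)⁻¹ * (Nat.card U : R)⁻¹ else 0 := by
    intro x
    by_cases h2 : DC U a x
    · by_cases h3 : DC U b (x⁻¹ * g)
      · rw [if_pos ⟨h2, h3⟩, tR_pos h2, tR_pos h3]
      · rw [if_neg (fun h => h3 h.2), tR_neg h3, mul_zero]
    · rw [if_neg (fun h => h2 h.1), tR_neg h2, zero_mul]
  rw [Finset.sum_congr rfl fun x _ => h1 x, ← Finset.sum_filter, Finset.sum_const, nsmul_eq_mul]
  congr 2
  rw [nn, Nat.card_eq_fintype_card, Fintype.card_subtype]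

theorem BN.sum_tR [Fintype N] {R : Type} [Field R] (h : BN p P U N) (f : N → R) (g : K) (r0 : N)
    (h0 : DC U (r0 : K) g) : ∑ r : N, f r * tR R U r g = f r0 * (Nat.card U : R)⁻¹ := by
  rw [Finset.sum_eq_single r0]
  · rw [tR_pos h0]
  · intro r _ hr
    rw [tR_neg, mul_zero]
    intro h1
    exact hr (Subtype.ext (h.uniq r.2 r0.2 (dc_trans h1 (dc_symm h0))))
  · intro h1
    exact absurd (Finset.mem_univ _) h1

theorem BN.conv_tR [Fintype N] {R : Type} [Field R] (h : BN p P U N) (a b : N) (g : K) :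
    conv (tR R U a) (tR R U b) g =
      ∑ r : N, ((nn U (a : K) b r : R) / (Nat.card U : R)) * tR R U r g := by
  obtain ⟨r0, h0, -⟩ := h.exists_rep g
  rw [h.sum_tR (fun r => (nn U (a : K) b r : R) / (Nat.card U : R)) g r0 h0, conv_tR_aux,
    nn_congr h0, div_eq_mul_inv, mul_assoc]

theorem BN.asc [Fintype N] (h : BN p P U N) : Asc (hc U N) := by
  intro a b d r
  have hU : (Nat.card U : ℝ)⁻¹ ≠ 0 := inv_ne_zero cardU_ne
  have e1 : conv (conv (tR ℝ U (a : K)) (tR ℝ U (b : K))) (tR ℝ U (d : K)) r =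
      (∑ s : N, hc U N a b s * hc U N s d r) * (Nat.card U : ℝ)⁻¹ := by
    have h1 : conv (tR ℝ U (a : K)) (tR ℝ U (b : K)) =
        fun g => ∑ s : N, hc U N a b s * tR ℝ U (s : K) g := funext fun g => h.conv_tR a b g
    rw [h1]
    unfold conv
    simp only [Finset.sum_mul]
    rw [Finset.sum_comm]
    refine Finset.sum_congr rfl fun s _ => ?_
    have h2 : conv (tR ℝ U (s : K)) (tR ℝ U (d : K)) r = hc U N s d r * (Nat.card U : ℝ)⁻¹ := by
      rw [h.conv_tR s d r]
      exact h.sum_tR (fun r => hc U N s d r) (r : K) r (dc_refl _)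
    rw [mul_assoc, ← h2]
    unfold conv
    rw [Finset.mul_sum]
    exact Finset.sum_congr rfl fun x _ => mul_assoc _ _ _
  have e2 : conv (tR ℝ U (a : K)) (conv (tR ℝ U (b : K)) (tR ℝ U (d : K))) r =
      (∑ s : N, hc U N b d s * hc U N a s r) * (Nat.card U : ℝ)⁻¹ := by
    have h1 : conv (tR ℝ U (b : K)) (tR ℝ U (d : K)) =
        fun g => ∑ s : N, hc U N b d s * tR ℝ U (s : K) g := funext fun g => h.conv_tR b d g
    rw [h1]
    unfold conv
    simp only [Finset.mul_sum, Finset.sum_mul]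
    rw [Finset.sum_comm]
    refine Finset.sum_congr rfl fun s _ => ?_
    have h2 : conv (tR ℝ U (a : K)) (tR ℝ U (s : K)) r = hc U N a s r * (Nat.card U : ℝ)⁻¹ := by
      rw [h.conv_tR a s r]
      exact h.sum_tR (fun r => hc U N a s r) (r : K) r (dc_refl _)
    rw [mul_assoc, ← h2]
    unfold conv
    rw [Finset.mul_sum]
    exact Finset.sum_congr rfl fun x _ => mul_left_comm _ _ _
  have h3 := conv_assoc (tR ℝ U (a : K)) (tR ℝ U (b : K)) (tR ℝ U (d : K)) (r : K)
  rw [e1, e2] at h3
  exact mul_right_cancel₀ hU h3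

end

section

variable {K : Type} [Group K] [Finite K] {p : ℕ} [Fact p.Prime] {P U N : Subgroup K}

theorem BN.ttr [Fintype N] [DecidableEq N] (h : BN p P U N) :
    TTr ((TT P N).subgroupOf N) (hc U N) :=
  fun _ ht b r => ⟨h.ttr_left ht b r, h.ttr_right ht b r⟩

theorem ext_mul [Fintype N] (h : BN p P U N) {d : ℕ} (D : K →* Matrix (Fin d) (Fin d) ℂ)
    (a b : N) :
    ext D (tf U a) * ext D (tf U b) = ∑ r : N, (hc U N a b r : ℂ) • ext D (tf U r) := by
  have := Fintype.ofFinite K
  unfold ext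
  simp only [finsum_eq_sum_of_fintype]
  rw [Finset.sum_mul]
  have e1 : ∀ x : K, (tf U (a : K) x • D x) * ∑ g, tf U (b : K) g • D g =
      ∑ z, (tf U (a : K) x * tf U (b : K) (x⁻¹ * z)) • D z := by
    intro x
    rw [Finset.mul_sum, ← Equiv.sum_comp (Equiv.mulLeft x) (fun z =>
      (tf U (a : K) x * tf U (b : K) (x⁻¹ * z)) • D z)]
    refine Finset.sum_congr rfl fun y _ => ?_
    change _ = (tf U (a : K) x * tf U (b : K) (x⁻¹ * (x * y))) • D (x * y)
    rw [inv_mul_cancel_left, map_mul, smul_mul_smul_comm]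
  rw [Finset.sum_congr rfl fun x _ => e1 x, Finset.sum_comm]
  simp only [Finset.smul_sum, ← Finset.sum_smul, smul_smul]
  rw [Finset.sum_comm]
  refine Finset.sum_congr rfl fun z _ => ?_
  rw [← Finset.sum_smul]
  congr 1
  have h1 := h.conv_tR (R := ℂ) a b z
  unfold conv at h1
  refine Eq.trans h1 (Finset.sum_congr rfl fun r _ => ?_)
  rw [hc_eq]
  push_cast
  rfl

end

end Pool.Agent.Helper81.TD
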