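import Pool.Agent.Helper81.TD.Basic

/-!
# Project TD, A3, A4: the structure constants of the Hecke algebra, by counting
-/

set_option autoImplicit false

namespace Pool.Agent.Helper81.TD

section dc

variable {K : Type} [Group K] {U : Subgroup K}

theorem dc_refl (n : K) : DC U n n := ⟨1, U.one_mem, 1, U.one_mem, by simp⟩

theorem dc_symm {n x : K} (h : DC U n x) : DC U x n := by
  obtain ⟨u, hu, u', hu', rfl⟩ := h
  exact ⟨u⁻¹, U.inv_mem hu, u'⁻¹, U.inv_mem hu', by group⟩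

theorem dc_trans {n x y : K} (h : DC U n x) (h' : DC U x y) : DC U n y := by
  obtain ⟨u, hu, u', hu', rfl⟩ := h
  obtain ⟨v, hv, v', hv', rfl⟩ := h'
  exact ⟨v * u, U.mul_mem hv hu, u' * v', U.mul_mem hu' hv', by group⟩

theorem dc_inv {n x : K} : DC U n⁻¹ x⁻¹ ↔ DC U n x := by
  constructor
  · rintro ⟨u, hu, u', hu', e⟩
    exact ⟨u'⁻¹, U.inv_mem hu', u⁻¹, U.inv_mem hu, by
      rw [← inv_inv x, e]
      group⟩
  · rintro ⟨u, hu, u', hu', e⟩
    exact ⟨u'⁻¹, U.inv_mem hu', u⁻¹, U.inv_mem hu, by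
      rw [e]
      group⟩

theorem dc_left {n x u : K} (hu : u ∈ U) : DC U n (u * x) ↔ DC U n x := by
  constructor
  · intro h
    exact dc_trans h ⟨u⁻¹, U.inv_mem hu, 1, U.one_mem, by group⟩
  · intro h
    exact dc_trans h ⟨u, hu, 1, U.one_mem, by group⟩

theorem dc_right {n x u : K} (hu : u ∈ U) : DC U n (x * u) ↔ DC U n x := by
  constructor
  · intro h
    exact dc_trans h ⟨1, U.one_mem, u⁻¹, U.inv_mem hu, by group⟩
  · intro h
    exact dc_trans h ⟨1, U.one_mem, u, hu, by group⟩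

/-- the number of elements `x` of `UaU` such that `x⁻¹ g` is in `UbU` -/
noncomputable def nn (U : Subgroup K) (a b g : K) : ℕ :=
  Nat.card {x : K // DC U a x ∧ DC U b (x⁻¹ * g)}

theorem nn_congr {a b g g' : K} (h : DC U g g') : nn U a b g' = nn U a b g := by
  obtain ⟨u, hu, u', hu', rfl⟩ := h
  refine Nat.card_congr ⟨fun x => ⟨u⁻¹ * x.1, (dc_left (U.inv_mem hu)).mpr x.2.1, ?_⟩,
    fun x => ⟨u * x.1, (dc_left hu).mpr x.2.1, ?_⟩, fun x => ?_, fun x => ?_⟩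
  · have h1 := x.2.2
    have e : x.1⁻¹ * (u * g * u') = (u⁻¹ * x.1)⁻¹ * g * u' := by group
    rw [e, dc_right hu'] at h1
    exact h1
  · have h1 := x.2.2
    have e : (u * x.1)⁻¹ * (u * g * u') = x.1⁻¹ * g * u' := by group
    rw [e, dc_right hu']
    exact h1
  · exact Subtype.ext (mul_inv_cancel_left _ _)
  · exact Subtype.ext (inv_mul_cancel_left _ _)

theorem nn_anti (a b r : K) : nn U a b r = nn U b⁻¹ a⁻¹ r⁻¹ := by
  refine Nat.card_congr ⟨fun x => ⟨r⁻¹ * x.1, ?_, ?_⟩, fun y => ⟨r * y.1, ?_, ?_⟩,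
    fun x => ?_, fun x => ?_⟩
  · have h1 := x.2.2
    rw [← dc_inv] at h1
    convert h1 using 1
    group
  · have h1 := x.2.1
    rw [← dc_inv] at h1
    convert h1 using 1
    group
  · have h1 := y.2.2
    rw [← dc_inv, inv_inv] at h1
    convert h1 using 1
    group
  · have h1 := y.2.1
    rw [← dc_inv, inv_inv] at h1
    convert h1 using 1
    group
  · exact Subtype.ext (mul_inv_cancel_left _ _)
  · exact Subtype.ext (inv_mul_cancel_left _ _)

/-- the number of elements of `UnU` -/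
noncomputable def dn (U : Subgroup K) (n : K) : ℕ := Nat.card {x : K // DC U n x}

theorem dn_inv (n : K) : dn U n⁻¹ = dn U n := by
  refine Nat.card_congr ⟨fun x => ⟨x.1⁻¹, ?_⟩, fun x => ⟨x.1⁻¹, dc_inv.mpr x.2⟩, fun x => ?_,
    fun x => ?_⟩
  · rw [← dc_inv, inv_inv]
    exact x.2
  · exact Subtype.ext (inv_inv _)
  · exact Subtype.ext (inv_inv _)

theorem dn_one_left (m : K) : nn U m m⁻¹ 1 = dn U m := by
  refine Nat.card_congr ⟨fun x => ⟨x.1, x.2.1⟩, fun x => ⟨x.1, x.2, ?_⟩, fun x => rfl,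
    fun x => rfl⟩
  rw [mul_one, dc_inv]
  exact x.2

theorem dn_eq [Finite K] (n : K) : ∃ k : ℕ, dn U n = Nat.card U * k := by
  let t : Set (K ⧸ U) := QuotientGroup.mk '' {x | DC U n x}
  refine ⟨Nat.card t, ?_⟩
  rw [← Nat.card_prod, ← Nat.card_congr (QuotientGroup.preimageMkEquivSubgroupProdSet U t)]
  refine Nat.card_congr (Equiv.subtypeEquivRight fun x => ⟨fun h => ⟨x, h, rfl⟩, ?_⟩)
  rintro ⟨y, hy, e⟩
  have h1 : y⁻¹ * x ∈ U := QuotientGroup.eq.mp e
  have h2 := (dc_right h1).mpr hy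
  rwa [mul_inv_cancel_left] at h2

theorem dn_hq [Finite K] {N : Subgroup K} (n : N) : dn U n = Nat.card U * hq U N n := by
  obtain ⟨k, hk⟩ := dn_eq (U := U) (n : K)
  have hU : 0 < Nat.card U := Nat.card_pos
  have : hq U N n = k := by
    change dn U n / Nat.card U = k
    rw [hk, Nat.mul_div_cancel_left _ hU]
  rw [this, hk]

theorem dn_pos [Finite K] (n : K) : 0 < dn U n := by
  have : Nonempty {x : K // DC U n x} := ⟨⟨n, dc_refl n⟩⟩
  exact Nat.card_pos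

theorem hq_pos [Finite K] {N : Subgroup K} (n : N) : 0 < hq U N n := by
  have h1 := dn_pos (U := U) (n : K)
  rw [dn_hq] at h1
  exact pos_of_mul_pos_right h1 (Nat.zero_le _)

/-- the number of pairs `(x, z)` with `x ∈ UaU`, `z ∈ UrU`, `x⁻¹ z ∈ UbU` -/
theorem card_pairs [Finite K] (a b r : K) :
    Nat.card {w : K × K // DC U a w.1 ∧ DC U r w.2 ∧ DC U b (w.1⁻¹ * w.2)} =
      dn U r * nn U a b r := by
  have e : {w : K × K // DC U a w.1 ∧ DC U r w.2 ∧ DC U b (w.1⁻¹ * w.2)} ≃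
      Σ z : {z : K // DC U r z}, {x : K // DC U a x ∧ DC U b (x⁻¹ * z.1)} :=
    ⟨fun w => ⟨⟨w.1.2, w.2.2.1⟩, ⟨w.1.1, w.2.1, w.2.2.2⟩⟩,
      fun w => ⟨(w.2.1, w.1.1), w.2.2.1, w.1.2, w.2.2.2⟩, fun w => rfl, fun w => rfl⟩
  have := Fintype.ofFinite {z : K // DC U r z}
  rw [Nat.card_congr e, Nat.card_sigma]
  have h1 : ∀ z : {z : K // DC U r z},
      Nat.card {x : K // DC U a x ∧ DC U b (x⁻¹ * z.1)} = nn U a b r := fun z => nn_congr z.2
  rw [Finset.sum_congr rfl fun z _ => h1 z, Finset.sum_const, Finset.card_univ, smul_eq_mul,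
    ← Nat.card_eq_fintype_card]
  rfl

theorem nn_sym [Finite K] (a b r : K) : dn U r * nn U a b r = dn U b * nn U r⁻¹ a b⁻¹ := by
  rw [← card_pairs, ← dn_inv b, ← card_pairs]
  refine Nat.card_congr ⟨fun w => ⟨(w.1.2⁻¹, w.1.2⁻¹ * w.1.1), ?_, ?_, ?_⟩,
    fun w => ⟨(w.1.1⁻¹ * w.1.2, w.1.1⁻¹), ?_, ?_, ?_⟩, fun w => ?_, fun w => ?_⟩
  · exact dc_inv.mpr w.2.2.1
  · have h1 := dc_inv.mpr w.2.2.2
    convert h1 using 1
    simp
  · have h1 := w.2.1
    convert h1 using 1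
    simp
  · exact w.2.2.2
  · have h1 := dc_inv.mpr w.2.1
    rwa [inv_inv] at h1
  · have h1 := dc_inv.mpr w.2.2.1
    rw [inv_inv] at h1
    convert h1 using 1
    simp
  · apply Subtype.ext
    simp
  · apply Subtype.ext
    simp

end dc

section bn

set_option linter.unusedSectionVars false

variable {K : Type} [Group K] [Finite K] {p : ℕ} [Fact p.Prime] {P U N : Subgroup K}

theorem BN.dc_iff (h : BN p P U N) {n n' : K} (hn : n ∈ N) (hn' : n' ∈ N) :
    DC U n n' ↔ n = n' :=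
  ⟨h.uniq hn hn', fun e => by rw [e]; exact dc_refl _⟩

theorem BN.exists_rep (h : BN p P U N) (g : K) : ∃ r : N, DC U r g ∧ ∀ r' : N, DC U r' g → r' = r := by
  obtain ⟨n, hn, h1⟩ := h.cover g
  exact ⟨⟨n, hn⟩, h1, fun r' hr' => Subtype.ext (h.uniq r'.2 hn (dc_trans hr' (dc_symm h1)))⟩

theorem BN.dc_tt (h : BN p P U N) {t n x : K} (ht : t ∈ TT P N) :
    DC U (t * n) (t * x) ↔ DC U n x := by
  constructor
  · rintro ⟨u, hu, u', hu', e⟩
    refine ⟨t⁻¹ * u * t, h.normT' ht hu, u', hu', ?_⟩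
    calc x = t⁻¹ * (t * x) := by group
      _ = t⁻¹ * (u * (t * n) * u') := by rw [e]
      _ = _ := by group
  · rintro ⟨u, hu, u', hu', rfl⟩
    exact ⟨t * u * t⁻¹, h.normT ht hu, u', hu', by group⟩

theorem BN.dc_tt' (h : BN p P U N) {t n x : K} (ht : t ∈ TT P N) :
    DC U (n * t) (x * t) ↔ DC U n x := by
  rw [← dc_inv, mul_inv_rev, mul_inv_rev, h.dc_tt (inv_mem ht), dc_inv]

theorem BN.dn_tt (h : BN p P U N) {t : K} (ht : t ∈ TT P N) (n : K) : dn U (t * n) = dn U n := by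
  refine Nat.card_congr ⟨fun x => ⟨t⁻¹ * x.1, ?_⟩, fun x => ⟨t * x.1, (h.dc_tt ht).mpr x.2⟩,
    fun x => Subtype.ext (mul_inv_cancel_left _ _), fun x => Subtype.ext (inv_mul_cancel_left _ _)⟩
  rw [← h.dc_tt ht, mul_inv_cancel_left]
  exact x.2

theorem BN.dn_tt' (h : BN p P U N) {t : K} (ht : t ∈ TT P N) (n : K) : dn U (n * t) = dn U n := by
  rw [← dn_inv, mul_inv_rev, h.dn_tt (inv_mem ht), dn_inv]

/-- `UtU = tU` -/
theorem BN.dc_t (h : BN p P U N) {t x : K} (ht : t ∈ TT P N) : DC U t x ↔ t⁻¹ * x ∈ U := by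
  constructor
  · rintro ⟨u, hu, u', hu', rfl⟩
    have := U.mul_mem (h.normT' ht hu) hu'
    convert this using 1
    group
  · intro h1
    exact ⟨1, U.one_mem, t⁻¹ * x, h1, by group⟩

theorem BN.nn_t (h : BN p P U N) {t : K} (ht : t ∈ TT P N) {b r : K} (hb : b ∈ N) (hr : r ∈ N) :
    (r = t * b → nn U t b r = Nat.card U) ∧ (r ≠ t * b → nn U t b r = 0) := by
  refine ⟨fun e => ?_, fun e => ?_⟩
  · subst e
    refine Nat.card_congr ⟨fun x => ⟨t⁻¹ * x.1, (h.dc_t ht).mp x.2.1⟩,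
      fun u => ⟨t * u.1, (h.dc_t ht).mpr ?_, ?_⟩,
      fun x => Subtype.ext (mul_inv_cancel_left _ _),
      fun x => Subtype.ext (inv_mul_cancel_left _ _)⟩
    · rw [inv_mul_cancel_left]
      exact u.2
    · have e1 : (t * u.1)⁻¹ * (t * b) = u.1⁻¹ * b := by group
      rw [e1, dc_left (U.inv_mem u.2)]
      exact dc_refl b
  · refine Nat.card_eq_zero.mpr (Or.inl ⟨fun x => e ?_⟩)
    have h1 := (h.dc_t ht).mp x.2.1
    have h2 := x.2.2
    have e1 : x.1⁻¹ * r = (t⁻¹ * x.1)⁻¹ * (t⁻¹ * r) := by group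
    rw [e1, dc_left (U.inv_mem h1)] at h2
    have h3 := h.uniq hb (N.mul_mem (N.inv_mem ht.1) hr) h2
    rw [h3]
    group

theorem hc_eq (a b r : N) : hc U N a b r = (nn U (a : K) b r : ℝ) / Nat.card U := rfl

theorem cardU_ne : (Nat.card U : ℝ) ≠ 0 := Nat.cast_ne_zero.mpr Nat.card_pos.ne'

theorem BN.ttr_left [DecidableEq N] (h : BN p P U N) {t : N} (ht : t ∈ (TT P N).subgroupOf N)
    (b r : N) : hc U N t b r = if r = t * b then 1 else 0 := by
  have : ((r : K) = t * b) ↔ r = t * b := by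
    rw [← Subgroup.coe_mul, Subtype.ext_iff]
  obtain ⟨h1, h2⟩ := h.nn_t (Subgroup.mem_subgroupOf.mp ht) b.2 r.2
  split_ifs with e
  · rw [hc_eq, h1 (this.mpr e)]
    exact div_self cardU_ne
  · rw [hc_eq, h2 (fun e' => e (this.mp e'))]
    simp

theorem hc_anti (a b r : N) : hc U N a b r = hc U N b⁻¹ a⁻¹ r⁻¹ := by
  rw [hc_eq, hc_eq, nn_anti]
  simp only [Subgroup.coe_inv]

theorem BN.ttr_right [DecidableEq N] (h : BN p P U N) {t : N} (ht : t ∈ (TT P N).subgroupOf N)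
    (b r : N) : hc U N b t r = if r = b * t then 1 else 0 := by
  rw [hc_anti, h.ttr_left (inv_mem ht)]
  have : r⁻¹ = t⁻¹ * b⁻¹ ↔ r = b * t := by
    rw [← mul_inv_rev, inv_inj]
  rw [if_congr this rfl rfl]

theorem hc_sym (a b r : N) : (hq U N r : ℝ) * hc U N a b r = hq U N b * hc U N r⁻¹ a b⁻¹ := by
  have h1 := nn_sym (U := U) (a : K) b r
  rw [dn_hq, dn_hq, mul_assoc, mul_assoc] at h1
  have h2 := Nat.eq_of_mul_eq_mul_left Nat.card_pos h1
  rw [hc_eq, hc_eq, ← mul_div_assoc, ← mul_div_assoc]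
  congr 1
  rw [Subgroup.coe_inv, Subgroup.coe_inv]
  exact_mod_cast h2

theorem hc_sq_one (m : N) : hc U N m m⁻¹ 1 = hq U N m := by
  rw [hc_eq, Subgroup.coe_inv, Subgroup.coe_one, dn_one_left, dn_hq, Nat.cast_mul,
    mul_div_cancel_left₀ _ cardU_ne]

theorem hq_inv (n : N) : hq U N n⁻¹ = hq U N n := by
  have h1 := dn_inv (U := U) (n : K)
  rw [← Subgroup.coe_inv, dn_hq, dn_hq] at h1
  exact Nat.eq_of_mul_eq_mul_left Nat.card_pos h1

theorem BN.hq_mul (h : BN p P U N) {t : N} (ht : t ∈ (TT P N).subgroupOf N) (n : N) :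
    hq U N (t * n) = hq U N n ∧ hq U N (n * t) = hq U N n := by
  constructor
  · have h1 := h.dn_tt (Subgroup.mem_subgroupOf.mp ht) (n : K)
    rw [← Subgroup.coe_mul, dn_hq, dn_hq] at h1
    exact Nat.eq_of_mul_eq_mul_left Nat.card_pos h1
  · have h1 := h.dn_tt' (Subgroup.mem_subgroupOf.mp ht) (n : K)
    rw [← Subgroup.coe_mul, dn_hq, dn_hq] at h1
    exact Nat.eq_of_mul_eq_mul_left Nat.card_pos h1

theorem BN.mem_of_hq (h : BN p P U N) {n : N} (hn : hq U N n = 1) :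
    n ∈ (TT P N).subgroupOf N := by
  rw [Subgroup.mem_subgroupOf, ← inv_mem_iff, ← h.normU _ (N.inv_mem n.2)]
  have h1 : dn U n = Nat.card U := by rw [dn_hq, hn, mul_one]
  let f : U → {x : K // DC U (n : K) x} := fun u => ⟨n * u, (dc_right u.2).mpr (dc_refl _)⟩
  have hf : Function.Injective f := by
    intro a b e
    exact Subtype.ext (mul_left_cancel (congrArg Subtype.val e))
  have hf2 : Function.Surjective f := by
    have := Fintype.ofFinite U
    have := Fintype.ofFinite {x : K // DC U (n : K) x}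
    refine ((Fintype.bijective_iff_injective_and_card f).mpr ⟨hf, ?_⟩).2
    rw [← Nat.card_eq_fintype_card, ← Nat.card_eq_fintype_card]
    exact h1.symm
  intro u hu
  obtain ⟨v, hv⟩ := hf2 ⟨u * n, (dc_left hu).mpr (dc_refl _)⟩
  have e := congrArg Subtype.val hv
  change (n : K) * v = u * n at e
  have e2 : (n : K)⁻¹ * u * (n : K)⁻¹⁻¹ = v := by
    rw [inv_inv, mul_assoc, ← e]
    group
  rw [e2]
  exact v.2

/-- the augmentation -/
theorem BN.aug [Fintype N] (h : BN p P U N) (a b : N) :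
    ∑ r : N, hc U N a b r * hq U N r = hq U N a * hq U N b := by
  have e : {w : K × K // DC U (a : K) w.1 ∧ DC U (b : K) w.2} ≃
      Σ r : N, {w : K × K // DC U (a : K) w.1 ∧ DC U (r : K) w.2 ∧ DC U (b : K) (w.1⁻¹ * w.2)} := by
    refine Equiv.symm (Equiv.ofBijective (fun w => ⟨(w.2.1.1, w.2.1.1⁻¹ * w.2.1.2), w.2.2.1,
      w.2.2.2.2⟩) ⟨?_, ?_⟩)
    · rintro ⟨r, ⟨x, z⟩, h1, h2, h3⟩ ⟨r', ⟨x', z'⟩, h1', h2', h3'⟩ e
      have e1 := congrArg Subtype.val e
      simp only [Prod.mk.injEq] at e1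
      obtain ⟨rfl, e2⟩ := e1
      have e3 := mul_left_cancel e2
      subst e3
      obtain rfl : r = r' := Subtype.ext (h.uniq r.2 r'.2 (dc_trans h2 (dc_symm h2')))
      rfl
    · rintro ⟨⟨x, y⟩, h1, h2⟩
      obtain ⟨r, hr, -⟩ := h.exists_rep (x * y)
      exact ⟨⟨r, (x, x * y), h1, hr, by simpa using h2⟩, by simp⟩
  have h0 := Nat.card_congr e
  rw [Nat.card_sigma] at h0
  have h1 : _ = ∑ r : N, dn U (r : K) * nn U (a : K) b r :=
    h0.trans (Finset.sum_congr rfl fun r _ => card_pairs (U := U) (a : K) (b : K) (r : K))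
  have e2 : Nat.card {w : K × K // DC U (a : K) w.1 ∧ DC U (b : K) w.2} = dn U a * dn U b := by
    rw [dn, dn, ← Nat.card_prod]
    exact Nat.card_congr ⟨fun w => (⟨w.1.1, w.2.1⟩, ⟨w.1.2, w.2.2⟩),
      fun w => ⟨(w.1.1, w.2.1), w.1.2, w.2.2⟩, fun w => rfl, fun w => rfl⟩
  rw [e2, dn_hq, dn_hq] at h1
  have h2 : ((Nat.card U * hq U N a * (Nat.card U * hq U N b) : ℕ) : ℝ) =
      ((∑ r : N, dn U (r : K) * nn U (a : K) b r : ℕ) : ℝ) := by rw [h1]
  push_cast at h2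
  have hU : (Nat.card U : ℝ) ≠ 0 := cardU_ne
  have h3 : ∀ r : N, hc U N a b r * hq U N r =
      ((dn U (r : K) : ℝ) * nn U (a : K) b r) / (Nat.card U * Nat.card U) := by
    intro r
    rw [hc_eq, dn_hq]
    push_cast
    field_simp
  rw [Finset.sum_congr rfl fun r _ => h3 r, ← Finset.sum_div, ← h2]
  field_simp

end bn

end Pool.Agent.Helper81.TD
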