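import Pool.Agent.Helper81.TD.Count

/-!
# Project TD, A5: lengths
-/

set_option autoImplicit false

namespace Pool.Agent.Helper81.TD

set_option linter.unusedSectionVars false

variable {K : Type} [Group K] [Finite K] {p : ℕ} [Fact p.Prime] {P U N : Subgroup K}

/-- `x` is in `B n B`, `B = U T` -/
def BB (P U N : Subgroup K) (n x : K) : Prop := ∃ t ∈ TT P N, DC U (n * t) x

theorem bb_refl (n : K) : BB P U N n n := ⟨1, one_mem _, by rw [mul_one]; exact dc_refl n⟩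

theorem bb_ul {n x u : K} (hu : u ∈ U) : BB P U N n (u * x) ↔ BB P U N n x := by
  unfold BB
  simp only [dc_left hu]

theorem bb_ur {n x u : K} (hu : u ∈ U) : BB P U N n (x * u) ↔ BB P U N n x := by
  unfold BB
  simp only [dc_right hu]

theorem BN.bb_tr_aux (h : BN p P U N) {n x t : K} (ht : t ∈ TT P N) (hb : BB P U N n x) :
    BB P U N n (x * t) := by
  obtain ⟨s, hs, h1⟩ := hb
  refine ⟨s * t, mul_mem hs ht, ?_⟩
  rw [← mul_assoc]
  exact (h.dc_tt' ht).mpr h1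

theorem BN.bb_tr (h : BN p P U N) {n x t : K} (ht : t ∈ TT P N) :
    BB P U N n (x * t) ↔ BB P U N n x := by
  refine ⟨fun hb => ?_, h.bb_tr_aux ht⟩
  have := h.bb_tr_aux (inv_mem ht) hb
  rwa [mul_inv_cancel_right] at this

theorem BN.bb_tl_aux (h : BN p P U N) {n x t : K} (hn : n ∈ N) (ht : t ∈ TT P N)
    (hb : BB P U N n x) : BB P U N n (t * x) := by
  obtain ⟨s, hs, h1⟩ := hb
  refine ⟨n⁻¹ * t * n * s, mul_mem (h.tt_normal' hn ht) hs, ?_⟩
  have h2 := (h.dc_tt ht).mpr h1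
  convert h2 using 1
  group

theorem BN.bb_tl (h : BN p P U N) {n x t : K} (hn : n ∈ N) (ht : t ∈ TT P N) :
    BB P U N n (t * x) ↔ BB P U N n x := by
  refine ⟨fun hb => ?_, h.bb_tl_aux hn ht⟩
  have := h.bb_tl_aux hn (inv_mem ht) hb
  rwa [inv_mul_cancel_left] at this

theorem BN.bb_congr (_ : BN p P U N) {n t x : K} (ht : t ∈ TT P N) :
    BB P U N (n * t) x ↔ BB P U N n x := by
  constructor
  · rintro ⟨s, hs, h1⟩
    exact ⟨t * s, mul_mem ht hs, by rwa [← mul_assoc]⟩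
  · rintro ⟨s, hs, h1⟩
    exact ⟨t⁻¹ * s, mul_mem (inv_mem ht) hs, by
      convert h1 using 1
      group⟩

theorem BN.bb_uniq (h : BN p P U N) {n n' x : K} (hn : n ∈ N) (hn' : n' ∈ N)
    (h1 : BB P U N n x) (h2 : BB P U N n' x) : n⁻¹ * n' ∈ TT P N := by
  obtain ⟨t, ht, h1⟩ := h1
  obtain ⟨t', ht', h2⟩ := h2
  have h3 := h.uniq (N.mul_mem hn ht.1) (N.mul_mem hn' ht'.1) (dc_trans h1 (dc_symm h2))
  have h4 : n⁻¹ * n' = t * t'⁻¹ := by
    have : n' = n * t * t'⁻¹ := by rw [h3]; group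
    rw [this]
    group
  rw [h4]
  exact mul_mem ht (inv_mem ht')

theorem BN.bb_inv (h : BN p P U N) {n x : K} (hn : n ∈ N) (hb : BB P U N n x) :
    BB P U N n⁻¹ x⁻¹ := by
  obtain ⟨t, ht, h1⟩ := hb
  refine ⟨n * t⁻¹ * n⁻¹, h.tt_normal hn (inv_mem ht), ?_⟩
  have h2 := dc_inv.mpr h1
  convert h2 using 1
  group

/-! ### simple elements -/

theorem BN.bn (_ : BN p P U N) {m n u : K} (hm : IsSim P U N m) (hn : n ∈ N) (hu : u ∈ U) :
    BB P U N (m * n) (m * u * n) ∨ BB P U N n (m * u * n) := by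
  obtain ⟨t, ht, h1 | h1⟩ := hm.2.2.2 n hn u hu
  · exact Or.inl ⟨t, ht, h1⟩
  · exact Or.inr ⟨t, ht, h1⟩

theorem BN.sim_mul_right (h : BN p P U N) {m t : K} (hm : IsSim P U N m) (ht : t ∈ TT P N) :
    IsSim P U N (m * t) := by
  refine ⟨N.mul_mem hm.1 ht.1, fun h1 => hm.2.1 ?_, ?_, fun n hn u hu => ?_⟩
  · have := mul_mem h1 (inv_mem ht)
    rwa [mul_inv_cancel_right] at this
  · have := mul_mem (mul_mem hm.2.2.1 (h.tt_normal' hm.1 ht)) ht
    convert this using 1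
    group
  · have e : m * t * u * n = m * (t * u * t⁻¹) * (t * n) := by group
    rcases h.bn hm (N.mul_mem ht.1 hn) (h.normT ht hu) with ⟨s, hs, h1⟩ | ⟨s, hs, h1⟩
    · refine ⟨s, hs, Or.inl ?_⟩
      rw [e]
      convert h1 using 1
      group
    · refine ⟨n⁻¹ * t * n * s, mul_mem (h.tt_normal' hn ht) hs, Or.inr ?_⟩
      rw [e]
      convert h1 using 1
      group

theorem BN.sim_mul_left (h : BN p P U N) {m t : K} (hm : IsSim P U N m) (ht : t ∈ TT P N) :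
    IsSim P U N (t * m) := by
  have := h.sim_mul_right hm (h.tt_normal' hm.1 ht)
  convert this using 1
  group

theorem BN.sim_inv (h : BN p P U N) {m : K} (hm : IsSim P U N m) : IsSim P U N m⁻¹ := by
  have := h.sim_mul_right hm (inv_mem hm.2.2.1)
  convert this using 1
  group

/-- `B n B m ⊆ B n m B ∪ B n B` -/
theorem BN.bnr (h : BN p P U N) {m n x : K} (hm : IsSim P U N m) (hn : n ∈ N)
    (hx : BB P U N n x) : BB P U N (n * m) (x * m) ∨ BB P U N n (x * m) := by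
  obtain ⟨t, ht, u, hu, u', hu', rfl⟩ := hx
  have hm' := h.sim_inv hm
  have h1 := h.bn hm' (N.mul_mem (N.inv_mem ht.1) (N.inv_mem hn)) (U.inv_mem hu')
  have e : u * (n * t) * u' * m = u * (m⁻¹ * u'⁻¹ * (t⁻¹ * n⁻¹))⁻¹ := by group
  rcases h1 with h1 | h1
  · left
    have h2 := h.bb_inv (N.mul_mem hm'.1 (N.mul_mem (N.inv_mem ht.1) (N.inv_mem hn))) h1
    rw [e, bb_ul hu]
    have e2 : (m⁻¹ * (t⁻¹ * n⁻¹))⁻¹ = n * m * (m⁻¹ * t * m) := by group
    rw [e2, h.bb_congr (h.tt_normal' hm.1 ht)] at h2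
    exact h2
  · right
    have h2 := h.bb_inv (N.mul_mem (N.inv_mem ht.1) (N.inv_mem hn)) h1
    rw [e, bb_ul hu]
    have e2 : (t⁻¹ * n⁻¹)⁻¹ = n * t := by group
    rw [e2, h.bb_congr ht] at h2
    exact h2

/-! ### lengths -/

/-- `n` is a product of `k` simple elements and of an element of `T` -/
def Ln (P U N : Subgroup K) : ℕ → K → Prop
  | 0, n => n ∈ TT P N
  | k + 1, n => ∃ m, IsSim P U N m ∧ Ln P U N k (m * n)

theorem BN.ln_tl (h : BN p P U N) {t : K} (ht : t ∈ TT P N) :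
    ∀ (k : ℕ) {n : K}, Ln P U N k n → Ln P U N k (t * n)
  | 0, _, h1 => mul_mem ht h1
  | _ + 1, _, ⟨m, hm, h1⟩ => ⟨m * t⁻¹, h.sim_mul_right hm (inv_mem ht), by
      rw [mul_assoc, inv_mul_cancel_left]
      exact h1⟩

theorem ln_tr {t : K} (ht : t ∈ TT P N) :
    ∀ (k : ℕ) {n : K}, Ln P U N k n → Ln P U N k (n * t)
  | 0, _, h1 => mul_mem h1 ht
  | k + 1, _, ⟨m, hm, h1⟩ => ⟨m, hm, by
      rw [← mul_assoc]
      exact ln_tr ht k h1⟩

theorem BN.ln_ml (h : BN p P U N) {m : K} (hm : IsSim P U N m) {k : ℕ} {n : K}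
    (h1 : Ln P U N k n) : Ln P U N (k + 1) (m * n) :=
  ⟨m⁻¹, h.sim_inv hm, by rwa [inv_mul_cancel_left]⟩

theorem BN.ln_mr (h : BN p P U N) {m : K} (hm : IsSim P U N m) :
    ∀ (k : ℕ) {n : K}, Ln P U N k n → Ln P U N (k + 1) (n * m)
  | 0, n, h1 => by
      refine ⟨(n * m)⁻¹, h.sim_inv (h.sim_mul_left hm h1), ?_⟩
      rw [inv_mul_cancel]
      exact one_mem _
  | k + 1, _, ⟨m', hm', h1⟩ => ⟨m', hm', by
      rw [← mul_assoc]
      exact h.ln_mr hm k h1⟩

theorem BN.ln_inv (h : BN p P U N) : ∀ (k : ℕ) {n : K}, Ln P U N k n → Ln P U N k n⁻¹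
  | 0, _, h1 => inv_mem h1
  | k + 1, n, ⟨m, hm, h1⟩ => by
      have h2 := h.ln_mr hm k (h.ln_inv k h1)
      rwa [mul_inv_rev, inv_mul_cancel_right] at h2

theorem BN.exists_ln (h : BN p P U N) {n : K} (hn : n ∈ N) : ∃ k, Ln P U N k n := by
  refine Subgroup.closure_induction_left (p := fun x _ => ∃ k, Ln P U N k x)
    ⟨0, one_mem _⟩ ?_ ?_ (h.gen n hn)
  · rintro x (hx | hx) y hy ⟨k, hk⟩
    · exact ⟨k + 1, h.ln_ml hx hk⟩
    · exact ⟨k, h.ln_tl hx k hk⟩
  · rintro x (hx | hx) y hy ⟨k, hk⟩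
    · exact ⟨k + 1, h.ln_ml (h.sim_inv hx) hk⟩
    · exact ⟨k, h.ln_tl (inv_mem hx) k hk⟩

/-- the length -/
noncomputable def LL (P U N : Subgroup K) (n : K) : ℕ := sInf {k | Ln P U N k n}

theorem BN.ln_LL (h : BN p P U N) {n : K} (hn : n ∈ N) : Ln P U N (LL P U N n) n :=
  Nat.sInf_mem (h.exists_ln hn)

theorem LL_le {n : K} {k : ℕ} (h : Ln P U N k n) : LL P U N n ≤ k := Nat.sInf_le h

theorem BN.LL_tr (h : BN p P U N) {n t : K} (hn : n ∈ N) (ht : t ∈ TT P N) :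
    LL P U N (n * t) ≤ LL P U N n := LL_le (ln_tr ht _ (h.ln_LL hn))

theorem BN.LL_ml (h : BN p P U N) {m n : K} (hm : IsSim P U N m) (hn : n ∈ N) :
    LL P U N (m * n) ≤ LL P U N n + 1 := LL_le (h.ln_ml hm (h.ln_LL hn))

theorem BN.LL_mr (h : BN p P U N) {m n : K} (hm : IsSim P U N m) (hn : n ∈ N) :
    LL P U N (n * m) ≤ LL P U N n + 1 := LL_le (h.ln_mr hm _ (h.ln_LL hn))

/-- if the length of `n` is not zero then it can be reduced from the left -/
theorem BN.LL_left (h : BN p P U N) {n : K} (hn : n ∈ N) (hn' : n ∉ TT P N) :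
    ∃ m, IsSim P U N m ∧ LL P U N (m * n) < LL P U N n := by
  have h1 := h.ln_LL hn
  obtain ⟨k, hk⟩ | hk : (∃ k, LL P U N n = k + 1) ∨ LL P U N n = 0 := by
    cases LL P U N n with
    | zero => exact Or.inr rfl
    | succ k => exact Or.inl ⟨k, rfl⟩
  · rw [hk] at h1 ⊢
    obtain ⟨m, hm, h2⟩ := h1
    exact ⟨m, hm, Nat.lt_succ_of_le (LL_le h2)⟩
  · rw [hk] at h1
    exact absurd h1 hn'

/-- if the length of `n` is not zero then it can be reduced from the right -/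
theorem BN.LL_right (h : BN p P U N) {n : K} (hn : n ∈ N) (hn' : n ∉ TT P N) :
    ∃ m, IsSim P U N m ∧ LL P U N (n * m) < LL P U N n := by
  have h1 := h.ln_inv _ (h.ln_LL hn)
  obtain ⟨k, hk⟩ | hk : (∃ k, LL P U N n = k + 1) ∨ LL P U N n = 0 := by
    cases LL P U N n with
    | zero => exact Or.inr rfl
    | succ k => exact Or.inl ⟨k, rfl⟩
  · rw [hk] at h1 ⊢
    obtain ⟨m, hm, h2⟩ := h1
    refine ⟨m⁻¹, h.sim_inv hm, Nat.lt_succ_of_le (LL_le ?_)⟩
    have h3 := h.ln_inv _ h2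
    rwa [mul_inv_rev, inv_inv] at h3
  · rw [hk] at h1
    have h2 := (TT P N).inv_mem h1
    rw [inv_inv] at h2
    exact absurd h2 hn'

/-- U1: if the length of `m n` is not smaller than the length of `n` then `m B n` and `B n B` are
disjoint -/
theorem BN.U1 (h : BN p P U N) : ∀ (k : ℕ) {m n u : K}, LL P U N n ≤ k → IsSim P U N m → n ∈ N →
    u ∈ U → LL P U N n ≤ LL P U N (m * n) → ¬ BB P U N n (m * u * n) := by
  have base : ∀ {m n u : K}, n ∈ TT P N → IsSim P U N m → u ∈ U →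
      ¬ BB P U N n (m * u * n) := by
    intro m n u hn hm hu hb
    rw [h.bb_tr hn, bb_ur hu] at hb
    have h1 := h.bb_uniq hn.1 hm.1 hb (bb_refl m)
    have h2 := mul_mem hn h1
    rw [mul_inv_cancel_left] at h2
    exact hm.2.1 h2
  intro k
  induction k with
  | zero =>
    intro m n u hk hm hn hu _
    refine base ?_ hm hu
    have h1 := h.ln_LL hn
    rw [Nat.le_zero.mp hk] at h1
    exact h1
  | succ k ih =>
    intro m n u hk hm hn hu hl hb
    by_cases hnT : n ∈ TT P N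
    · exact base hnT hm hu hb
    obtain ⟨m', hm', h1⟩ := h.LL_right hn hnT
    -- `n' = n m'`
    have hn' : n * m' ∈ N := N.mul_mem hn hm'.1
    have h2 : LL P U N (m * (n * m')) + 1 ≥ LL P U N (m * n) := by
      have h3 := h.LL_mr (h.sim_inv hm') (N.mul_mem hm.1 hn')
      have e : m * (n * m') * m'⁻¹ = m * n := by group
      rw [e] at h3
      exact h3
    have h3 := ih (m := m) (n := n * m') (u := u) (by omega) hm hn' hu (by omega)
    have h4 := h.bnr hm' hn hb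
    have e : m * u * n * m' = m * u * (n * m') := by group
    rw [e] at h4
    have h5 : BB P U N n (m * u * (n * m')) := h4.resolve_left h3
    have h6 := (h.bn hm hn' hu).resolve_right h3
    have h7 := h.bb_uniq hn (N.mul_mem hm.1 hn') h5 h6
    -- `m n m' = n t`
    set t := n⁻¹ * (m * (n * m')) with ht
    have h8 : m * n = n * m' * (m'⁻¹ * t * m' * (m' * m')⁻¹) := by
      rw [ht]
      group
    have h9 := h.LL_tr hn' (mul_mem (h.tt_normal' hm'.1 h7) (inv_mem hm'.2.2.1))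
    rw [← h8] at h9
    omega

end Pool.Agent.Helper81.TD
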