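import Pool.Agent.Helper81.TD.Conv
import Pool.Agent.Helper81.TD.Length
import Pool.Agent.Helper81.TD.GA

/-!
# Project TD, A6-A8: the Hecke datum of a group with a split BN-pair
-/

set_option autoImplicit false

namespace Pool.Agent.Helper81.TD

set_option linter.unusedSectionVars false

variable {K : Type} [Group K] [Finite K] {p : ℕ} [Fact p.Prime] {P U N : Subgroup K}

/-- A6: the elements `x` of `U m U` with `x⁻¹ r ∈ U n U`, if the length of `m n` is not smaller
than the length of `n` -/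
theorem BN.up_aux (h : BN p P U N) {m n r : K} (hm : IsSim P U N m) (hn : n ∈ N) (hr : r ∈ N)
    (hl : LL P U N n ≤ LL P U N (m * n)) (x : K) :
    (DC U m x ∧ DC U n (x⁻¹ * r)) ↔ (m⁻¹ * x ∈ U ∧ r = m * n) := by
  constructor
  · rintro ⟨h1, h2⟩
    -- `r = m n t`
    obtain ⟨u, hu, u', hu', rfl⟩ := h1
    obtain ⟨v, hv, v', hv', e⟩ := h2
    have e1 : r = u * (m * (u' * v) * n) * v' := by
      have : r = u * m * u' * ((u * m * u')⁻¹ * r) := by group
      rw [this, e]
      group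
    have h3 := (h.bn hm hn (U.mul_mem hu' hv)).resolve_right
      (h.U1 _ le_rfl hm hn (U.mul_mem hu' hv) hl)
    have h4 : BB P U N (m * n) r := by
      rw [e1, bb_ur hv', bb_ul hu]
      exact h3
    have h5 := h.bb_uniq (N.mul_mem hm.1 hn) hr h4 (bb_refl r)
    obtain ⟨t, ht, h6⟩ : ∃ t ∈ TT P N, r = m * n * t := ⟨_, h5, by group⟩
    -- `y = x⁻¹ m ∈ U`
    have h7 : BB P U N 1 (m⁻¹ * u⁻¹ * m) ∨ BB P U N m (m⁻¹ * u⁻¹ * m) := by
      have := h.bn (h.sim_inv hm) hm.1 (U.inv_mem hu)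
      rwa [inv_mul_cancel] at this
    have h8 : m⁻¹ * u⁻¹ * m ∈ U := by
      rcases h7 with h7 | h7
      · obtain ⟨s, hs, w, hw, w', hw', e2⟩ := h7
        have h9 := h.a1 (u := u⁻¹) (u1 := w * (s * w' * s⁻¹)) (n := m⁻¹) (t := s) (U.inv_mem hu)
          (U.mul_mem hw (h.normT hs hw')) (N.inv_mem hm.1) hs (by
            rw [inv_inv, e2]
            group)
        rw [e2, h9]
        simpa using U.mul_mem hw hw'
      · exfalso
        obtain ⟨s, hs, w, hw, w', hw', e2⟩ := h7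
        have h9 : BB P U N n ((u'⁻¹ * (m⁻¹ * u⁻¹ * m)) * n) := by
          rw [← h.bb_tr ht]
          have e3 : u'⁻¹ * (m⁻¹ * u⁻¹ * m) * n * t = (u * m * u')⁻¹ * r := by
            rw [h6]
            group
          rw [e3, e, bb_ur hv', bb_ul hv]
          exact bb_refl n
        rw [e2] at h9
        have e4 : u'⁻¹ * (w * (m * s) * w') * n = (u'⁻¹ * w) * (m * (s * w' * s⁻¹) * (s * n)) := by
          group
        rw [e4, bb_ul (U.mul_mem (U.inv_mem hu') hw)] at h9
        have e5 : m * (s * w' * s⁻¹) * (s * n) = m * (s * w' * s⁻¹) * n * (n⁻¹ * s * n) := by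
          group
        rw [e5, h.bb_tr (h.tt_normal' hn hs)] at h9
        exact h.U1 _ le_rfl hm hn (h.normT hs hw') hl h9
    have h10 : m⁻¹ * (u * m * u') ∈ U := by
      have := U.mul_mem (U.inv_mem h8) hu'
      convert this using 1
      group
    refine ⟨h10, ?_⟩
    -- `t = 1`
    have h11 : DC U n (n * t) := by
      have h12 : DC U n ((u * m * u')⁻¹ * r) := ⟨v, hv, v', hv', e⟩
      have e6 : (u * m * u')⁻¹ * r = (m⁻¹ * (u * m * u'))⁻¹ * (n * t) := by
        rw [h6]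
        group
      rw [e6, dc_left (U.inv_mem h10)] at h12
      exact h12
    have h13 := h.uniq_aux hn ht h11
    rw [h6, h13, mul_one]
  · rintro ⟨h1, rfl⟩
    refine ⟨⟨1, U.one_mem, m⁻¹ * x, h1, by group⟩, ?_⟩
    have e : x⁻¹ * (m * n) = (m⁻¹ * x)⁻¹ * n := by group
    rw [e, dc_left (U.inv_mem h1)]
    exact dc_refl n

theorem BN.hc_up [DecidableEq N] (h : BN p P U N) {m : N} (hm : IsSim P U N (m : K)) (n r : N)
    (hl : LL P U N (n : K) ≤ LL P U N ((m : K) * n)) :
    hc U N m n r = if r = m * n then 1 else 0 := by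
  have h1 := h.up_aux hm n.2 r.2 hl
  split_ifs with e
  · have h2 : nn U (m : K) n r = Nat.card U := by
      refine Nat.card_congr ⟨fun x => ⟨(m : K)⁻¹ * x.1, ((h1 x.1).mp x.2).1⟩,
        fun u => ⟨(m : K) * u.1, (h1 _).mpr ⟨?_, ?_⟩⟩, fun x => Subtype.ext (mul_inv_cancel_left _ _),
        fun u => Subtype.ext (inv_mul_cancel_left _ _)⟩
      · rw [inv_mul_cancel_left]
        exact u.2
      · rw [e, Subgroup.coe_mul]
    rw [hc_eq, h2]
    exact div_self cardU_ne
  · have h2 : nn U (m : K) n r = 0 := by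
      refine Nat.card_eq_zero.mpr (Or.inl ⟨fun x => e ?_⟩)
      exact Subtype.ext ((h1 x.1).mp x.2).2
    rw [hc_eq, h2]
    simp

theorem BN.hq_up [Fintype N] (h : BN p P U N) {m : N} (hm : IsSim P U N (m : K)) (n : N)
    (hl : LL P U N (n : K) ≤ LL P U N ((m : K) * n)) :
    hq U N (m * n) = hq U N m * hq U N n := by
  classical
  have h1 := h.aug m n
  have h2 : ∑ r : N, hc U N m n r * hq U N r = hq U N (m * n) := by
    rw [Finset.sum_eq_single (m * n)]
    · rw [h.hc_up hm n _ hl, if_pos rfl, one_mul]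
    · intro r _ hr
      rw [h.hc_up hm n _ hl, if_neg hr, zero_mul]
    · intro h3
      exact absurd (Finset.mem_univ _) h3
  rw [h2] at h1
  exact_mod_cast h1

theorem BN.hq_sim (h : BN p P U N) {m : N} (hm : IsSim P U N (m : K)) : 1 < hq U N m := by
  have h1 := hq_pos (U := U) (N := N) m
  rcases Nat.lt_or_eq_of_le h1 with h2 | h2
  · exact h2
  · exfalso
    exact hm.2.1 (Subgroup.mem_subgroupOf.mp (h.mem_of_hq h2.symm))

theorem BN.hq_down [Fintype N] (h : BN p P U N) {m : N} (hm : IsSim P U N (m : K)) (n : N)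
    (hl : LL P U N ((m : K) * n) < LL P U N (n : K)) :
    hq U N n = hq U N m * hq U N (m * n) := by
  have h1 := h.hq_up (m := m⁻¹) (by
    rw [Subgroup.coe_inv]
    exact h.sim_inv hm) (m * n) (by
    rw [Subgroup.coe_mul, Subgroup.coe_inv, inv_mul_cancel_left]
    exact hl.le)
  rwa [inv_mul_cancel_left, hq_inv] at h1

/-- the datum of a group with a split BN-pair -/
theorem hd_of_bn [Fintype N] [DecidableEq N] (h : BN p P U N) :
    HD ((TT P N).subgroupOf N) {m : N | IsSim P U N m} (hq U N) (hc U N) where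
  normal := h.normal
  sim_ne m hm hT := hm.2.1 (Subgroup.mem_subgroupOf.mp hT)
  sim_sq m hm := Subgroup.mem_subgroupOf.mpr hm.2.2.1
  sim_mul m hm t ht := ⟨h.sim_mul_left hm (Subgroup.mem_subgroupOf.mp ht),
    h.sim_mul_right hm (Subgroup.mem_subgroupOf.mp ht)⟩
  q_pos n := hq_pos n
  q_mul t ht n := h.hq_mul ht n
  q_inv n := hq_inv n
  q_sim m hm := h.hq_sim hm
  dich m hm n := by
    rcases le_or_gt (LL P U N (n : K)) (LL P U N ((m : K) * n)) with hl | hl
    · exact Or.inl (h.hq_up hm n hl)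
    · exact Or.inr (h.hq_down hm n hl)
  gen n hn := by
    obtain ⟨m, hm, hl⟩ := h.LL_left n.2 (fun h1 => hn (Subgroup.mem_subgroupOf.mpr h1))
    exact ⟨⟨m, hm.1⟩, hm, h.hq_down hm n hl⟩
  asc := by
    have := Fintype.ofFinite K
    exact h.asc
  ttr := h.ttr
  up m hm n r hq' := by
    rcases le_or_gt (LL P U N (n : K)) (LL P U N ((m : K) * n)) with hl | hl
    · exact h.hc_up hm n r hl
    · exfalso
      have h1 := h.hq_down hm n hl
      have h2 := h.hq_sim hm
      have h3 := hq_pos (U := U) (N := N) n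
      rw [hq'] at h1
      have h4 : hq U N n < hq U N m * (hq U N m * hq U N n) := by
        calc hq U N n = 1 * (1 * hq U N n) := by ring
          _ < hq U N m * (hq U N m * hq U N n) := by
            apply Nat.mul_lt_mul_of_lt_of_le h2 _ (by positivity)
            exact Nat.mul_le_mul_right _ h2.le
      exact absurd h1 h4.ne
  sq_one m _ := hc_sq_one m
  sq_supp m hm r hr hc' := by
    have h1 : nn U (m : K) (m⁻¹ : N) r ≠ 0 := by
      intro h2
      apply hc'
      rw [hc_eq, h2]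
      simp
    obtain ⟨⟨x, hx1, hx2⟩⟩ : Nonempty {x : K // DC U (m : K) x ∧
        DC U ((m⁻¹ : N) : K) (x⁻¹ * r)} := by
      by_contra hne
      exact h1 (Nat.card_eq_zero.mpr (Or.inl (not_nonempty_iff.mp hne)))
    obtain ⟨u, hu, u', hu', rfl⟩ := hx1
    obtain ⟨v, hv, v', hv', e⟩ := hx2
    rw [Subgroup.coe_inv] at e
    have e1 : (r : K) = u * ((m : K) * (u' * v) * (m : K)⁻¹) * v' := by
      have : (r : K) = u * m * u' * ((u * m * u')⁻¹ * r) := by group
      rw [this, e]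
      group
    rcases h.bn hm (N.inv_mem hm.1) (U.mul_mem hu' hv) with h2 | h2
    · exfalso
      rw [mul_inv_cancel] at h2
      obtain ⟨s, hs, w, hw, w', hw', e2⟩ := h2
      have h9 := h.a1 (u := u' * v) (u1 := w * (s * w' * s⁻¹)) (n := m) (t := s)
        (U.mul_mem hu' hv) (U.mul_mem hw (h.normT hs hw')) hm.1 hs (by
          rw [e2]
          group)
      have h10 : (r : K) ∈ U := by
        rw [e1, e2, h9]
        exact U.mul_mem (U.mul_mem hu (U.mul_mem (U.mul_mem hw (by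
          rw [mul_one]; exact U.one_mem)) hw')) hv'
      have h11 : DC U (1 : K) (r : K) := ⟨1, U.one_mem, r, h10, by simp⟩
      exact hr (Subtype.ext (h.uniq N.one_mem r.2 h11).symm)
    · have h3 : BB P U N (m : K)⁻¹ r := by
        rw [e1, bb_ur hv', bb_ul hu]
        exact h2
      have h4 := h.bb_uniq (N.inv_mem hm.1) r.2 h3 (bb_refl _)
      rw [inv_inv] at h4
      rw [Subgroup.mem_subgroupOf]
      have h5 := mul_mem (inv_mem hm.2.2.1) h4
      have e3 : ((m⁻¹ * r : N) : K) = ((m : K) * m)⁻¹ * ((m : K) * r) := by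
        rw [Subgroup.coe_mul, Subgroup.coe_inv]
        group
      rw [e3]
      exact h5
  anti a b r := hc_anti a b r
  sym a b r := hc_sym a b r

/-! ### automorphisms -/

theorem dc_alpha {α : MulAut K} (hα : ∀ x, α x ∈ U ↔ x ∈ U) {n x : K} :
    DC U (α n) (α x) ↔ DC U n x := by
  constructor
  · rintro ⟨u, hu, u', hu', e⟩
    refine ⟨α⁻¹ u, ?_, α⁻¹ u', ?_, α.injective ?_⟩
    · rwa [← hα, MulAut.apply_inv_self]
    · rwa [← hα, MulAut.apply_inv_self]
    · rw [map_mul, map_mul, MulAut.apply_inv_self, MulAut.apply_inv_self, e]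
  · rintro ⟨u, hu, u', hu', rfl⟩
    exact ⟨α u, (hα u).mpr hu, α u', (hα u').mpr hu', by rw [map_mul, map_mul]⟩

theorem BN.tt_alpha (h : BN p P U N) {α : MulAut K} (hα : ∀ x, α x ∈ U ↔ x ∈ U)
    (hN : ∀ x, α x ∈ N ↔ x ∈ N) (x : K) : α x ∈ TT P N ↔ x ∈ TT P N := by
  have key : ∀ β : MulAut K, (∀ x, β x ∈ U ↔ x ∈ U) → (∀ x, β x ∈ N ↔ x ∈ N) → ∀ x ∈ TT P N,
      β x ∈ TT P N := by
    intro β hβ hβN x hx
    rw [← h.normU _ ((hβN x).mpr hx.1)]
    intro u hu
    have h1 : β⁻¹ u ∈ U := (hβ _).mp (by rwa [MulAut.apply_inv_self])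
    have h2 := (hβ _).mpr (h.normT hx h1)
    rwa [map_mul, map_mul, map_inv, MulAut.apply_inv_self] at h2
  refine ⟨fun hx => ?_, key α hα hN x⟩
  have h1 := key α⁻¹ (fun y => by rw [← hα, MulAut.apply_inv_self])
    (fun y => by rw [← hN, MulAut.apply_inv_self]) _ hx
  rwa [MulAut.inv_apply_self] at h1

theorem BN.sim_alpha_aux (h : BN p P U N) {α : MulAut K} (hα : ∀ x, α x ∈ U ↔ x ∈ U)
    (hN : ∀ x, α x ∈ N ↔ x ∈ N) {m : K} (hm : IsSim P U N m) : IsSim P U N (α m) := by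
  refine ⟨(hN m).mpr hm.1, fun h1 => hm.2.1 ((h.tt_alpha hα hN m).mp h1), ?_,
    fun n hn u hu => ?_⟩
  · rw [← map_mul]
    exact (h.tt_alpha hα hN _).mpr hm.2.2.1
  · have hn' : α⁻¹ n ∈ N := (hN _).mp (by rwa [MulAut.apply_inv_self])
    have hu' : α⁻¹ u ∈ U := (hα _).mp (by rwa [MulAut.apply_inv_self])
    obtain ⟨t, ht, h1⟩ := hm.2.2.2 _ hn' _ hu'
    refine ⟨α t, (h.tt_alpha hα hN t).mpr ht, ?_⟩
    rw [← dc_alpha hα, ← dc_alpha hα (n := α⁻¹ n * t)] at h1
    simpa only [map_mul, MulAut.apply_inv_self] using h1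

theorem aut_hd [Fintype N] [DecidableEq N] (h : BN p P U N) :
    AutUN U N ⊆ AutHD {m : N | IsSim P U N m} (hq U N) (hc U N) := by
  rintro β ⟨α, hα, hβ⟩
  have hN : ∀ x, α x ∈ N ↔ x ∈ N := by
    have h1 : ∀ x ∈ N, α x ∈ N := fun x hx => by
      rw [← hβ ⟨x, hx⟩]
      exact (β ⟨x, hx⟩).2
    exact stab_of_le h1
  have hαi : ∀ x, α⁻¹ x ∈ U ↔ x ∈ U := fun y => by rw [← hα, MulAut.apply_inv_self]
  have hNi : ∀ x, α⁻¹ x ∈ N ↔ x ∈ N := fun y => by rw [← hN, MulAut.apply_inv_self]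
  refine ⟨fun m => ?_, fun n => ?_, fun a b r => ?_⟩
  · change IsSim P U N (β m : K) ↔ IsSim P U N (m : K)
    rw [hβ]
    refine ⟨fun h1 => ?_, h.sim_alpha_aux hα hN⟩
    have h2 := h.sim_alpha_aux hαi hNi h1
    rwa [MulAut.inv_apply_self] at h2
  · have h1 : dn U (β n : K) = dn U (n : K) := by
      rw [hβ]
      refine Nat.card_congr ⟨fun x => ⟨α⁻¹ x.1, ?_⟩, fun x => ⟨α x.1, (dc_alpha hα).mpr x.2⟩,
        fun x => Subtype.ext (MulAut.apply_inv_self _ _ _),
        fun x => Subtype.ext (MulAut.inv_apply_self _ _ _)⟩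
      rw [← dc_alpha hα, MulAut.apply_inv_self]
      exact x.2
    rw [dn_hq, dn_hq] at h1
    exact Nat.eq_of_mul_eq_mul_left Nat.card_pos h1
  · have h1 : nn U (β a : K) (β b) (β r) = nn U (a : K) b r := by
      rw [hβ, hβ, hβ]
      refine Nat.card_congr ⟨fun x => ⟨α⁻¹ x.1, ?_, ?_⟩, fun x => ⟨α x.1,
        (dc_alpha hα).mpr x.2.1, ?_⟩, fun x => Subtype.ext (MulAut.apply_inv_self _ _ _),
        fun x => Subtype.ext (MulAut.inv_apply_self _ _ _)⟩
      · rw [← dc_alpha hα, MulAut.apply_inv_self]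
        exact x.2.1
      · rw [← dc_alpha hα, map_mul, map_inv, MulAut.apply_inv_self]
        exact x.2.2
      · rw [← map_inv, ← map_mul, dc_alpha hα]
        exact x.2.2
    rw [hc_eq, hc_eq, h1]

end Pool.Agent.Helper81.TD
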