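import Pool.Agent.Helper81.TD.Datum

/-!
# Project TD, E1: the images of the group elements of `N` in a representation of `K`
-/

set_option autoImplicit false

namespace Pool.Agent.Helper81.TD

open Matrix

set_option linter.unusedSectionVars false

section ext

variable {K : Type} [Group K] [Fintype K] {d : ℕ} (D : K →* Matrix (Fin d) (Fin d) ℂ)

theorem ext_eq (f : K → ℂ) : ext D f = ∑ g, f g • D g := finsum_eq_sum_of_fintype _

theorem ext_conv (f g : K → ℂ) : ext D (conv f g) = ext D f * ext D g := by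
  rw [ext_eq, ext_eq, ext_eq, Finset.sum_mul]
  have e1 : ∀ x : K, (f x • D x) * ∑ y, g y • D y = ∑ z, (f x * g (x⁻¹ * z)) • D z := by
    intro x
    rw [Finset.mul_sum, ← Equiv.sum_comp (Equiv.mulLeft x) (fun z => (f x * g (x⁻¹ * z)) • D z)]
    refine Finset.sum_congr rfl fun y _ => ?_
    change _ = (f x * g (x⁻¹ * (x * y))) • D (x * y)
    rw [inv_mul_cancel_left, map_mul, smul_mul_smul_comm]
  rw [Finset.sum_congr rfl fun x _ => e1 x, Finset.sum_comm]
  refine Finset.sum_congr rfl fun z _ => ?_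
  rw [← Finset.sum_smul]
  rfl

theorem ext_right (f : K → ℂ) (k : K) : ext D f * D k = ext D (fun x => f (x * k⁻¹)) := by
  rw [ext_eq, ext_eq, Finset.sum_mul, ← Equiv.sum_comp (Equiv.mulRight k) (fun x =>
    f (x * k⁻¹) • D x)]
  refine Finset.sum_congr rfl fun x _ => ?_
  change _ = f (x * k * k⁻¹) • D (x * k)
  rw [mul_inv_cancel_right, map_mul, Matrix.smul_mul]

theorem ext_left (f : K → ℂ) (k : K) : D k * ext D f = ext D (fun x => f (k⁻¹ * x)) := by
  rw [ext_eq, ext_eq, Finset.mul_sum, ← Equiv.sum_comp (Equiv.mulLeft k) (fun x =>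
    f (k⁻¹ * x) • D x)]
  refine Finset.sum_congr rfl fun x _ => ?_
  change _ = f (k⁻¹ * (k * x)) • D (k * x)
  rw [inv_mul_cancel_left, map_mul, Matrix.mul_smul]

theorem ext_trace (f : K → ℂ) : (ext D f).trace = ∑ g, f g * (D g).trace := by
  rw [ext_eq, Matrix.trace_sum]
  exact Finset.sum_congr rfl fun g _ => by rw [Matrix.trace_smul, smul_eq_mul]

theorem ext_sum {ι : Type} (s : Finset ι) (k : ι → ℂ) (f : ι → K → ℂ) :
    ext D (fun x => ∑ i ∈ s, k i * f i x) = ∑ i ∈ s, k i • ext D (f i) := by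
  simp only [ext_eq, Finset.smul_sum, Finset.sum_smul, smul_smul]
  exact Finset.sum_comm

end ext

section bn

variable {K : Type} [Group K] [Fintype K] {p : ℕ} [Fact p.Prime] {P U N : Subgroup K}
  [Fintype N] {d : ℕ} (D : K →* Matrix (Fin d) (Fin d) ℂ)

theorem tf_eq (n g : K) : tf U n g = tR ℂ U n g := rfl

theorem tf_congr {n g n' g' : K} (h : DC U n g ↔ DC U n' g') : tf U n g = tf U n' g' := by
  rw [tf_eq, tf_eq]
  by_cases h1 : DC U n g
  · rw [tR_pos h1, tR_pos (h.mp h1)]
  · rw [tR_neg h1, tR_neg (fun h2 => h1 (h.mpr h2))]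

theorem tf_left {n g u : K} (hu : u ∈ U) : tf U n (u * g) = tf U n g := tf_congr (dc_left hu)

theorem tf_right {n g u : K} (hu : u ∈ U) : tf U n (g * u) = tf U n g := tf_congr (dc_right hu)

theorem tf_one (g : K) (h : g ∉ U) : tf U 1 g = 0 := by
  rw [tf_eq, tR_neg]
  rintro ⟨u, hu, u', hu', rfl⟩
  exact h (U.mul_mem (U.mul_mem hu U.one_mem) hu')

/-- bi-invariant functions -/
theorem BN.ext_biinv (h : BN p P U N) (F : K → ℂ) (h1 : ∀ u ∈ U, ∀ g, F (u * g) = F g)
    (h2 : ∀ u ∈ U, ∀ g, F (g * u) = F g) :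
    ext D F = ∑ r : N, (F r * Nat.card U) • ext D (tf U r) := by
  rw [← ext_sum]
  congr 1
  funext g
  obtain ⟨r, hr, -⟩ := h.exists_rep g
  have h3 := h.sum_tR (R := ℂ) (fun r => F r * Nat.card U) g r hr
  rw [Finset.sum_congr rfl fun r _ => by rw [tf_eq], h3, mul_assoc, mul_inv_cancel₀, mul_one]
  · obtain ⟨u, hu, u', hu', rfl⟩ := hr
    rw [h2 u' hu', h1 u hu]
  · exact Nat.cast_ne_zero.mpr Nat.card_pos.ne'

/-- the idempotent -/
noncomputable def ee (U : Subgroup K) (D : K →* Matrix (Fin d) (Fin d) ℂ) :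
    Matrix (Fin d) (Fin d) ℂ := ext D (tf U 1)

theorem BN.e_ext (h : BN p P U N) (r : N) :
    ee U D * ext D (tf U r) = ext D (tf U r) ∧ ext D (tf U r) * ee U D = ext D (tf U r) := by
  classical
  have h1 := ext_mul h D 1 r
  have h2 := ext_mul h D r 1
  rw [Subgroup.coe_one] at h1 h2
  constructor
  · refine Eq.trans h1 ?_
    rw [Finset.sum_eq_single r]
    · rw [h.ttr_left (one_mem _), one_mul, if_pos rfl, Complex.ofReal_one, one_smul]
    · intro s _ hs
      rw [h.ttr_left (one_mem _), one_mul, if_neg hs, Complex.ofReal_zero, zero_smul]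
    · intro h3
      exact absurd (Finset.mem_univ _) h3
  · refine Eq.trans h2 ?_
    rw [Finset.sum_eq_single r]
    · rw [h.ttr_right (one_mem _), mul_one, if_pos rfl, Complex.ofReal_one, one_smul]
    · intro s _ hs
      rw [h.ttr_right (one_mem _), mul_one, if_neg hs, Complex.ofReal_zero, zero_smul]
    · intro h3
      exact absurd (Finset.mem_univ _) h3

theorem BN.e_e (h : BN p P U N) : ee U D * ee U D = ee U D := by
  have := (h.e_ext D 1).1
  rwa [Subgroup.coe_one] at this

/-- `e_U g e_U` is a multiple of `T_r`, `g ∈ U r U` -/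
theorem BN.e_D_e (h : BN p P U N) (g : K) :
    ∃ (r : N) (k : ℂ), ee U D * D g * ee U D = k • ext D (tf U r) := by
  obtain ⟨r, hr, hr'⟩ := h.exists_rep g
  set F : K → ℂ := conv (fun x => tf U 1 (x * g⁻¹)) (tf U 1) with hF
  have e1 : ee U D * D g * ee U D = ext D F := by
    rw [hF, ext_conv, ← ext_right]
    rfl
  refine ⟨r, F r * Nat.card U, ?_⟩
  rw [e1, h.ext_biinv D F, Finset.sum_eq_single r]
  · intro s _ hs
    have h3 : F s = 0 := by
      rw [hF]
      unfold conv
      refine Finset.sum_eq_zero fun y _ => ?_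
      change tf U 1 (y * g⁻¹) * tf U 1 (y⁻¹ * s) = 0
      by_contra hne
      have h4 : y * g⁻¹ ∈ U := by
        by_contra h5
        exact hne (by rw [tf_one _ h5, zero_mul])
      have h6 : y⁻¹ * s ∈ U := by
        by_contra h5
        exact hne (by rw [tf_one _ h5, mul_zero])
      apply hs
      apply hr'
      refine ⟨(y * g⁻¹)⁻¹, U.inv_mem h4, (y⁻¹ * s)⁻¹, U.inv_mem h6, ?_⟩
      group
    rw [h3, zero_mul, zero_smul]
  · intro h3
    exact absurd (Finset.mem_univ _) h3
  · intro u hu x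
    rw [hF]
    unfold conv
    rw [← Equiv.sum_comp (Equiv.mulLeft u)]
    refine Finset.sum_congr rfl fun y _ => ?_
    change tf U 1 (u * y * g⁻¹) * tf U 1 ((u * y)⁻¹ * (u * x)) = _
    rw [mul_assoc u, tf_left hu]
    congr 2
    group
  · intro u hu x
    rw [hF]
    unfold conv
    refine Finset.sum_congr rfl fun y _ => ?_
    rw [← mul_assoc y⁻¹, tf_right hu]

/-- the image of `n` -/
noncomputable def MM (U : Subgroup K) (X : N → N → ℂ) (D : K →* Matrix (Fin d) (Fin d) ℂ)
    (n : N) : Matrix (Fin d) (Fin d) ℂ := ∑ r : N, X n r • ext D (tf U r)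

theorem BN.e_M (h : BN p P U N) (X : N → N → ℂ) (n : N) :
    ee U D * MM U X D n = MM U X D n ∧ MM U X D n * ee U D = MM U X D n := by
  unfold MM
  constructor
  · rw [Finset.mul_sum]
    exact Finset.sum_congr rfl fun r _ => by rw [Matrix.mul_smul, (h.e_ext D r).1]
  · rw [Finset.sum_mul]
    exact Finset.sum_congr rfl fun r _ => by rw [Matrix.smul_mul, (h.e_ext D r).2]

variable [DecidableEq N] {X Y : N → N → ℂ}

theorem BN.M_mul (h : BN p P U N)
    (hX : Iso ((TT P N).subgroupOf N) (AutUN U N) gc (fun a b r => (hc U N a b r : ℂ)) X Y)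
    (a b : N) : MM U X D (a * b) = MM U X D a * MM U X D b := by
  unfold MM
  have h1 : ∀ r, X (a * b) r = ∑ i, ∑ j, X a i * X b j * (hc U N i j r : ℂ) := by
    intro r
    rw [← hX.mul a b r, Finset.sum_eq_single (a * b)]
    · simp [gc]
    · intro s _ hs
      simp [gc, hs]
    · intro h3
      exact absurd (Finset.mem_univ _) h3
  have h2 : ∀ i j : N, (X a i • ext D (tf U (i : K))) * (X b j • ext D (tf U (j : K))) =
      ∑ r : N, (X a i * X b j * (hc U N i j r : ℂ)) • ext D (tf U (r : K)) := by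
    intro i j
    rw [smul_mul_smul_comm, ext_mul h, Finset.smul_sum]
    exact Finset.sum_congr rfl fun r _ => by rw [smul_smul]
  have h3 : ∀ r : N, (∑ i, ∑ j, X a i * X b j * (hc U N i j r : ℂ)) • ext D (tf U (r : K)) =
      ∑ i, ∑ j, (X a i * X b j * (hc U N i j r : ℂ)) • ext D (tf U (r : K)) := by
    intro r
    rw [Finset.sum_smul]
    exact Finset.sum_congr rfl fun i _ => by rw [Finset.sum_smul]
  rw [Finset.sum_mul_sum]
  simp only [h1, h2, h3]
  rw [Finset.sum_comm]
  refine Finset.sum_congr rfl fun i _ => ?_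
  rw [Finset.sum_comm]

theorem M_one (hX : Iso ((TT P N).subgroupOf N) (AutUN U N) gc
      (fun a b r => (hc U N a b r : ℂ)) X Y) : MM U X D 1 = ee U D := by
  unfold MM
  rw [Finset.sum_eq_single (1 : N)]
  · rw [hX.one, if_pos rfl, one_smul, Subgroup.coe_one]
    rfl
  · intro r _ hr
    rw [hX.one, if_neg hr, zero_smul]
  · intro h3
    exact absurd (Finset.mem_univ _) h3

theorem ext_of_M (hX : Iso ((TT P N).subgroupOf N) (AutUN U N) gc
      (fun a b r => (hc U N a b r : ℂ)) X Y) (r : N) :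
    ext D (tf U r) = ∑ s, Y r s • MM U X D s := by
  unfold MM
  simp only [Finset.smul_sum, smul_smul]
  rw [Finset.sum_comm]
  simp only [← Finset.sum_smul, hX.right]
  rw [Finset.sum_eq_single r]
  · rw [if_pos rfl, one_smul]
  · intro s _ hs
    rw [if_neg hs.symm, zero_smul]
  · intro h3
    exact absurd (Finset.mem_univ _) h3

theorem BN.M_t (h : BN p P U N)
    (hX : Iso ((TT P N).subgroupOf N) (AutUN U N) gc (fun a b r => (hc U N a b r : ℂ)) X Y)
    {t : N} (ht : t ∈ (TT P N).subgroupOf N) :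
    MM U X D t = D t * ee U D := by
  have ht' := Subgroup.mem_subgroupOf.mp ht
  have h1 : ∀ r, X t r = if r = t then 1 else 0 := by
    intro r
    have := (hX.tor t ht 1 (t⁻¹ * r)).1
    rw [mul_one, mul_inv_cancel_left] at this
    rw [this, hX.one]
    have e : t⁻¹ * r = 1 ↔ r = t := by rw [inv_mul_eq_one, eq_comm]
    simp only [e]
  unfold MM
  rw [Finset.sum_eq_single t]
  · rw [h1, if_pos rfl, one_smul, ee, ext_left]
    congr 1
    funext x
    apply tf_congr
    rw [h.dc_t ht', h.dc_t (one_mem _), inv_one, one_mul]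
  · intro r _ hr
    rw [h1, if_neg hr, zero_smul]
  · intro h3
    exact absurd (Finset.mem_univ _) h3

theorem BN.e_t (h : BN p P U N) {t : K} (ht : t ∈ TT P N) : D t * ee U D = ee U D * D t := by
  rw [ee, ext_left, ext_right]
  congr 1
  funext x
  apply tf_congr
  rw [h.dc_t (one_mem _), h.dc_t (one_mem _), inv_one, one_mul, one_mul]
  constructor
  · intro h1
    have := h.normT ht h1
    convert this using 1
    group
  · intro h1
    have := h.normT' ht h1
    convert this using 1
    group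

/-- compatibility with automorphisms -/
theorem M_aut (hX : Iso ((TT P N).subgroupOf N) (AutUN U N) gc
      (fun a b r => (hc U N a b r : ℂ)) X Y) {α : MulAut K} (hα : ∀ x, α x ∈ U ↔ x ∈ U)
    {β : MulAut N} (hβ : ∀ n : N, ((β n : N) : K) = α n) {S : Matrix (Fin d) (Fin d) ℂ}
    (hS : ∀ k, S * D k = D (α k) * S) (n : N) : S * MM U X D n = MM U X D (β n) * S := by
  have h1 : ∀ r : N, S * ext D (tf U r) = ext D (tf U (β r : K)) * S := by
    intro r
    rw [ext_eq, ext_eq, Finset.mul_sum, Finset.sum_mul, ← Equiv.sum_comp α.toEquiv (fun g =>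
      tf U (β r : K) g • D g * S)]
    refine Finset.sum_congr rfl fun g _ => ?_
    change _ = tf U (β r : K) (α g) • D (α g) * S
    rw [Matrix.mul_smul, hS, Matrix.smul_mul]
    congr 1
    apply tf_congr
    rw [hβ]
    exact (dc_alpha hα).symm
  unfold MM
  rw [Finset.mul_sum, Finset.sum_mul, ← Equiv.sum_comp β.toEquiv (fun r =>
    X (β n) r • ext D (tf U (r : K)) * S)]
  refine Finset.sum_congr rfl fun r _ => ?_
  change _ = X (β n) (β r) • ext D (tf U ((β r : N) : K)) * S
  rw [hX.inv β ⟨α, hα, hβ⟩, Matrix.mul_smul, h1, Matrix.smul_mul]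

end bn

end Pool.Agent.Helper81.TD
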