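import Pool.Agent.Helper81.TD.E1
import Pool.Agent.Helper57.PL.Rep

/-!
# Project TD, E2: the representation of `N` and its character
-/

set_option autoImplicit false

namespace Pool.Agent.Helper81.TD

open Matrix

open Pool.Agent.Helper42.INC Pool.Agent.Helper7.MK Pool.Agent.Helper57.PL.Rep

set_option linter.unusedSectionVars false

variable {K : Type} [Group K] [Fintype K] {p : ℕ} [Fact p.Prime] {P U N : Subgroup K}
  [Fintype N] [DecidableEq N] {X Y : N → N → ℂ} {d : ℕ}

/-- the representation of `N` on the fixed points of `U` -/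
structure Rho (U : Subgroup K) {N : Subgroup K} [Fintype N] (X : N → N → ℂ)
    (D : K →* Matrix (Fin d) (Fin d) ℂ) where
  m : ℕ
  A : Matrix (Fin d) (Fin m) ℂ
  B : Matrix (Fin m) (Fin d) ℂ
  ρ : N →* Matrix (Fin m) (Fin m) ℂ
  AB : A * B = ee U D
  BA : B * A = 1
  eq : ∀ n, ρ n = B * MM U X D n * A

/-- the function on `N` attached to a function on `K` -/
noncomputable def psi (U : Subgroup K) {N : Subgroup K} [Fintype N] (X : N → N → ℂ) (θ : K → ℂ)
    (n : N) : ℂ := ∑ r : N, X n r * ∑ g, tf U (r : K) g * θ g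

theorem trace_MM (X : N → N → ℂ) (D : K →* Matrix (Fin d) (Fin d) ℂ) (n : N) :
    (MM U X D n).trace = psi U X (fun g => (D g).trace) n := by
  unfold MM psi
  rw [Matrix.trace_sum]
  refine Finset.sum_congr rfl fun r _ => ?_
  rw [Matrix.trace_smul, smul_eq_mul, ext_trace]

/-- factorization of an idempotent -/
theorem exists_fac (E : Matrix (Fin d) (Fin d) ℂ) (hE : E * E = E) :
    ∃ (m : ℕ) (A : Matrix (Fin d) (Fin m) ℂ) (B : Matrix (Fin m) (Fin d) ℂ),
      A * B = E ∧ B * A = 1 := by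
  classical
  let f : (Fin d → ℂ) →ₗ[ℂ] (Fin d → ℂ) := Matrix.toLin' E
  let W := LinearMap.range f
  let b := Module.finBasis ℂ W
  have hff : ∀ x, f (f x) = f x := by
    intro x
    change Matrix.toLin' E (Matrix.toLin' E x) = Matrix.toLin' E x
    rw [← LinearMap.comp_apply, ← Matrix.toLin'_mul, hE]
  have hW : ∀ w : W, f (w : Fin d → ℂ) = w := by
    rintro ⟨_, x, rfl⟩
    exact hff x
  let i : W →ₗ[ℂ] (Fin d → ℂ) := W.subtype
  let π : (Fin d → ℂ) →ₗ[ℂ] W := f.rangeRestrict
  have h1 : i ∘ₗ π = f := rfl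
  have h2 : π ∘ₗ i = LinearMap.id := by
    ext1 w
    exact Subtype.ext (hW w)
  refine ⟨Module.finrank ℂ W, LinearMap.toMatrix b (Pi.basisFun ℂ (Fin d)) i,
    LinearMap.toMatrix (Pi.basisFun ℂ (Fin d)) b π, ?_, ?_⟩
  · rw [← LinearMap.toMatrix_comp, h1, LinearMap.toMatrix_eq_toMatrix']
    exact LinearMap.toMatrix'_toLin' E
  · rw [← LinearMap.toMatrix_comp, h2, LinearMap.toMatrix_id]

theorem BN.exists_rho (h : BN p P U N)
    (hX : Iso ((TT P N).subgroupOf N) (AutUN U N) gc (fun a b r => (hc U N a b r : ℂ)) X Y)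
    (D : K →* Matrix (Fin d) (Fin d) ℂ) : Nonempty (Rho U X D) := by
  obtain ⟨m, A, B, hAB, hBA⟩ := exists_fac (ee U D) (h.e_e D)
  have h1 : ∀ a b : N, B * MM U X D (a * b) * A = B * MM U X D a * A * (B * MM U X D b * A) := by
    intro a b
    rw [h.M_mul D hX]
    calc B * (MM U X D a * MM U X D b) * A
        = B * (MM U X D a * ee U D * MM U X D b) * A := by rw [(h.e_M D X a).2]
      _ = _ := by rw [← hAB]; simp only [Matrix.mul_assoc]
  have h2 : B * MM U X D 1 * A = 1 := by
    rw [M_one D hX, ← hAB, ← Matrix.mul_assoc, hBA, Matrix.one_mul, hBA]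
  exact ⟨{ m := m, A := A, B := B, AB := hAB, BA := hBA
           ρ := { toFun := fun n => B * MM U X D n * A, map_one' := h2, map_mul' := h1 }
           eq := fun n => rfl }⟩

variable {D : K →* Matrix (Fin d) (Fin d) ℂ}

theorem Rho.Be (R : Rho U X D) : R.B * ee U D = R.B := by
  rw [← R.AB, ← Matrix.mul_assoc, R.BA, Matrix.one_mul]

theorem Rho.eA (R : Rho U X D) : ee U D * R.A = R.A := by
  rw [← R.AB, Matrix.mul_assoc, R.BA, Matrix.mul_one]

theorem Rho.trace (h : BN p P U N) (R : Rho U X D) (n : N) :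
    (R.ρ n).trace = psi U X (fun g => (D g).trace) n := by
  rw [R.eq, Matrix.trace_mul_comm, ← Matrix.mul_assoc, R.AB, (h.e_M D X n).1, trace_MM]

theorem Rho.psi_one (h : BN p P U N) (R : Rho U X D) :
    psi U X (fun g => (D g).trace) 1 = R.m := by
  rw [← R.trace h, map_one, Matrix.trace_one, Fintype.card_fin]

end Pool.Agent.Helper81.TD
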