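import Pool.Agent.Helper81.TD.EIrr

/-!
# Project TD, E5: equivariance
-/

set_option autoImplicit false

namespace Pool.Agent.Helper81.TD

open Matrix

open Pool.Agent.Helper42.INC Pool.Agent.Helper7.MK Pool.Agent.Helper57.PL.Rep

set_option linter.unusedSectionVars false

/-- the restriction of an automorphism -/
def resN {K : Type} [Group K] {N : Subgroup K} (β : MulAut K) (h : ∀ x, β x ∈ N ↔ x ∈ N) :
    MulAut N where
  toFun n := ⟨β n, (h n).mpr n.2⟩
  invFun n := ⟨β⁻¹ n, (inv_stab h n).mpr n.2⟩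
  left_inv _ := Subtype.ext (MulAut.inv_apply_self _ _ _)
  right_inv _ := Subtype.ext (MulAut.apply_inv_self _ _ _)
  map_mul' a b := Subtype.ext (map_mul β (a : K) b)

theorem resN_coe {K : Type} [Group K] {N : Subgroup K} (β : MulAut K)
    (h : ∀ x, β x ∈ N ↔ x ∈ N) (n : N) : ((resN β h n : N) : K) = β n := rfl

variable {K : Type} [Group K] [Fintype K] {p : ℕ} [Fact p.Prime] {P U N : Subgroup K}
  [Fintype N] [DecidableEq N] {X Y : N → N → ℂ} {d : ℕ}

/-- the function `psi θ` is a class function -/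
theorem psi_class (h : BN p P U N)
    (hX : Iso ((TT P N).subgroupOf N) (AutUN U N) gc (fun a b r => (hc U N a b r : ℂ)) X Y)
    {θ : K → ℂ} (hθ : θ ∈ Irr K) (n t : N) : psi U X θ (n * t * n⁻¹) = psi U X θ t := by
  obtain ⟨d, D, -, rfl⟩ := gl_mat hθ
  obtain ⟨R⟩ := h.exists_rho hX D
  rw [← R.trace h, ← R.trace h, map_mul, Matrix.trace_mul_comm, ← map_mul, ← mul_assoc,
    inv_mul_cancel, one_mul]

/-- automorphisms which stabilize `U` and `N` -/
theorem psi_beta (hX : Iso ((TT P N).subgroupOf N) (AutUN U N) gc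
      (fun a b r => (hc U N a b r : ℂ)) X Y) (θ : K → ℂ) {α : MulAut K}
    (hα : ∀ x, α x ∈ U ↔ x ∈ U) {β : MulAut N} (hβ : ∀ n : N, ((β n : N) : K) = α n) (t : N) :
    psi U X (fun x => θ (α x)) t = psi U X θ (β t) := by
  unfold psi
  rw [← Equiv.sum_comp β.toEquiv (fun r => X (β t) r * ∑ g, tf U (r : K) g * θ g)]
  refine Finset.sum_congr rfl fun r _ => ?_
  change _ = X (β t) (β r) * ∑ g, tf U ((β r : N) : K) g * θ g
  rw [hX.inv β ⟨α, hα, hβ⟩, ← Equiv.sum_comp α.toEquiv (fun g => tf U ((β r : N) : K) g * θ g)]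
  congr 1
  refine Finset.sum_congr rfl fun g _ => ?_
  change _ = tf U ((β r : N) : K) (α g) * θ (α g)
  congr 1
  apply tf_congr
  rw [hβ]
  exact (dc_alpha hα).symm

theorem psi_aut (h : BN p P U N)
    (hX : Iso ((TT P N).subgroupOf N) (AutUN U N) gc (fun a b r => (hc U N a b r : ℂ)) X Y)
    {θ : K → ℂ} (hθ : θ ∈ Irr K) {α : MulAut K} (hα : ∀ x, α x ∈ N ↔ x ∈ N) (t t' : N)
    (ht : (t' : K) = α t) : psi U X (fun x => θ (α x)) t = psi U X θ t' := by
  obtain ⟨n, hn, β, hβU, hβN, rfl⟩ := h.decomp hα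
  have h1 : (fun x => θ ((MulAut.conj n * β) x)) = fun x => θ (β x) := by
    funext x
    rw [MulAut.mul_apply, MulAut.conj_apply]
    exact Irr.isClass hθ n (β x)
  rw [h1, psi_beta hX θ hβU (β := resN β hβN) (resN_coe β hβN) t,
    ← psi_class h hX hθ ⟨n, hn⟩ (resN β hβN t)]
  congr 1
  apply Subtype.ext
  rw [ht]
  rfl

end Pool.Agent.Helper81.TD
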