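import Pool.Agent.Helper81.TD.E2

/-!
# Project TD, E2: irreducibility
-/

set_option autoImplicit false

namespace Pool.Agent.Helper81.TD

open Matrix

open Pool.Agent.Helper42.INC Pool.Agent.Helper7.MK Pool.Agent.Helper57.PL.Rep

set_option linter.unusedSectionVars false

/-- the invariant subspaces of an irreducible matrix representation -/
theorem irr_sub {G : Type} [Group G] [Finite G] {d : ℕ} (D : G →* Matrix (Fin d) (Fin d) ℂ)
    (hD : (fun g => (D g).trace) ∈ Irr G) (W : Submodule ℂ (Fin d → ℂ))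
    (hW : ∀ g, ∀ v ∈ W, D g *ᵥ v ∈ W) : W = ⊥ ∨ W = ⊤ := by
  obtain ⟨V, _, _, _, ρ, hρ, hch⟩ := hD
  obtain ⟨e⟩ := gl_iso _ (glRep D) ρ rfl (by rw [gl_char, hch])
  rw [Pool.Agent.Helper42.INC.isIrreducible_iff] at hρ
  have h1 : ∀ g v, e (D g *ᵥ v) = ρ g (e v) := by
    intro g v
    exact Representation.IntertwiningMap.isIntertwining _ _ e.toIntertwiningMap g v
  have h2 := hρ.2 (W.map (e.toLinearEquiv : (Fin d → ℂ) →ₗ[ℂ] V)) (by
    rintro g _ ⟨v, hv, rfl⟩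
    exact ⟨D g *ᵥ v, hW g v hv, h1 g v⟩)
  rcases h2 with h2 | h2
  · left
    exact Submodule.map_eq_bot_iff.mp h2
  · right
    exact Submodule.map_eq_top_iff.mp h2

variable {K : Type} [Group K] [Fintype K] {p : ℕ} [Fact p.Prime] {P U N : Subgroup K}
  [Fintype N] [DecidableEq N] {X Y : N → N → ℂ} {d : ℕ}

/-- the compressions of the matrices of `K` are combinations of the matrices of `N` -/
theorem BN.rho_span (h : BN p P U N)
    (hX : Iso ((TT P N).subgroupOf N) (AutUN U N) gc (fun a b r => (hc U N a b r : ℂ)) X Y)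
    {D : K →* Matrix (Fin d) (Fin d) ℂ} (R : Rho U X D) (g : K) :
    ∃ c : N → ℂ, R.B * D g * R.A = ∑ s, c s • R.ρ s := by
  obtain ⟨r, k, hk⟩ := h.e_D_e D g
  refine ⟨fun s => k * Y r s, ?_⟩
  have h1 : R.B * D g * R.A = R.B * (ee U D * D g * ee U D) * R.A := by
    calc R.B * D g * R.A = (R.B * ee U D) * D g * (ee U D * R.A) := by rw [R.Be, R.eA]
      _ = _ := by simp only [Matrix.mul_assoc]
  rw [h1, hk, ext_of_M D hX, Matrix.mul_smul, Matrix.smul_mul, Matrix.mul_sum, Matrix.sum_mul,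
    Finset.smul_sum]
  refine Finset.sum_congr rfl fun s _ => ?_
  rw [Matrix.mul_smul, Matrix.smul_mul, smul_smul, ← R.eq]

theorem BN.rho_irr (h : BN p P U N)
    (hX : Iso ((TT P N).subgroupOf N) (AutUN U N) gc (fun a b r => (hc U N a b r : ℂ)) X Y)
    {D : K →* Matrix (Fin d) (Fin d) ℂ} (hD : (fun g => (D g).trace) ∈ Irr K) (R : Rho U X D)
    (h0 : R.m ≠ 0) : (fun n => (R.ρ n).trace) ∈ Irr N := by
  refine ⟨Fin R.m → ℂ, inferInstance, inferInstance, inferInstance, glRep R.ρ, ?_,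
    (gl_char R.ρ).symm⟩
  rw [Pool.Agent.Helper42.INC.isIrreducible_iff]
  have : Nonempty (Fin R.m) := ⟨⟨0, Nat.pos_of_ne_zero h0⟩⟩
  refine ⟨inferInstance, fun W hW => ?_⟩
  have hW' : ∀ n, ∀ v ∈ W, R.ρ n *ᵥ v ∈ W := fun n v hv => hW n v hv
  by_cases hb : W = ⊥
  · exact Or.inl hb
  right
  obtain ⟨w, hw, hw0⟩ := (Submodule.ne_bot_iff W).mp hb
  let V' : Submodule ℂ (Fin d → ℂ) := Submodule.span ℂ (Set.range fun g => D g *ᵥ (R.A *ᵥ w))
  have hV1 : V' = ⊥ ∨ V' = ⊤ := by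
    refine irr_sub D hD V' fun g v hv => ?_
    refine Submodule.span_induction (p := fun v _ => D g *ᵥ v ∈ V') ?_ ?_ ?_ ?_ hv
    · rintro _ ⟨k, rfl⟩
      refine Submodule.subset_span ⟨g * k, ?_⟩
      change D (g * k) *ᵥ (R.A *ᵥ w) = D g *ᵥ (D k *ᵥ (R.A *ᵥ w))
      rw [map_mul, ← Matrix.mulVec_mulVec]
    · rw [Matrix.mulVec_zero]
      exact V'.zero_mem
    · intro x y _ _ hx hy
      rw [Matrix.mulVec_add]
      exact V'.add_mem hx hy
    · intro a x _ hx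
      rw [Matrix.mulVec_smul]
      exact V'.smul_mem a hx
  have hV : V' = ⊤ := by
    refine hV1.resolve_left fun hbot => ?_
    have h1 : R.A *ᵥ w ∈ V' := Submodule.subset_span ⟨1, by
      change D 1 *ᵥ (R.A *ᵥ w) = R.A *ᵥ w
      rw [map_one, Matrix.one_mulVec]⟩
    rw [hbot, Submodule.mem_bot] at h1
    apply hw0
    have h2 : R.B *ᵥ (R.A *ᵥ w) = w := by
      rw [Matrix.mulVec_mulVec, R.BA, Matrix.one_mulVec]
    rw [← h2, h1, Matrix.mulVec_zero]
  have hBV : ∀ v ∈ V', R.B *ᵥ v ∈ W := by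
    intro v hv
    refine Submodule.span_induction (p := fun v _ => R.B *ᵥ v ∈ W) ?_ ?_ ?_ ?_ hv
    · rintro _ ⟨k, rfl⟩
      change R.B *ᵥ (D k *ᵥ (R.A *ᵥ w)) ∈ W
      obtain ⟨c, hc'⟩ := h.rho_span hX R k
      rw [Matrix.mulVec_mulVec, Matrix.mulVec_mulVec, hc', Matrix.sum_mulVec]
      refine W.sum_mem fun s _ => ?_
      rw [Matrix.smul_mulVec]
      exact W.smul_mem _ (hW' s w hw)
    · rw [Matrix.mulVec_zero]
      exact W.zero_mem
    · intro x y _ _ hx hy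
      rw [Matrix.mulVec_add]
      exact W.add_mem hx hy
    · intro a x _ hx
      rw [Matrix.mulVec_smul]
      exact W.smul_mem a hx
  rw [eq_top_iff]
  intro y _
  have h3 := hBV (R.A *ᵥ y) (by rw [hV]; trivial)
  rwa [Matrix.mulVec_mulVec, R.BA, Matrix.one_mulVec] at h3

theorem psi_irr (h : BN p P U N)
    (hX : Iso ((TT P N).subgroupOf N) (AutUN U N) gc (fun a b r => (hc U N a b r : ℂ)) X Y)
    {θ : K → ℂ} (hθ : θ ∈ Irr K) (h0 : psi U X θ 1 ≠ 0) : psi U X θ ∈ Irr N := by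
  obtain ⟨d, D, -, rfl⟩ := gl_mat hθ
  obtain ⟨R⟩ := h.exists_rho hX D
  have h1 : R.m ≠ 0 := by
    intro h2
    apply h0
    rw [R.psi_one h, h2, Nat.cast_zero]
  have h2 := h.rho_irr hX hθ R h1
  have h3 : (fun n => (R.ρ n).trace) = psi U X (fun g => (D g).trace) :=
    funext fun n => R.trace h n
  rwa [h3] at h2

end Pool.Agent.Helper81.TD
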