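import Pool.Agent.Helper81.TD.GA

/-!
# Project TD, G5: transport with automorphisms, and goodness
-/

set_option autoImplicit false

open scoped commutatorElement

namespace Pool.Agent.Helper81.TD

open Pool.Agent.Helper42.INC Pool.Agent.Helper7.MK

variable {K : Type} [Group K] {p : ℕ} {P U N : Subgroup K}

theorem mem_cmp {γ : MulAut K} {x : K} : x ∈ P.comap γ.toMonoidHom ↔ γ x ∈ P := Iff.rfl

theorem mem_tt_cmp {γ : MulAut K} {x : K} :
    x ∈ TT (P.comap γ.toMonoidHom) (N.comap γ.toMonoidHom) ↔ γ x ∈ TT P N := by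
  unfold TT
  rw [Subgroup.mem_inf, Subgroup.mem_inf, mem_cmp, Subgroup.mem_centralizer_iff,
    Subgroup.mem_centralizer_iff]
  refine and_congr Iff.rfl ⟨fun h y hy => ?_, fun h y hy => γ.injective ?_⟩
  · have h1 := h (γ⁻¹ y) (by
      change γ (γ⁻¹ y) ∈ P
      rw [MulAut.apply_inv_self]
      exact hy)
    have h2 := congrArg γ h1
    rwa [map_mul, map_mul, MulAut.apply_inv_self] at h2
  · rw [map_mul, map_mul]
    exact h _ hy

theorem dc_cmp {γ : MulAut K} {n x : K} : DC (U.comap γ.toMonoidHom) n x ↔ DC U (γ n) (γ x) := by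
  constructor
  · rintro ⟨u, hu, u', hu', rfl⟩
    exact ⟨γ u, hu, γ u', hu', by rw [map_mul, map_mul]⟩
  · rintro ⟨u, hu, u', hu', e⟩
    refine ⟨γ⁻¹ u, ?_, γ⁻¹ u', ?_, γ.injective ?_⟩
    · change γ (γ⁻¹ u) ∈ U
      rwa [MulAut.apply_inv_self]
    · change γ (γ⁻¹ u') ∈ U
      rwa [MulAut.apply_inv_self]
    · rw [map_mul, map_mul, MulAut.apply_inv_self, MulAut.apply_inv_self, e]

theorem sim_cmp {γ : MulAut K} {m : K} :
    IsSim (P.comap γ.toMonoidHom) (U.comap γ.toMonoidHom) (N.comap γ.toMonoidHom) m ↔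
      IsSim P U N (γ m) := by
  unfold IsSim
  rw [mem_cmp, mem_tt_cmp, mem_tt_cmp, map_mul]
  refine and_congr Iff.rfl (and_congr Iff.rfl (and_congr Iff.rfl ⟨fun h n hn u hu => ?_,
    fun h n hn u hu => ?_⟩))
  · obtain ⟨t, ht, h1⟩ := h (γ⁻¹ n) (by
      change γ (γ⁻¹ n) ∈ N
      rwa [MulAut.apply_inv_self]) (γ⁻¹ u) (by
      change γ (γ⁻¹ u) ∈ U
      rwa [MulAut.apply_inv_self])
    refine ⟨γ t, mem_tt_cmp.mp ht, ?_⟩
    rw [dc_cmp, dc_cmp] at h1
    simpa only [map_mul, MulAut.apply_inv_self] using h1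
  · obtain ⟨t, ht, h1⟩ := h (γ n) hn (γ u) hu
    refine ⟨γ⁻¹ t, mem_tt_cmp.mpr (by rwa [MulAut.apply_inv_self]), ?_⟩
    rw [dc_cmp, dc_cmp]
    simpa only [map_mul, MulAut.apply_inv_self] using h1

theorem BN.comap (h : BN p P U N) (γ : MulAut K) :
    BN p (P.comap γ.toMonoidHom) (U.comap γ.toMonoidHom) (N.comap γ.toMonoidHom) where
  pgroup := by
    rintro ⟨x, hx⟩
    obtain ⟨k, hk⟩ := h.pgroup ⟨γ x, hx⟩
    refine ⟨k, Subtype.ext (γ.injective ?_)⟩
    have := congrArg Subtype.val hk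
    change γ (x ^ p ^ k) = γ 1
    rw [map_pow, map_one]
    exact this
  comm a ha b hb := γ.injective (by rw [map_mul, map_mul]; exact h.comm _ ha _ hb)
  le x hx := h.le hx
  norm n hn x hx := by
    rw [mem_cmp, map_mul, map_mul, map_inv]
    exact h.norm _ hn _ hx
  normU n hn := by
    rw [mem_tt_cmp, ← h.normU (γ n) hn]
    constructor
    · intro h1 u hu
      have h2 := h1 (γ⁻¹ u) (by
        change γ (γ⁻¹ u) ∈ U
        rwa [MulAut.apply_inv_self])
      rwa [mem_cmp, map_mul, map_mul, map_inv, MulAut.apply_inv_self] at h2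
    · intro h1 u hu
      rw [mem_cmp, map_mul, map_mul, map_inv]
      exact h1 _ hu
  fix u hu h1 := by
    apply γ.injective
    rw [map_one]
    refine h.fix _ hu fun x hx => ?_
    have h2 := h1 (γ⁻¹ x) (by
      change γ (γ⁻¹ x) ∈ P
      rwa [MulAut.apply_inv_self])
    have h3 := congrArg γ h2
    rwa [map_mul, map_mul, MulAut.apply_inv_self] at h3
  cover g := by
    obtain ⟨n, hn, h1⟩ := h.cover (γ g)
    refine ⟨γ⁻¹ n, ?_, ?_⟩
    · change γ (γ⁻¹ n) ∈ N
      rwa [MulAut.apply_inv_self]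
    · rw [dc_cmp, MulAut.apply_inv_self]
      exact h1
  gen n hn := by
    have h1 := h.gen _ hn
    have h2 : (Subgroup.closure ({m | IsSim P U N m} ∪ (TT P N : Set K))) ≤
        (Subgroup.closure ({m | IsSim (P.comap γ.toMonoidHom) (U.comap γ.toMonoidHom)
          (N.comap γ.toMonoidHom) m} ∪ (TT (P.comap γ.toMonoidHom)
          (N.comap γ.toMonoidHom) : Set K))).map γ.toMonoidHom := by
      rw [Subgroup.closure_le]
      intro m hm
      refine ⟨γ⁻¹ m, Subgroup.subset_closure ?_, MulAut.apply_inv_self _ _ _⟩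
      rcases hm with hm | hm
      · left
        change IsSim _ _ _ _
        rw [sim_cmp, MulAut.apply_inv_self]
        exact hm
      · right
        change γ⁻¹ m ∈ TT _ _
        rw [mem_tt_cmp, MulAut.apply_inv_self]
        exact hm
    obtain ⟨m, hm, e⟩ := h2 h1
    rwa [← γ.injective e]
  quad x hx hk hc := by
    rw [mem_cmp]
    refine h.quad _ hx ?_ fun y hy => ?_
    · obtain ⟨k, hk⟩ := hk
      exact ⟨k, by rw [← map_pow, hk, map_one]⟩
    · have h2 := hc (γ⁻¹ y) (by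
        change γ (γ⁻¹ y) ∈ P
        rwa [MulAut.apply_inv_self])
      have h3 := congrArg γ h2
      rwa [map_commutatorElement, map_commutatorElement, MulAut.apply_inv_self, map_one] at h3
  aut α hα := by
    obtain ⟨n, hn, h1⟩ := h.aut (γ * α * γ⁻¹) (fun x => by
      have h2 := hα (γ⁻¹ x)
      rw [mem_cmp, mem_cmp, MulAut.apply_inv_self] at h2
      exact h2)
    refine ⟨γ⁻¹ n, ?_, fun x => ?_⟩
    · change γ (γ⁻¹ n) ∈ N
      rwa [MulAut.apply_inv_self]
    · have h2 := h1 (γ x)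
      have e1 : (γ * α * γ⁻¹) (γ x) = γ (α x) := by
        rw [MulAut.mul_apply, MulAut.mul_apply, MulAut.inv_apply_self]
      rw [e1] at h2
      rw [mem_cmp, mem_cmp, ← h2, map_mul, map_mul, map_inv, MulAut.apply_inv_self]

/-- G5: goodness -/
theorem good_of_main {p : ℕ} [Fact p.Prime] (K : Type) [Group K] [Finite K]
    (hz : ¬ p ∣ Nat.card (Subgroup.center K)) (hp : p ∣ Nat.card K) (S : Type) [Group S]
    (hS : IsSimpleGroup S) (hS' : ¬ ∀ a b : S, a * b = b * a)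
    (e : Nonempty ((K ⧸ Subgroup.center K) ≃* S)) {P U N : Subgroup K} (hB : BN p P U N)
    (hmain : ∀ P U N : Subgroup K, BN p P U N → ∃ F : IrrP p K ≃ IrrP p N,
      (∀ α : MulAut K, (∀ x, α x ∈ N ↔ x ∈ N) → ∀ θ θ' : IrrP p K,
        (∀ x, θ'.1 x = θ.1 (α x)) → ∀ t t' : N, (t' : K) = α t → (F θ').1 t = (F θ).1 t') ∧
      (∀ θ, (deg (F θ).1 : ZMod p) ^ 2 = (deg θ.1 : ZMod p) ^ 2) ∧
      ∀ θ, MatchedAut N θ.1 (F θ).1) :
    Good p K := by
  intro Q
  obtain ⟨Q1, hQ1⟩ := hB.pgroup.exists_le_sylow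
  obtain ⟨g, hg⟩ := MulAction.exists_smul_eq K Q1 Q
  have h' := hB.comap (MulAut.conj g⁻¹)
  have hPQ : P.comap (MulAut.conj g⁻¹).toMonoidHom ≤ (Q : Subgroup K) := by
    intro x hx
    rw [← hg, Sylow.coe_subgroup_smul, Subgroup.mem_pointwise_smul_iff_inv_smul_mem, ← map_inv,
      MulAut.smul_def]
    exact hQ1 hx
  refine ⟨N.comap (MulAut.conj g⁻¹).toMonoidHom, ?_, ?_, ?_, hmain _ _ _ h'⟩
  · exact h'.normalizer_sylow_le (Q : Subgroup K) Q.isPGroup' hPQ
  · exact h'.ne_top hz hp S hS hS' e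
  · exact fun α hα x => h'.stab_N (Q : Subgroup K) Q.isPGroup' hPQ hα x

end Pool.Agent.Helper81.TD
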