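import Pool.Agent.Helper81.TD.EAut
import Pool.Agent.Helper81.TD.GB

/-!
# Project TD, E: the bijection, assembly
-/

set_option autoImplicit false

namespace Pool.Agent.Helper81.TD

open Matrix

open Pool.Agent.Helper42.INC Pool.Agent.Helper7.MK Pool.Agent.Helper57.PL.Rep

variable {K : Type} [Group K] [Fintype K] {p : ℕ} [Fact p.Prime] {P U N : Subgroup K}
  [Fintype N] [DecidableEq N] {X Y : N → N → ℂ}

theorem main_F_of (h : BN p P U N)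
    (hX : Iso ((TT P N).subgroupOf N) (AutUN U N) gc (fun a b r => (hc U N a b r : ℂ)) X Y)
    (hinj : ∀ θ θ' : K → ℂ, θ ∈ Irr K → θ' ∈ Irr K → psi U X θ 1 ≠ 0 →
      psi U X θ = psi U X θ' → θ = θ')
    (hsurj : ∀ ψ ∈ Irr N, ∃ θ ∈ Irr K, psi U X θ = ψ)
    (hdeg : ∀ θ ∈ Irr K, ∃ m n : ℕ, psi U X θ 1 = m ∧ θ 1 = n ∧ m ≡ n [MOD p])
    (hmat : ∀ θ ∈ Irr K, psi U X θ ∈ Irr N → MatchedAut N θ (psi U X θ)) :
    ∃ F : IrrP p K ≃ IrrP p N,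
      (∀ α : MulAut K, (∀ x, α x ∈ N ↔ x ∈ N) → ∀ θ θ' : IrrP p K,
        (∀ x, θ'.1 x = θ.1 (α x)) → ∀ t t' : N, (t' : K) = α t → (F θ').1 t = (F θ).1 t') ∧
      (∀ θ, (deg (F θ).1 : ZMod p) ^ 2 = (deg θ.1 : ZMod p) ^ 2) ∧
      ∀ θ, MatchedAut N θ.1 (F θ).1 := by
  have hmod : ∀ {m n : ℕ}, m ≡ n [MOD p] → (p ∣ m ↔ p ∣ n) := fun h => h.dvd_iff dvd_rfl
  have hmem : ∀ θ : IrrP p K, psi U X θ.1 ∈ IrrP p N := by
    rintro ⟨θ, hθ, n, hn, hpn⟩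
    obtain ⟨m, n', hm, hn', hmn⟩ := hdeg θ hθ
    have e : n' = n := by
      have := hn'.symm.trans hn
      exact_mod_cast this
    subst e
    have hpm : ¬ p ∣ m := fun h1 => hpn ((hmod hmn).mp h1)
    refine ⟨psi_irr h hX hθ ?_, m, hm, hpm⟩
    change psi U X θ 1 ≠ 0
    rw [hm]
    intro h1
    apply hpm
    have h2 : m = 0 := by exact_mod_cast h1
    rw [h2]
    exact dvd_zero p
  let f : IrrP p K → IrrP p N := fun θ => ⟨psi U X θ.1, hmem θ⟩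
  have hne : ∀ θ : IrrP p K, psi U X θ.1 1 ≠ 0 := by
    intro θ h1
    obtain ⟨-, m, hm, hpm⟩ := hmem θ
    rw [h1] at hm
    have h2 : m = 0 := by exact_mod_cast hm.symm
    rw [h2] at hpm
    exact hpm (dvd_zero p)
  have hf : Function.Bijective f := by
    constructor
    · intro θ θ' he
      exact Subtype.ext (hinj _ _ θ.2.1 θ'.2.1 (hne θ) (congrArg Subtype.val he))
    · rintro ⟨ψ, hψ, m', hm', hpm'⟩
      obtain ⟨θ, hθ, rfl⟩ := hsurj ψ hψ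
      obtain ⟨m, n, hm, hn, hmn⟩ := hdeg θ hθ
      have e : m = m' := by
        have := hm.symm.trans hm'
        exact_mod_cast this
      subst e
      exact ⟨⟨θ, hθ, n, hn, fun h1 => hpm' ((hmod hmn).mpr h1)⟩, rfl⟩
  refine ⟨Equiv.ofBijective f hf, ?_, ?_, ?_⟩
  · intro α hα θ θ' hθ t t' ht
    change psi U X θ'.1 t = psi U X θ.1 t'
    have e : θ'.1 = fun x => θ.1 (α x) := funext hθ
    rw [e]
    exact psi_aut h hX θ.2.1 hα t t' ht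
  · intro θ
    change (deg (psi U X θ.1) : ZMod p) ^ 2 = (deg θ.1 : ZMod p) ^ 2
    obtain ⟨m, n, hm, hn, hmn⟩ := hdeg θ.1 θ.2.1
    rw [deg_eq hm, deg_eq hn, (ZMod.natCast_eq_natCast_iff _ _ _).2 hmn]
  · intro θ
    exact hmat θ.1 θ.2.1 (hmem θ).1

end Pool.Agent.Helper81.TD
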