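import Pool.Agent.Helper81.TD.EAut
import Pool.Agent.Helper57.AN.MatchTwo

/-!
# Project TD, E6: matched characters
-/

set_option autoImplicit false

open scoped Kronecker

namespace Pool.Agent.Helper81.TD

open Matrix

open Pool.Agent.Helper42.INC Pool.Agent.Helper7.MK Pool.Agent.Helper57.PL.Rep

set_option linter.unusedSectionVars false

/-- the index type of the matrices does not matter -/
theorem matched_of_index {K : Type} [Group K] {T : Subgroup K} {θ : K → ℂ} {φ : T → ℂ}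
    {ι : Type} [Fintype ι] [DecidableEq ι] (D : K × T →* Matrix ι ι ℂ)
    (R : AutTh T θ →* Matrix ι ι ℂ) (h1 : ∀ k t, (D (k, t)).trace = θ k * φ t⁻¹)
    (h2 : ∀ (α : AutTh T θ) (k : K) (t t' : T), (t' : K) = α.1 t →
      R α * D (k, t) = D (α.1 k, t') * R α)
    (h3 : ∀ (α : AutTh T θ) (t : T), α.1 = MulAut.conj (t : K) → R α = D (t, t)) :
    MatchedAut T θ φ := by
  let e := Fintype.equivFin ι
  let E : Matrix ι ι ℂ ≃ₐ[ℂ] Matrix (Fin (Fintype.card ι)) (Fin (Fintype.card ι)) ℂ :=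
    Matrix.reindexAlgEquiv ℂ ℂ e
  refine ⟨Fintype.card ι, (E : Matrix ι ι ℂ →* _).comp D, (E : Matrix ι ι ℂ →* _).comp R,
    fun k t => ?_, fun α k t t' ht => ?_, fun α t ht => ?_⟩
  · rw [← h1]
    change (Matrix.reindex e e (D (k, t))).trace = (D (k, t)).trace
    unfold Matrix.trace
    rw [← Equiv.sum_comp e]
    refine Finset.sum_congr rfl fun i _ => ?_
    simp
  · change E (R α) * E (D (k, t)) = E (D (α.1 k, t')) * E (R α)
    rw [← map_mul, ← map_mul, h2 α k t t' ht]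
  · change E (R α) = E (D (t, t))
    rw [h3 α t ht]

variable {K : Type} [Group K] [Fintype K] {p : ℕ} [Fact p.Prime] {P U N : Subgroup K}
  [Fintype N] [DecidableEq N] {X Y : N → N → ℂ} {d : ℕ}
  {D : K →* Matrix (Fin d) (Fin d) ℂ}

/-- compression is multiplicative on matrices which commute with the idempotent -/
theorem Rho.cmp (R : Rho U X D) {S S' : Matrix (Fin d) (Fin d) ℂ}
    (hS : S * ee U D = ee U D * S) :
    R.B * (S * S') * R.A = R.B * S * R.A * (R.B * S' * R.A) := by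
  calc R.B * (S * S') * R.A = (R.B * ee U D) * S * S' * R.A := by
        rw [R.Be]
        simp only [Matrix.mul_assoc]
    _ = R.B * (ee U D * S) * S' * R.A := by simp only [Matrix.mul_assoc]
    _ = R.B * S * (R.A * R.B) * S' * R.A := by
        rw [← hS, R.AB]
        simp only [Matrix.mul_assoc]
    _ = _ := by simp only [Matrix.mul_assoc]

/-- the data which implement the automorphism `conj n * β` -/
structure Imp (U N : Subgroup K) (D : K →* Matrix (Fin d) (Fin d) ℂ) where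
  n : N
  β : MulAut K
  S : Matrix (Fin d) (Fin d) ℂ
  S' : Matrix (Fin d) (Fin d) ℂ
  βU : ∀ x, β x ∈ U ↔ x ∈ U
  βN : ∀ x, β x ∈ N ↔ x ∈ N
  SS' : S * S' = 1
  S'S : S' * S = 1
  SD : ∀ k, S * D k = D (β k) * S

section imp

variable (R : Rho U X D) (I : Imp U N D)

/-- the automorphism -/
def Imp.aut : MulAut K := MulAut.conj (I.n : K) * I.β

theorem Imp.aut_apply (x : K) : I.aut x = I.n * I.β x * (I.n : K)⁻¹ := rfl

/-- the big matrix -/
def Imp.L : Matrix (Fin d) (Fin d) ℂ := D I.n * I.S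

/-- the small matrix -/
def Imp.Q : Matrix (Fin R.m) (Fin R.m) ℂ := R.ρ I.n * (R.B * I.S * R.A)

/-- its inverse -/
def Imp.Q' : Matrix (Fin R.m) (Fin R.m) ℂ := R.B * I.S' * R.A * R.ρ I.n⁻¹

/-- the matrix of the automorphism -/
def Imp.Z : Matrix (Fin d × Fin R.m) (Fin d × Fin R.m) ℂ := I.L ⊗ₖ (I.Q' R)ᵀ

theorem Imp.Se (hX : Iso ((TT P N).subgroupOf N) (AutUN U N) gc
      (fun a b r => (hc U N a b r : ℂ)) X Y) : I.S * ee U D = ee U D * I.S := by
  have h1 := M_aut D hX I.βU (β := resN I.β I.βN) (resN_coe I.β I.βN) I.SD 1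
  rwa [map_one, M_one D hX] at h1

theorem Imp.S'e (hX : Iso ((TT P N).subgroupOf N) (AutUN U N) gc
      (fun a b r => (hc U N a b r : ℂ)) X Y) : I.S' * ee U D = ee U D * I.S' := by
  calc I.S' * ee U D = I.S' * (ee U D * (I.S * I.S')) := by rw [I.SS', Matrix.mul_one]
    _ = I.S' * (I.S * ee U D) * I.S' := by
        rw [I.Se hX]
        simp only [Matrix.mul_assoc]
    _ = (I.S' * I.S) * ee U D * I.S' := by simp only [Matrix.mul_assoc]
    _ = ee U D * I.S' := by rw [I.S'S, Matrix.one_mul]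

theorem Imp.LD (k : K) : I.L * D k = D (I.aut k) * I.L := by
  unfold Imp.L
  rw [Matrix.mul_assoc, I.SD, ← Matrix.mul_assoc, ← Matrix.mul_assoc, ← map_mul, ← map_mul,
    I.aut_apply]
  congr 2
  group

theorem Imp.Sm_rho (h : BN p P U N) (hX : Iso ((TT P N).subgroupOf N) (AutUN U N) gc
      (fun a b r => (hc U N a b r : ℂ)) X Y) (t : N) :
    R.B * I.S * R.A * R.ρ t = R.ρ (resN I.β I.βN t) * (R.B * I.S * R.A) := by
  have h1 := M_aut D hX I.βU (β := resN I.β I.βN) (resN_coe I.β I.βN) I.SD t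
  rw [R.eq, R.eq]
  calc R.B * I.S * R.A * (R.B * MM U X D t * R.A)
      = R.B * I.S * ((R.A * R.B) * MM U X D t) * R.A := by simp only [Matrix.mul_assoc]
    _ = R.B * (I.S * MM U X D t) * R.A := by
        rw [R.AB, (h.e_M D X t).1]
        simp only [Matrix.mul_assoc]
    _ = R.B * (MM U X D (resN I.β I.βN t) * (R.A * R.B)) * I.S * R.A := by
        rw [h1, R.AB, (h.e_M D X _).2]
        simp only [Matrix.mul_assoc]
    _ = _ := by simp only [Matrix.mul_assoc]

theorem Imp.Q_rho (h : BN p P U N) (hX : Iso ((TT P N).subgroupOf N) (AutUN U N) gc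
      (fun a b r => (hc U N a b r : ℂ)) X Y) (t t' : N) (ht : (t' : K) = I.aut t) :
    I.Q R * R.ρ t = R.ρ t' * I.Q R := by
  have e : I.n * resN I.β I.βN t = t' * I.n := by
    apply Subtype.ext
    rw [Subgroup.coe_mul, Subgroup.coe_mul, ht, I.aut_apply, resN_coe]
    group
  unfold Imp.Q
  calc R.ρ I.n * (R.B * I.S * R.A) * R.ρ t
      = R.ρ I.n * (R.B * I.S * R.A * R.ρ t) := Matrix.mul_assoc _ _ _
    _ = R.ρ I.n * R.ρ (resN I.β I.βN t) * (R.B * I.S * R.A) := by
        rw [I.Sm_rho R h hX, ← Matrix.mul_assoc]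
    _ = R.ρ t' * (R.ρ I.n * (R.B * I.S * R.A)) := by
        rw [← map_mul, e, map_mul, Matrix.mul_assoc]

theorem Imp.QQ' (hX : Iso ((TT P N).subgroupOf N) (AutUN U N) gc
      (fun a b r => (hc U N a b r : ℂ)) X Y) : I.Q R * I.Q' R = 1 := by
  unfold Imp.Q Imp.Q'
  have h1 : R.B * I.S * R.A * (R.B * I.S' * R.A) = 1 := by
    rw [← R.cmp (I.Se hX), I.SS', Matrix.mul_one, R.BA]
  calc R.ρ I.n * (R.B * I.S * R.A) * (R.B * I.S' * R.A * R.ρ I.n⁻¹)
      = R.ρ I.n * (R.B * I.S * R.A * (R.B * I.S' * R.A)) * R.ρ I.n⁻¹ := by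
        simp only [Matrix.mul_assoc]
    _ = 1 := by rw [h1, Matrix.mul_one, ← map_mul, mul_inv_cancel, map_one]

theorem Imp.Q'Q (hX : Iso ((TT P N).subgroupOf N) (AutUN U N) gc
      (fun a b r => (hc U N a b r : ℂ)) X Y) : I.Q' R * I.Q R = 1 :=
  mul_eq_one_comm.mp (I.QQ' R hX)

theorem Imp.rho_Q' (h : BN p P U N) (hX : Iso ((TT P N).subgroupOf N) (AutUN U N) gc
      (fun a b r => (hc U N a b r : ℂ)) X Y) (t t' : N) (ht : (t' : K) = I.aut t) :
    R.ρ t * I.Q' R = I.Q' R * R.ρ t' := by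
  calc R.ρ t * I.Q' R = (I.Q' R * I.Q R) * R.ρ t * I.Q' R := by rw [I.Q'Q R hX, Matrix.one_mul]
    _ = I.Q' R * (I.Q R * R.ρ t) * I.Q' R := by simp only [Matrix.mul_assoc]
    _ = I.Q' R * R.ρ t' * (I.Q R * I.Q' R) := by
        rw [I.Q_rho R h hX t t' ht]
        simp only [Matrix.mul_assoc]
    _ = _ := by rw [I.QQ' R hX, Matrix.mul_one]

end imp

end Pool.Agent.Helper81.TD
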