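import Pool.Agent.Helper81.TD.E2

/-!
# Project TD, block E: statements of the parts (NOT a module of the final development)
-/

set_option autoImplicit false

namespace Pool.Agent.Helper81.TD

open Matrix

open Pool.Agent.Helper42.INC Pool.Agent.Helper7.MK

variable {K : Type} [Group K] [Fintype K] {p : ℕ} [Fact p.Prime] {P U N : Subgroup K}
  [Fintype N] [DecidableEq N] {X Y : N → N → ℂ} {d : ℕ}

/-- E2 (helper81) -/
theorem psi_irr (h : BN p P U N)
    (hX : Iso ((TT P N).subgroupOf N) (AutUN U N) gc (fun a b r => (hc U N a b r : ℂ)) X Y)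
    {θ : K → ℂ} (hθ : θ ∈ Irr K) (h0 : psi U X θ 1 ≠ 0) : psi U X θ ∈ Irr N := by
  sorry

/-- E3i (helper24) -/
theorem psi_inj (h : BN p P U N)
    (hX : Iso ((TT P N).subgroupOf N) (AutUN U N) gc (fun a b r => (hc U N a b r : ℂ)) X Y)
    {θ θ' : K → ℂ} (hθ : θ ∈ Irr K) (hθ' : θ' ∈ Irr K) (h0 : psi U X θ 1 ≠ 0)
    (he : psi U X θ = psi U X θ') : θ = θ' := by
  sorry

/-- E3s (helper24) -/
theorem psi_surj (h : BN p P U N)
    (hX : Iso ((TT P N).subgroupOf N) (AutUN U N) gc (fun a b r => (hc U N a b r : ℂ)) X Y)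
    {ψ : N → ℂ} (hψ : ψ ∈ Irr N) : ∃ θ ∈ Irr K, psi U X θ = ψ := by
  sorry

/-- E4 (helper57) -/
theorem psi_deg (h : BN p P U N)
    (hX : Iso ((TT P N).subgroupOf N) (AutUN U N) gc (fun a b r => (hc U N a b r : ℂ)) X Y)
    {θ : K → ℂ} (hθ : θ ∈ Irr K) :
    ∃ m n : ℕ, psi U X θ 1 = m ∧ θ 1 = n ∧ m ≡ n [MOD p] := by
  sorry

/-- E5 (helper81) -/
theorem psi_aut (h : BN p P U N)
    (hX : Iso ((TT P N).subgroupOf N) (AutUN U N) gc (fun a b r => (hc U N a b r : ℂ)) X Y)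
    {θ : K → ℂ} (hθ : θ ∈ Irr K) {α : MulAut K} (hα : ∀ x, α x ∈ N ↔ x ∈ N) (t t' : N)
    (ht : (t' : K) = α t) : psi U X (fun x => θ (α x)) t = psi U X θ t' := by
  sorry

/-- E6 (helper57) -/
theorem psi_matched (h : BN p P U N)
    (hX : Iso ((TT P N).subgroupOf N) (AutUN U N) gc (fun a b r => (hc U N a b r : ℂ)) X Y)
    {θ : K → ℂ} (hθ : θ ∈ Irr K) (hψ : psi U X θ ∈ Irr N) :
    MatchedAut N θ (psi U X θ) := by
  sorry

end Pool.Agent.Helper81.TD
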