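import Pool.Agent.Helper81.TD.Defs
import Pool.Agent.Helper24.S7.Defs

/-!
# Project TD: the statements of the big blocks (NOT a module of the final development)
-/

set_option autoImplicit false

open Polynomial

namespace Pool.Agent.Helper81.TD

open Pool.Agent.Helper42.INC Pool.Agent.Helper7.MK

/-! ### A: the Hecke datum of a group with a BN-pair (helper24) -/

theorem uniq {K : Type} [Group K] [Finite K] {p : ℕ} [Fact p.Prime] {P U N : Subgroup K}
    (h : BN p P U N) {n n' : K} (hn : n ∈ N) (hn' : n' ∈ N) (hd : DC U n n') : n = n' := by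
  sorry

theorem hd_of_bn {K : Type} [Group K] [Finite K] {p : ℕ} [Fact p.Prime] {P U N : Subgroup K}
    [Fintype N] [DecidableEq N] (h : BN p P U N) :
    HD ((TT P N).subgroupOf N) {m : N | IsSim P U N m} (hq U N) (hc U N) := by
  sorry

theorem aut_hd {K : Type} [Group K] [Finite K] {p : ℕ} [Fact p.Prime] {P U N : Subgroup K}
    [Fintype N] [DecidableEq N] (h : BN p P U N) :
    AutUN U N ⊆ AutHD {m : N | IsSim P U N m} (hq U N) (hc U N) := by
  sorry

theorem ext_mul {K : Type} [Group K] [Finite K] {p : ℕ} [Fact p.Prime] {P U N : Subgroup K}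
    [Fintype N] (h : BN p P U N) {d : ℕ} (D : K →* Matrix (Fin d) (Fin d) ℂ) (a b : N) :
    ext D (tf U a) * ext D (tf U b) = ∑ r : N, (hc U N a b r : ℂ) • ext D (tf U r) := by
  sorry

/-! ### B: the generic algebra (helper24) -/

theorem exists_gen {N : Type} [Group N] [Fintype N] [DecidableEq N] {T : Subgroup N}
    {Sim : Set N} {q : N → ℕ} {c : N → N → N → ℝ} (h : HD T Sim q c) :
    ∃ Γ : N → N → N → ℂ[X], Asc Γ ∧ TTr T Γ ∧ Inv (AutHD Sim q c) Γ ∧
      (∀ a b r, (Γ a b r).eval 0 = gc a b r) ∧ ∀ a b r, (Γ a b r).eval 1 = (c a b r : ℂ) := by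
  sorry

/-! ### C: rigidity (helper41) -/

theorem rigid {N : Type} [Group N] [Fintype N] [DecidableEq N] (T : Subgroup N)
    (A : Set (MulAut N)) (Γ : N → N → N → ℂ[X]) (h1 : Asc Γ) (h2 : TTr T Γ) (h3 : Inv A Γ)
    (S₀ S₁ : N → N → ℂ) (h4 : Sep A (fun a b r => (Γ a b r).eval 0) S₀)
    (h5 : Sep A (fun a b r => (Γ a b r).eval 1) S₁) :
    ∃ X Y : N → N → ℂ, Iso T A (fun a b r => (Γ a b r).eval 0) (fun a b r => (Γ a b r).eval 1)
      X Y := by
  sorry

/-! ### D: separability -/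

theorem sep_group {N : Type} [Group N] [Fintype N] [DecidableEq N] (A : Set (MulAut N)) :
    Sep A (gc : N → N → N → ℂ) (fun a b => if b = a⁻¹ then (Fintype.card N : ℂ)⁻¹ else 0) := by
  sorry

theorem exists_sep {N : Type} [Group N] [Fintype N] [DecidableEq N] {T : Subgroup N}
    {Sim : Set N} {q : N → ℕ} {c : N → N → N → ℝ} (h : HD T Sim q c) :
    ∃ S : N → N → ℂ, Sep (AutHD Sim q c) (fun a b r => (c a b r : ℂ)) S := by
  sorry

/-! ### E: characters (helper57) -/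

/-- the bijection -/
theorem main_F {K : Type} [Group K] [Finite K] {p : ℕ} [Fact p.Prime] {P U N : Subgroup K}
    [Fintype N] [DecidableEq N] (h : BN p P U N) (X Y : N → N → ℂ)
    (hX : Iso ((TT P N).subgroupOf N) (AutUN U N) gc (fun a b r => (hc U N a b r : ℂ)) X Y) :
    ∃ F : IrrP p K ≃ IrrP p N,
      (∀ α : MulAut K, (∀ x, α x ∈ N ↔ x ∈ N) → ∀ θ θ' : IrrP p K,
        (∀ x, θ'.1 x = θ.1 (α x)) → ∀ t t' : N, (t' : K) = α t → (F θ').1 t = (F θ).1 t') ∧
      (∀ θ, (deg (F θ).1 : ZMod p) ^ 2 = (deg θ.1 : ZMod p) ^ 2) ∧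
      ∀ θ, MatchedAut N θ.1 (F θ).1 := by
  sorry

/-! ### G: goodness -/

theorem good_of_bn {p : ℕ} [Fact p.Prime] (K : Type) [Group K] [Finite K]
    (hperf : ⁅(⊤ : Subgroup K), (⊤ : Subgroup K)⁆ = ⊤)
    (hz : ¬ p ∣ Nat.card (Subgroup.center K)) (hp : p ∣ Nat.card K) (S : Type) [Group S]
    (hS : IsSimpleGroup S) (hS' : ¬ ∀ a b : S, a * b = b * a)
    (e : Nonempty ((K ⧸ Subgroup.center K) ≃* S)) {P U N : Subgroup K} (hB : BN p P U N) :
    Good p K := by
  sorry

/-! ### S: the groups PSL_n(k) (helper68) -/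

theorem bn_of_psl {n : ℕ} {k : Type} [Field k] [Finite k] {K : Type} [Group K] [Finite K] {p : ℕ}
    [Fact p.Prime] (hn : 3 ≤ n) (hp : 5 ≤ p) (hq : p ∣ Nat.card k - 1)
    (hz : ¬ p ∣ Nat.card (Subgroup.center K))
    (e : (K ⧸ Subgroup.center K) ≃* Matrix.ProjectiveSpecialLinearGroup (Fin n) k) :
    ∃ P U N : Subgroup K, BN p P U N := by
  sorry

end Pool.Agent.Helper81.TD
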